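import Mathlib

/-!
# Hodge, Tate and motivated tensors: definitions
-/

namespace Pool.Agent.Y111.MM

open TensorProduct

section General

variable {F : Type} [Field F] {V : Type} [AddCommGroup V] [Module F V]

/-- The endomorphism `X` (as an element of the Lie algebra `𝔤𝔩(V)`) annihilates the multilinear form
`φ` in `n` variables. -/
def Annihilates {n : ℕ} (X : Module.End F V) (φ : MultilinearMap F (fun _ : Fin n => V) F) : Prop :=
  ∀ v : Fin n → V, ∑ i, φ (Function.update v i (X (v i))) = 0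

/-- The form `φ` over the field `K` is the extension of the form `ψ` over `F`. -/
def Extends (K : Type) [Field K] [Algebra F K] {n : ℕ}
    (φ : MultilinearMap K (fun _ : Fin n => K ⊗[F] V) K)
    (ψ : MultilinearMap F (fun _ : Fin n => V) F) : Prop :=
  ∀ v : Fin n → V, φ (fun i => (1 : K) ⊗ₜ[F] v i) = algebraMap F K (ψ v)

/-- The linear combinations, with coefficients in `K`, of the forms over `F` with the property
`P`. -/
def combos (K : Type) [Field K] [Algebra F K] {n : ℕ}
    (P : MultilinearMap F (fun _ : Fin n => V) F → Prop) :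
    Submodule K (MultilinearMap K (fun _ : Fin n => K ⊗[F] V) K) :=
  Submodule.span K {φ | ∃ ψ, P ψ ∧ Extends K φ ψ}

/-- The complex conjugation of `ℂ ⊗ V`. -/
noncomputable def conj (V : Type) [AddCommGroup V] [Module ℚ V] : ℂ ⊗[ℚ] V →ₗ[ℚ] ℂ ⊗[ℚ] V :=
  LinearMap.rTensor V ((starRingEnd ℂ).toRatAlgHom.toLinearMap)

end General

/-- A finite-dimensional rational vector space `V` with a polarized Hodge structure, not
necessarily of one weight (for instance the full cohomology of a smooth projective complex variety,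
or the Betti realization of a motive): `wt w` is the part of weight `w`, `hdg (p, q)` the part of
type `(p, q)`, and `S` is the orthogonal sum of polarizations of the `wt w`. -/
structure PolarizedHodge (V : Type) [AddCommGroup V] [Module ℚ V] where
  /-- the part of weight `w` -/
  wt : ℤ → Submodule ℚ V
  /-- the part of type `(p, q)` -/
  hdg : ℤ × ℤ → Submodule ℂ (ℂ ⊗[ℚ] V)
  /-- the polarization -/
  S : V →ₗ[ℚ] V →ₗ[ℚ] ℚ
  wt_internal : DirectSum.IsInternal wt
  hdg_internal : DirectSum.IsInternal hdg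
  hdg_le : ∀ p q, hdg (p, q) ≤ (wt (p + q)).baseChange ℂ
  conj_mem : ∀ p q, ∀ v ∈ hdg (p, q), conj V v ∈ hdg (q, p)
  symm : ∀ w, ∀ u ∈ wt w, ∀ v ∈ wt w, S v u = (-1) ^ w * S u v
  orth : ∀ p q p' q', (p', q') ≠ (q, p) → ∀ u ∈ hdg (p, q), ∀ v ∈ hdg (p', q'),
    LinearMap.BilinForm.baseChange ℂ S u v = 0
  pos : ∀ p q, ∀ v ∈ hdg (p, q), v ≠ 0 → ∃ r : ℝ, 0 < r ∧
    Complex.I ^ (p - q) * LinearMap.BilinForm.baseChange ℂ S v (conj V v) = r

section Realizations

variable {V : Type} [AddCommGroup V] [Module ℚ V] (H : PolarizedHodge V)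

/-- A rational multilinear form on `V` in `n` variables is a *Hodge form* (a sum of Hodge classes in
the Tate twists of the `n`-th tensor power of the dual of `V`) if its complex extension vanishes on
`V^{p_1,q_1} × ⋯ × V^{p_n,q_n}` unless `p_1 + ⋯ + p_n = q_1 + ⋯ + q_n`. -/
def IsHodge {n : ℕ} (ψ : MultilinearMap ℚ (fun _ : Fin n => V) ℚ) : Prop :=
  ∃ φ : MultilinearMap ℂ (fun _ : Fin n => ℂ ⊗[ℚ] V) ℂ, Extends ℂ φ ψ ∧
    ∀ (t : Fin n → ℤ × ℤ) (v : Fin n → ℂ ⊗[ℚ] V), (∀ i, v i ∈ H.hdg (t i)) →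
      ∑ i, (t i).1 ≠ ∑ i, (t i).2 → φ v = 0

variable {K : Type} [Field K] [CharZero K] {Γ : Type} [Group Γ]
  (ρ : Representation K Γ (K ⊗[ℚ] V)) (χ : Γ →* K)

/-- A form on `K ⊗ V` in `n` variables is a *Tate form* if it vanishes on homogeneous vectors whose
weights have an odd sum, and some subgroup of finite index acts on the values at homogeneous
vectors, whose weights have the sum `2 m`, through the `m`-th power of `χ`. -/
def IsTate {n : ℕ} (φ : MultilinearMap K (fun _ : Fin n => K ⊗[ℚ] V) K) : Prop :=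
  ∃ Δ : Subgroup Γ, Δ.FiniteIndex ∧ ∀ (w : Fin n → ℤ) (v : Fin n → K ⊗[ℚ] V),
    (∀ i, v i ∈ (H.wt (w i)).baseChange K) →
      (Odd (∑ i, w i) → φ v = 0) ∧
      ∀ m : ℤ, ∑ i, w i = 2 * m → ∀ s ∈ Δ, φ (fun i => ρ s (v i)) = χ s ^ m * φ v

/-- The formal properties of the action `ρ` of the Galois group on the `ℓ`-adic realization `K ⊗ V`
(`χ` is the action on `ℚ_ℓ (-1)`): it respects the weights, and the polarization is equivariant. -/
structure IsGalois : Prop where
  wt_mem : ∀ s w, ∀ v ∈ (H.wt w).baseChange K, ρ s v ∈ (H.wt w).baseChange K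
  form : ∀ s w, ∀ u ∈ (H.wt w).baseChange K, ∀ v ∈ (H.wt w).baseChange K,
    LinearMap.BilinForm.baseChange K H.S (ρ s u) (ρ s v) =
      χ s ^ w * LinearMap.BilinForm.baseChange K H.S u v

/-- `ρ` is semisimple. -/
def Semisimple : Prop :=
  ∀ U : Submodule K (K ⊗[ℚ] V), (∀ s, ∀ u ∈ U, ρ s u ∈ U) →
    ∃ U' : Submodule K (K ⊗[ℚ] V), (∀ s, ∀ u ∈ U', ρ s u ∈ U') ∧ IsCompl U U'

/-- `ρ` and `χ` are continuous. -/
def IsContinuous [TopologicalSpace K] [TopologicalSpace Γ] : Prop :=
  (∀ (v : K ⊗[ℚ] V) (l : K ⊗[ℚ] V →ₗ[K] K), Continuous fun s => l (ρ s v)) ∧ Continuous χ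

end Realizations

section Motivic

variable {V : Type} [AddCommGroup V] [Module ℚ V]

/-- `X` lies in the Lie algebra of the group of all automorphisms of `V` that fix the motivated forms
(`A n` is the space of the motivated forms in `n` variables). -/
def InMotivic (A : ∀ n : ℕ, Submodule ℚ (MultilinearMap ℚ (fun _ : Fin n => V) ℚ))
    (X : Module.End ℚ V) : Prop := ∀ n, ∀ ψ ∈ A n, Annihilates X ψ

/-- The form `ψ` is fixed by the identity component of the motivic Galois group. -/
def IsPotMotivated (A : ∀ n : ℕ, Submodule ℚ (MultilinearMap ℚ (fun _ : Fin n => V) ℚ)) {n : ℕ}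
    (ψ : MultilinearMap ℚ (fun _ : Fin n => V) ℚ) : Prop := ∀ X, InMotivic A X → Annihilates X ψ

/-- The classes of degree `n` agree: a rational form in `n` variables is a Hodge form if and only if
it is potentially motivated, and the Tate forms in `n` variables are the combinations of
potentially motivated forms. -/
def Agree (H : PolarizedHodge V) {K : Type} [Field K] [CharZero K] {Γ : Type} [Group Γ]
    (ρ : Representation K Γ (K ⊗[ℚ] V)) (χ : Γ →* K)
    (A : ∀ n : ℕ, Submodule ℚ (MultilinearMap ℚ (fun _ : Fin n => V) ℚ)) (n : ℕ) : Prop :=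
  (∀ ψ : MultilinearMap ℚ (fun _ : Fin n => V) ℚ, IsHodge H ψ ↔ IsPotMotivated A ψ) ∧
  (∀ φ : MultilinearMap K (fun _ : Fin n => K ⊗[ℚ] V) K,
    IsTate H ρ χ φ ↔ φ ∈ combos K (IsPotMotivated A))

/-- The conjecture holds on the centre: an element of the centre of the motivic Lie algebra
annihilates all Hodge forms and all Tate forms. -/
def AgreeCentre (H : PolarizedHodge V) {K : Type} [Field K] [CharZero K] {Γ : Type} [Group Γ]
    (ρ : Representation K Γ (K ⊗[ℚ] V)) (χ : Γ →* K)
    (A : ∀ n : ℕ, Submodule ℚ (MultilinearMap ℚ (fun _ : Fin n => V) ℚ)) : Prop :=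
  ∀ C : Module.End ℚ V, InMotivic A C → (∀ X, InMotivic A X → X * C = C * X) →
    (∀ n (ψ : MultilinearMap ℚ (fun _ : Fin n => V) ℚ), IsHodge H ψ → Annihilates C ψ) ∧
    (∀ n (φ : MultilinearMap K (fun _ : Fin n => K ⊗[ℚ] V) K),
      IsTate H ρ χ φ → Annihilates (C.baseChange K) φ)

end Motivic

end Pool.Agent.Y111.MM
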