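import Mathlib

/-!
# Operators near the identity on ultrametric spaces over `ℚ_ℓ`
-/

set_option linter.unusedSectionVars false

namespace Pool.Agent.Y111.MM

open Filter Topology

section Norm

variable {ℓ : ℕ} [hℓ : Fact ℓ.Prime] {U : Type*} [NormedAddCommGroup U] [NormedSpace ℚ_[ℓ] U]
  [IsUltrametricDist U] {M : Type*} [AddCommGroup M] [Module ℚ_[ℓ] M] (j : M →ₗ[ℚ_[ℓ]] U)

/-- The radius. -/
noncomputable def rad (ℓ : ℕ) : ℝ := ((ℓ : ℝ) ^ 2)⁻¹

theorem rad_pos (ℓ : ℕ) [hℓ : Fact ℓ.Prime] : 0 < rad ℓ := by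
  have := hℓ.1.pos
  unfold rad
  positivity

theorem rad_lt (ℓ : ℕ) [hℓ : Fact ℓ.Prime] : rad ℓ < (ℓ : ℝ)⁻¹ := by
  have h1 : (1 : ℝ) < ℓ := by exact_mod_cast hℓ.1.one_lt
  unfold rad
  rw [inv_lt_inv₀ (by positivity) (by positivity)]
  nlinarith

theorem inv_lt_one' (ℓ : ℕ) [hℓ : Fact ℓ.Prime] : (ℓ : ℝ)⁻¹ < 1 := by
  have h1 : (1 : ℝ) < ℓ := by exact_mod_cast hℓ.1.one_lt
  exact inv_lt_one_of_one_lt₀ h1

theorem rad_lt_one (ℓ : ℕ) [hℓ : Fact ℓ.Prime] : rad ℓ < 1 :=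
  (rad_lt ℓ).trans (inv_lt_one' ℓ)

omit hℓ [NormedSpace ℚ_[ℓ] U] in
theorem norm_eq_of_sub {x y : U} (h : ‖x - y‖ < ‖y‖) : ‖x‖ = ‖y‖ := by
  have h1 : ‖x - y‖ < max ‖x‖ ‖-y‖ := by
    rw [norm_neg]
    exact h.trans_le (le_max_right _ _)
  have h2 := IsUltrametricDist.norm_eq_of_add_norm_lt_max (x := x) (y := -y) (by rwa [← sub_eq_add_neg])
  rwa [norm_neg] at h2

variable (T : Module.End ℚ_[ℓ] M)

/-- The operator is near the identity. -/
def Near : Prop := ∀ x, ‖j (T x - x)‖ ≤ rad ℓ * ‖j x‖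

variable {j T}

theorem Near.norm_eq (hT : Near j T) (x : M) : ‖j (T x)‖ = ‖j x‖ := by
  by_cases hx : j x = 0
  · have h1 := hT x
    rw [map_sub, hx, sub_zero, norm_zero, mul_zero] at h1
    rw [hx, norm_zero]
    exact le_antisymm h1 (norm_nonneg _)
  · have h1 : ‖j (T x) - j x‖ < ‖j x‖ := by
      rw [← map_sub]
      refine (hT x).trans_lt ?_
      have := norm_pos_iff.2 hx
      nlinarith [rad_lt_one ℓ]
    exact norm_eq_of_sub h1

theorem Near.pow (hT : Near j T) (n : ℕ) : Near j (T ^ n) := by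
  induction n with
  | zero =>
    intro x
    rw [pow_zero, Module.End.one_apply, sub_self, map_zero, norm_zero]
    exact mul_nonneg (rad_pos ℓ).le (norm_nonneg _)
  | succ n ih =>
    intro x
    have h1 : (T ^ (n + 1)) x - x = ((T ^ n) (T x) - T x) + (T x - x) := by
      rw [pow_succ, Module.End.mul_apply]
      abel
    rw [h1, map_add]
    refine (IsUltrametricDist.norm_add_le_max _ _).trans (max_le ?_ (hT x))
    have h2 := ih (T x)
    rwa [hT.norm_eq] at h2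

omit [IsUltrametricDist U] in
theorem sum_iter (T : Module.End ℚ_[ℓ] M) (x : M) (n : ℕ) :
    (T ^ n) x - x = ∑ i ∈ Finset.range n, (T ^ i) (T x - x) := by
  induction n with
  | zero => simp
  | succ n ih =>
    rw [Finset.sum_range_succ, ← ih, pow_succ, Module.End.mul_apply, map_sub]
    abel

theorem Near.pow_sub (hT : Near j T) (x : M) (n : ℕ) :
    ‖j ((T ^ n) x - x) - (n : ℚ_[ℓ]) • j (T x - x)‖ ≤ rad ℓ * ‖j (T x - x)‖ := by
  have h1 : j ((T ^ n) x - x) - (n : ℚ_[ℓ]) • j (T x - x) =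
      ∑ i ∈ Finset.range n, j ((T ^ i) (T x - x) - (T x - x)) := by
    simp only [map_sub j]
    rw [← map_sub, sum_iter, Finset.sum_sub_distrib, Finset.sum_const, Finset.card_range,
      Nat.cast_smul_eq_nsmul, map_sum]
  rw [h1]
  refine IsUltrametricDist.norm_sum_le_of_forall_le_of_nonneg
    (mul_nonneg (rad_pos ℓ).le (norm_nonneg _)) fun i _ => ?_
  exact hT.pow i _

theorem Near.pow_prime (hT : Near j T) (x : M) :
    ‖j ((T ^ ℓ) x - x)‖ = (ℓ : ℝ)⁻¹ * ‖j (T x - x)‖ := by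
  by_cases hx : j (T x - x) = 0
  · have h2 := hT.pow_sub x ℓ
    rw [hx, smul_zero, sub_zero, norm_zero, mul_zero] at h2
    rw [hx, norm_zero, mul_zero]
    exact le_antisymm h2 (norm_nonneg _)
  · have h1 : ‖(ℓ : ℚ_[ℓ]) • j (T x - x)‖ = (ℓ : ℝ)⁻¹ * ‖j (T x - x)‖ := by
      rw [norm_smul, Padic.norm_p]
    rw [← h1]
    refine norm_eq_of_sub ?_
    refine (hT.pow_sub x ℓ).trans_lt ?_
    rw [h1]
    exact mul_lt_mul_of_pos_right (rad_lt ℓ) (norm_pos_iff.2 hx)

theorem Near.pow_prime_pow (hT : Near j T) (x : M) (k : ℕ) :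
    ‖j ((T ^ (ℓ ^ k)) x - x)‖ = ((ℓ : ℝ) ^ k)⁻¹ * ‖j (T x - x)‖ := by
  induction k with
  | zero => simp
  | succ k ih =>
    rw [pow_succ ℓ k, pow_mul, (hT.pow (ℓ ^ k)).pow_prime, ih, pow_succ, mul_inv]
    ring

/-- Fixed vectors of a power. -/
theorem Near.fixed (hj : Function.Injective j) (hT : Near j T) {x : M} :
    ∀ {n : ℕ}, 0 < n → (T ^ n) x = x → T x = x := by
  have hzero : ∀ y : M, ‖j y‖ = 0 → y = 0 := fun y hy =>
    hj (by rw [norm_eq_zero.1 hy, map_zero])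
  have hl0 : (ℓ : ℝ)⁻¹ ≠ 0 := inv_ne_zero (by exact_mod_cast hℓ.1.ne_zero)
  -- the generalization over `T`
  suffices h : ∀ (n : ℕ) (T : Module.End ℚ_[ℓ] M), Near j T → 0 < n → (T ^ n) x = x → T x = x from
    fun {n} hn hx => h n T hT hn hx
  intro n
  induction n using Nat.strong_induction_on with
  | _ n ih =>
    intro T hT hn hx
    by_cases hd : ℓ ∣ n
    · obtain ⟨m, rfl⟩ := hd
      have hm : 0 < m := by
        rcases Nat.eq_zero_or_pos m with h0 | h0
        · subst h0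
          simp at hn
        · exact h0
      have h1 : (T ^ m) x = x := by
        have h2 : ((T ^ m) ^ ℓ) x = x := by rw [← pow_mul, mul_comm]; exact hx
        have h3 := (hT.pow m).pow_prime x
        rw [h2, sub_self, map_zero, norm_zero] at h3
        rcases mul_eq_zero.1 h3.symm with h | h
        · exact absurd h hl0
        · exact sub_eq_zero.1 (hzero _ h)
      refine ih m ?_ T hT hm h1
      have := hℓ.1.one_lt
      nlinarith
    · have h1 := hT.pow_sub x n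
      rw [hx, sub_self, map_zero, zero_sub, norm_neg, norm_smul] at h1
      have h2 : ‖(n : ℚ_[ℓ])‖ = 1 :=
        Padic.norm_natCast_eq_one_iff.2 ((hℓ.1.coprime_iff_not_dvd).2 hd)
      rw [h2, one_mul] at h1
      by_contra hne
      have h3 : 0 < ‖j (T x - x)‖ := by
        rcases (norm_nonneg (j (T x - x))).lt_or_eq with h | h
        · exact h
        · exact absurd (sub_eq_zero.1 (hzero _ h.symm)) hne
      nlinarith [rad_lt_one ℓ]

end Norm

end Pool.Agent.Y111.MM
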