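import Mathlib
import Pool.Agent.Y111.MM.Defs
import Pool.Agent.Y111.MM.Near

/-!
# The logarithm of an operator near the identity, and invariant forms
-/

set_option linter.unusedSectionVars false

namespace Pool.Agent.Y111.MM

open Filter Topology Module

section Basis

variable {K : Type} [Field K] {E : Type} [AddCommGroup E] [Module K E] {ι : Type} [Fintype ι]
  [DecidableEq ι] (b : Basis ι K E)

theorem form_expand {n : ℕ} (φ : MultilinearMap K (fun _ : Fin n => E) K) (w : Fin n → E) :
    φ w = ∑ I : Fin n → ι, (∏ i, b.repr (w i) (I i)) * φ (fun i => b (I i)) := by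
  classical
  conv_lhs =>
    rw [show w = fun i => ∑ a, b.repr (w i) a • b a from funext fun i => (b.sum_repr (w i)).symm]
  rw [MultilinearMap.map_sum]
  refine Finset.sum_congr rfl fun I _ => ?_
  rw [MultilinearMap.map_smul_univ, smul_eq_mul]

theorem tendsto_form [TopologicalSpace K] [IsTopologicalRing K] {n : ℕ}
    (φ : MultilinearMap K (fun _ : Fin n => E) K)
    {w : ℕ → Fin n → E} {w₀ : Fin n → E}
    (h : ∀ i a, Tendsto (fun k => b.repr (w k i) a) atTop (𝓝 (b.repr (w₀ i) a))) :
    Tendsto (fun k => φ (w k)) atTop (𝓝 (φ w₀)) := by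
  have h1 : (fun k => φ (w k)) = fun k =>
      ∑ I : Fin n → ι, (∏ i, b.repr (w k i) (I i)) * φ (fun i => b (I i)) :=
    funext fun k => form_expand b φ (w k)
  rw [h1, form_expand b φ w₀]
  refine tendsto_finsetSum _ fun I _ => ?_
  exact (tendsto_finsetProd _ fun i _ => h i (I i)).mul_const _

/-- The coefficients of a form. -/
noncomputable def coefs (n : ℕ) : MultilinearMap K (fun _ : Fin n => E) K →ₗ[K] ((Fin n → ι) → K) where
  toFun φ I := φ (fun i => b (I i))
  map_add' _ _ := rfl
  map_smul' _ _ := rfl

theorem coefs_inj (n : ℕ) : Function.Injective (coefs b n) := fun _ _ h =>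
  Basis.ext_multilinear (fun _ => b) fun I => congrFun h I

/-- The action of an operator on forms. -/
def actF {K : Type} [Field K] {E : Type} [AddCommGroup E] [Module K E] (n : ℕ)
    (T : Module.End K E) : Module.End K (MultilinearMap K (fun _ : Fin n => E) K) where
  toFun φ := φ.compLinearMap (fun _ => T)
  map_add' _ _ := rfl
  map_smul' _ _ := rfl

theorem actF_apply {K : Type} [Field K] {E : Type} [AddCommGroup E] [Module K E] (n : ℕ)
    (T : Module.End K E) (φ : MultilinearMap K (fun _ : Fin n => E) K) (v : Fin n → E) :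
    actF n T φ v = φ (fun i => T (v i)) := rfl

theorem actF_pow {K : Type} [Field K] {E : Type} [AddCommGroup E] [Module K E] (n : ℕ)
    (T : Module.End K E) (k : ℕ) : actF n T ^ k = actF n (T ^ k) := by
  induction k with
  | zero =>
    ext φ v
    rfl
  | succ k ih =>
    ext φ v
    rw [pow_succ', Module.End.mul_apply, ih, actF_apply, actF_apply, actF_apply, pow_succ]
    rfl

end Basis

section Padic

variable {ℓ : ℕ} [hℓ : Fact ℓ.Prime] {E : Type} [AddCommGroup E] [Module ℚ_[ℓ] E]
  {ι : Type} [Fintype ι] [DecidableEq ι] (b : Basis ι ℚ_[ℓ] E)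

/-- The operator `T` is near the identity with respect to the basis. -/
def NearB (T : Module.End ℚ_[ℓ] E) : Prop := ∀ i j, ‖b.repr (T (b j) - b j) i‖ ≤ rad ℓ

variable {b} {T : Module.End ℚ_[ℓ] E}

theorem NearB.near (hT : NearB b T) (x : E) :
    ‖b.equivFun (T x - x)‖ ≤ rad ℓ * ‖b.equivFun x‖ := by
  have h1 : b.equivFun (T x - x) = ∑ j, b.repr x j • b.equivFun (T (b j) - b j) := by
    have h2 : T x - x = ∑ j, b.repr x j • (T (b j) - b j) := by
      simp only [smul_sub, Finset.sum_sub_distrib]
      rw [b.sum_repr x]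
      congr 1
      conv_lhs => rw [← b.sum_repr x, map_sum]
      simp only [map_smul]
    rw [h2, map_sum]
    simp only [map_smul]
  rw [h1]
  refine IsUltrametricDist.norm_sum_le_of_forall_le_of_nonneg
    (mul_nonneg (rad_pos ℓ).le (norm_nonneg _)) fun j _ => ?_
  rw [norm_smul, mul_comm]
  refine mul_le_mul ?_ ?_ (norm_nonneg _) (rad_pos ℓ).le
  · rw [pi_norm_le_iff_of_nonneg (rad_pos ℓ).le]
    intro i
    exact hT i j
  · exact norm_le_pi_norm (b.equivFun x) j

/-- The action on forms of an operator near the identity, multiplied by a scalar near one. -/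
theorem NearB.forms (hT : NearB b T) {c : ℚ_[ℓ]} (hc : ‖c - 1‖ ≤ rad ℓ) {n : ℕ}
    (φ : MultilinearMap ℚ_[ℓ] (fun _ : Fin n => E) ℚ_[ℓ]) :
    ‖coefs b n (c • actF n T φ - φ)‖ ≤ rad ℓ * ‖coefs b n φ‖ := by
  classical
  set M := ‖coefs b n φ‖ with hM
  have hφ : ∀ I : Fin n → ι, ‖φ (fun i => b (I i))‖ ≤ M := fun I => norm_le_pi_norm (coefs b n φ) I
  have hM0 : 0 ≤ M := norm_nonneg _
  -- values at vectors in the unit ball
  have hball : ∀ w : Fin n → E, (∀ i a, ‖b.repr (w i) a‖ ≤ 1) → ‖φ w‖ ≤ M := by
    intro w hw
    rw [form_expand b φ w]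
    refine IsUltrametricDist.norm_sum_le_of_forall_le_of_nonneg hM0 fun I _ => ?_
    rw [norm_mul, norm_prod]
    calc _ ≤ 1 * M := mul_le_mul (Finset.prod_le_one (fun _ _ => norm_nonneg _)
          fun i _ => hw i _) (hφ I) (norm_nonneg _) zero_le_one
      _ = M := one_mul M
  -- one small vector
  have hsmall : ∀ (w : Fin n → E) (j : Fin n), (∀ i a, ‖b.repr (w i) a‖ ≤ 1) →
      (∀ a, ‖b.repr (w j) a‖ ≤ rad ℓ) → ‖φ w‖ ≤ rad ℓ * M := by
    intro w j hw hj
    rw [form_expand b φ w]
    refine IsUltrametricDist.norm_sum_le_of_forall_le_of_nonneg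
      (mul_nonneg (rad_pos ℓ).le hM0) fun I _ => ?_
    rw [norm_mul, norm_prod]
    refine mul_le_mul ?_ (hφ I) (norm_nonneg _) (rad_pos ℓ).le
    rw [← Finset.mul_prod_erase _ _ (Finset.mem_univ j)]
    calc _ ≤ rad ℓ * 1 := mul_le_mul (hj _) (Finset.prod_le_one (fun _ _ => norm_nonneg _)
          fun i _ => hw i _) (Finset.prod_nonneg fun _ _ => norm_nonneg _) (rad_pos ℓ).le
      _ = rad ℓ := mul_one _
  have hb1 : ∀ (i a : ι), ‖b.repr (b i) a‖ ≤ 1 := by
    intro i a
    rw [Basis.repr_self, Finsupp.single_apply]
    split_ifs <;> simp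
  have hTb : ∀ (i a : ι), ‖b.repr (T (b i)) a‖ ≤ 1 := by
    intro i a
    have h1 : b.repr (T (b i)) a = b.repr (T (b i) - b i) a + b.repr (b i) a := by
      rw [map_sub, Finsupp.sub_apply, sub_add_cancel]
    rw [h1]
    exact (IsUltrametricDist.norm_add_le_max _ _).trans
      (max_le ((hT a i).trans (rad_lt_one ℓ).le) (hb1 i a))
  -- telescoping
  have hact : ∀ I : Fin n → ι, ‖φ (fun i => T (b (I i))) - φ (fun i => b (I i))‖ ≤ rad ℓ * M := by
    intro I
    have key : ∀ m : ℕ, m ≤ n → ‖φ (fun i => if (i : ℕ) < m then T (b (I i)) else b (I i)) -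
        φ (fun i => b (I i))‖ ≤ rad ℓ * M := by
      intro m
      induction m with
      | zero =>
        intro _
        simp only [Nat.not_lt_zero, if_false, sub_self, norm_zero]
        exact mul_nonneg (rad_pos ℓ).le hM0
      | succ m ih =>
        intro hm
        have h1 := ih (by omega)
        let j : Fin n := ⟨m, by omega⟩
        let w : Fin n → E := fun i => if (i : ℕ) < m then T (b (I i)) else b (I i)
        have h2 : (fun i : Fin n => if (i : ℕ) < m + 1 then T (b (I i)) else b (I i)) =
            Function.update w j (b (I j) + (T (b (I j)) - b (I j))) := by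
          funext i
          by_cases hi : i = j
          · subst hi
            rw [Function.update_self]
            have : ((j : Fin n) : ℕ) < m + 1 := Nat.lt_succ_self m
            rw [if_pos this]
            abel
          · rw [Function.update_of_ne hi]
            have hne : (i : ℕ) ≠ m := fun h => hi (Fin.ext h)
            by_cases hlt : (i : ℕ) < m
            · simp only [w, if_pos hlt, if_pos (Nat.lt_succ_of_lt hlt)]
            · have : ¬ (i : ℕ) < m + 1 := by omega
              simp only [w, if_neg hlt, if_neg this]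
        have h3 : Function.update w j (b (I j)) = w := by
          rw [Function.update_eq_self_iff]
          have : ¬ ((j : Fin n) : ℕ) < m := lt_irrefl m
          simp only [w, if_neg this]
        rw [h2, MultilinearMap.map_update_add, h3]
        have h4 : φ w + φ (Function.update w j (T (b (I j)) - b (I j))) - φ (fun i => b (I i)) =
            (φ w - φ (fun i => b (I i))) + φ (Function.update w j (T (b (I j)) - b (I j))) := by
          ring
        rw [h4]
        refine (IsUltrametricDist.norm_add_le_max _ _).trans (max_le h1 ?_)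
        refine hsmall _ j (fun i a => ?_) (fun a => ?_)
        · by_cases hi : i = j
          · subst hi
            rw [Function.update_self]
            exact (hT a _).trans (rad_lt_one ℓ).le
          · rw [Function.update_of_ne hi]
            simp only [w]
            split_ifs
            · exact hTb _ _
            · exact hb1 _ _
        · rw [Function.update_self]
          exact hT a _
    have h1 := key n le_rfl
    have h2 : (fun i : Fin n => if (i : ℕ) < n then T (b (I i)) else b (I i)) =
        fun i => T (b (I i)) := by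
      funext i
      rw [if_pos i.2]
    rwa [h2] at h1
  rw [pi_norm_le_iff_of_nonneg (mul_nonneg (rad_pos ℓ).le hM0)]
  intro I
  have h1 : coefs b n (c • actF n T φ - φ) I =
      (c - 1) * φ (fun i => T (b (I i))) + (φ (fun i => T (b (I i))) - φ (fun i => b (I i))) := by
    change c * φ (fun i => T (b (I i))) - φ (fun i => b (I i)) = _
    ring
  rw [h1]
  refine (IsUltrametricDist.norm_add_le_max _ _).trans (max_le ?_ (hact I))
  rw [norm_mul]
  exact mul_le_mul hc (hball _ fun i a => hTb _ _) (norm_nonneg _) (rad_pos ℓ).le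

end Padic

end Pool.Agent.Y111.MM
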