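import Mathlib
import Pool.Agent.Y111.MM.Log

/-!
# The logarithm of an operator near the identity annihilates exactly the invariant forms
-/

set_option linter.unusedSectionVars false

namespace Pool.Agent.Y111.MM

open Filter Topology Module

section Deriv

variable {K : Type} [Field K] {E : Type} [AddCommGroup E] [Module K E] {ι : Type} [Fintype ι]
  [DecidableEq ι] (b : Basis ι K E)

theorem deriv_expand {n : ℕ} (φ : MultilinearMap K (fun _ : Fin n => E) K) (v y : Fin n → E)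
    {t : K} (ht : t ≠ 0) :
    t⁻¹ * (φ (v + t • y) - φ v) = ∑ i, φ (Function.update v i (y i)) +
      ∑ s ∈ Finset.univ.filter (fun s : Finset (Fin n) => 2 ≤ s.card),
        t ^ (s.card - 1) * φ (s.piecewise y v) := by
  classical
  rw [MultilinearMap.map_add_eq_map_add_linearDeriv_add, map_smul, MultilinearMap.linearDeriv_apply]
  have h1 : ∀ s ∈ Finset.univ.filter (fun s : Finset (Fin n) => 2 ≤ s.card),
      φ (s.piecewise (t • y) v) = t * (t ^ (s.card - 1) * φ (s.piecewise y v)) := by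
    intro s hs
    have h2 : s.piecewise (t • y) v =
        s.piecewise (fun i => t • (s.piecewise y v) i) (s.piecewise y v) := by
      funext i
      by_cases hi : i ∈ s
      · simp [hi]
      · simp [hi]
    rw [h2, MultilinearMap.map_piecewise_smul, Finset.prod_const, smul_eq_mul, ← mul_assoc,
      ← pow_succ']
    have h3 : 2 ≤ s.card := (Finset.mem_filter.1 hs).2
    rw [Nat.sub_add_cancel (by omega)]
  rw [Finset.sum_congr rfl h1, ← Finset.mul_sum, smul_eq_mul]
  field_simp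
  ring

theorem tendsto_deriv [TopologicalSpace K] [IsTopologicalRing K] {n : ℕ}
    (φ : MultilinearMap K (fun _ : Fin n => E) K) (v : Fin n → E) {t : ℕ → K}
    (ht0 : ∀ k, t k ≠ 0) (ht : Tendsto t atTop (𝓝 0)) {y : ℕ → Fin n → E} {y₀ : Fin n → E}
    (h : ∀ i a, Tendsto (fun k => b.repr (y k i) a) atTop (𝓝 (b.repr (y₀ i) a))) :
    Tendsto (fun k => (t k)⁻¹ * (φ (v + t k • y k) - φ v)) atTop
      (𝓝 (∑ i, φ (Function.update v i (y₀ i)))) := by
  classical
  have h1 : (fun k => (t k)⁻¹ * (φ (v + t k • y k) - φ v)) = fun k =>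
      ∑ i, φ (Function.update v i (y k i)) +
      ∑ s ∈ Finset.univ.filter (fun s : Finset (Fin n) => 2 ≤ s.card),
        (t k) ^ (s.card - 1) * φ (s.piecewise (y k) v) :=
    funext fun k => deriv_expand φ v (y k) (ht0 k)
  rw [h1, ← add_zero (∑ i, φ (Function.update v i (y₀ i)))]
  refine Tendsto.add ?_ ?_
  · refine tendsto_finsetSum _ fun i _ => ?_
    refine tendsto_form b φ fun j a => ?_
    by_cases hj : j = i
    · subst hj
      simp only [Function.update_self]
      exact h j a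
    · simp only [Function.update_of_ne hj]
      exact tendsto_const_nhds
  · rw [show (0 : K) = ∑ s ∈ Finset.univ.filter (fun s : Finset (Fin n) => 2 ≤ s.card),
      (0 : K) * φ (s.piecewise y₀ v) by simp]
    refine tendsto_finsetSum _ fun s hs => ?_
    refine Tendsto.mul ?_ ?_
    · have h3 : 2 ≤ s.card := (Finset.mem_filter.1 hs).2
      have h4 := ht.pow (s.card - 1)
      rwa [zero_pow (by omega)] at h4
    · refine tendsto_form b φ fun j a => ?_
      by_cases hj : j ∈ s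
      · simp only [Finset.piecewise_eq_of_mem _ _ _ hj]
        exact h j a
      · simp only [Finset.piecewise_eq_of_notMem _ _ _ hj]
        exact tendsto_const_nhds

end Deriv

section Padic

variable {ℓ : ℕ} [hℓ : Fact ℓ.Prime] {E : Type} [AddCommGroup E] [Module ℚ_[ℓ] E]
  {ι : Type} [Fintype ι] [DecidableEq ι] (b : Basis ι ℚ_[ℓ] E) {T : Module.End ℚ_[ℓ] E}

theorem NearB.pow_prime_pow (hT : NearB b T) (x : E) (k : ℕ) :
    ‖b.equivFun ((T ^ (ℓ ^ k)) x - x)‖ = ((ℓ : ℝ) ^ k)⁻¹ * ‖b.equivFun (T x - x)‖ :=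
  Near.pow_prime_pow (j := b.equivFun.toLinearMap) (T := T) (fun x => hT.near x) x k

theorem NearB.forms_pow (hT : NearB b T) {c : ℚ_[ℓ]} (hc : ‖c - 1‖ ≤ rad ℓ) {n : ℕ}
    (φ : MultilinearMap ℚ_[ℓ] (fun _ : Fin n => E) ℚ_[ℓ]) (k : ℕ) :
    ‖coefs b n (((c • actF n T) ^ (ℓ ^ k)) φ - φ)‖ =
      ((ℓ : ℝ) ^ k)⁻¹ * ‖coefs b n ((c • actF n T) φ - φ)‖ :=
  Near.pow_prime_pow (j := coefs b n) (T := c • actF n T) (fun φ => hT.forms hc φ) φ k

/-- Forms fixed by a power. -/
theorem NearB.forms_fixed (hT : NearB b T) {c : ℚ_[ℓ]} (hc : ‖c - 1‖ ≤ rad ℓ) {n : ℕ}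
    (φ : MultilinearMap ℚ_[ℓ] (fun _ : Fin n => E) ℚ_[ℓ]) {k : ℕ} (hk : 0 < k)
    (h : ((c • actF n T) ^ k) φ = φ) : (c • actF n T) φ = φ :=
  Near.fixed (j := coefs b n) (T := c • actF n T) (coefs_inj b n) (fun φ => hT.forms hc φ) hk h

/-- **The logarithm.** An operator near the identity has a logarithm `Y`, which annihilates exactly
the forms fixed by the operator. -/
theorem exists_log (hT : NearB b T) : ∃ Y : Module.End ℚ_[ℓ] E, ∀ (n : ℕ)
    (φ : MultilinearMap ℚ_[ℓ] (fun _ : Fin n => E) ℚ_[ℓ]),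
    Annihilates Y φ ↔ ∀ v, φ (fun i => T (v i)) = φ v := by
  classical
  have hl0 : (ℓ : ℚ_[ℓ]) ≠ 0 := by exact_mod_cast hℓ.1.ne_zero
  have hlr : (ℓ : ℝ) ≠ 0 := by exact_mod_cast hℓ.1.ne_zero
  set t : ℕ → ℚ_[ℓ] := fun k => (ℓ : ℚ_[ℓ]) ^ k with ht
  have ht0 : ∀ k, t k ≠ 0 := fun k => pow_ne_zero k hl0
  have htn : ∀ k, ‖t k‖ = ((ℓ : ℝ) ^ k)⁻¹ := by
    intro k
    rw [ht, norm_pow, Padic.norm_p, inv_pow]
  have htt : Tendsto t atTop (𝓝 0) := by
    refine tendsto_pow_atTop_nhds_zero_of_norm_lt_one ?_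
    rw [Padic.norm_p]
    exact inv_lt_one' ℓ
  set Y : ℕ → Module.End ℚ_[ℓ] E := fun k => (t k)⁻¹ • (T ^ (ℓ ^ k) - 1) with hY
  have hYT : ∀ k x, t k • Y k x = (T ^ (ℓ ^ k)) x - x := by
    intro k x
    rw [hY]
    simp only [LinearMap.smul_apply, LinearMap.sub_apply, Module.End.one_apply]
    rw [smul_smul, mul_inv_cancel₀ (ht0 k), one_smul]
  have hYn : ∀ k x, ‖b.equivFun (Y k x)‖ ≤ rad ℓ * ‖b.equivFun x‖ := by
    intro k x
    have h1 : ‖b.equivFun (t k • Y k x)‖ = ‖t k‖ * ‖b.equivFun (Y k x)‖ := by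
      rw [map_smul, norm_smul]
    rw [hYT, hT.pow_prime_pow, htn] at h1
    have h2 : ‖b.equivFun (Y k x)‖ = ‖b.equivFun (T x - x)‖ :=
      (mul_left_cancel₀ (inv_ne_zero (pow_ne_zero k hlr)) h1).symm
    rw [h2]
    exact hT.near x
  -- the matrices
  set A : ℕ → ι → ι → ℚ_[ℓ] := fun k j i => b.repr (Y k (b j)) i with hA
  have hAb : ∀ k, A k ∈ Metric.closedBall (0 : ι → ι → ℚ_[ℓ]) 1 := by
    intro k
    rw [mem_closedBall_zero_iff, pi_norm_le_iff_of_nonneg zero_le_one]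
    intro j
    have h1 : A k j = b.equivFun (Y k (b j)) := rfl
    rw [h1]
    refine (hYn k (b j)).trans ?_
    have h2 : ‖b.equivFun (b j)‖ ≤ 1 := by
      rw [pi_norm_le_iff_of_nonneg zero_le_one]
      intro i
      rw [Basis.equivFun_apply, Basis.repr_self, Finsupp.single_apply]
      split_ifs <;> simp
    calc _ ≤ 1 * 1 := mul_le_mul (rad_lt_one ℓ).le h2 (norm_nonneg _) zero_le_one
      _ = 1 := one_mul 1
  obtain ⟨A₀, -, κ, hκ, hlim⟩ := (isCompact_closedBall (0 : ι → ι → ℚ_[ℓ]) 1).tendsto_subseq hAb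
  let Y₀ : Module.End ℚ_[ℓ] E := b.constr ℚ_[ℓ] (fun j => b.equivFun.symm (A₀ j))
  have hY₀ : ∀ j i, b.repr (Y₀ (b j)) i = A₀ j i := by
    intro j i
    rw [Basis.constr_basis]
    change b.equivFun (b.equivFun.symm (A₀ j)) i = A₀ j i
    rw [LinearEquiv.apply_symm_apply]
  have hconv : ∀ (x : E) (a : ι), Tendsto (fun k => b.repr (Y (κ k) x) a) atTop
      (𝓝 (b.repr (Y₀ x) a)) := by
    intro x a
    have h1 : ∀ Z : Module.End ℚ_[ℓ] E, b.repr (Z x) a =
        ∑ j, b.repr x j * b.repr (Z (b j)) a := by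
      intro Z
      conv_lhs => rw [← b.sum_repr x, map_sum, map_sum, Finsupp.finsetSum_apply]
      refine Finset.sum_congr rfl fun j _ => ?_
      rw [map_smul, map_smul, Finsupp.smul_apply, smul_eq_mul]
    simp only [h1]
    refine tendsto_finsetSum _ fun j _ => ?_
    refine Tendsto.const_mul _ ?_
    rw [hY₀]
    have h2 := (tendsto_pi_nhds.1 ((tendsto_pi_nhds.1 hlim) j)) a
    exact h2
  have hder : ∀ {n : ℕ} (φ : MultilinearMap ℚ_[ℓ] (fun _ : Fin n => E) ℚ_[ℓ]) (v : Fin n → E),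
      Tendsto (fun k => (t (κ k))⁻¹ * (φ (fun i => (T ^ (ℓ ^ (κ k))) (v i)) - φ v)) atTop
        (𝓝 (∑ i, φ (Function.update v i (Y₀ (v i))))) := by
    intro n φ v
    have h1 := tendsto_deriv b φ v (t := fun k => t (κ k)) (fun k => ht0 _)
      (htt.comp hκ.tendsto_atTop) (y := fun k i => Y (κ k) (v i)) (y₀ := fun i => Y₀ (v i))
      (fun i a => hconv (v i) a)
    refine h1.congr fun k => ?_
    congr 3
    funext i
    change v i + t (κ k) • Y (κ k) (v i) = _
    rw [hYT]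
    abel
  refine ⟨Y₀, fun n φ => ⟨fun h => ?_, fun h v => ?_⟩⟩
  · -- annihilated forms are fixed
    have h1 : ∀ k, ‖fun I : Fin n → ι => (t k)⁻¹ *
        (φ (fun i => (T ^ (ℓ ^ k)) (b (I i))) - φ (fun i => b (I i)))‖ =
        ‖coefs b n (actF n T φ - φ)‖ := by
      intro k
      have h2 : (fun I : Fin n → ι => (t k)⁻¹ *
        (φ (fun i => (T ^ (ℓ ^ k)) (b (I i))) - φ (fun i => b (I i)))) =
          (t k)⁻¹ • coefs b n ((((1 : ℚ_[ℓ]) • actF n T) ^ (ℓ ^ k)) φ - φ) := by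
        funext I
        rw [one_smul, actF_pow]
        rfl
      rw [h2, norm_smul, norm_inv, htn, hT.forms_pow b (by simp [(rad_pos ℓ).le]) φ k, inv_inv,
        ← mul_assoc, mul_inv_cancel₀ (pow_ne_zero k hlr), one_mul, one_smul]
    have h2 : Tendsto (fun k => (fun I : Fin n → ι => (t (κ k))⁻¹ *
        (φ (fun i => (T ^ (ℓ ^ (κ k))) (b (I i))) - φ (fun i => b (I i))))) atTop (𝓝 0) := by
      rw [tendsto_pi_nhds]
      intro I
      have h3 := hder φ (fun i => b (I i))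
      rw [h] at h3
      exact h3
    have h3 := h2.norm
    simp only [h1] at h3
    rw [norm_zero] at h3
    have h4 : ‖coefs b n (actF n T φ - φ)‖ = 0 := tendsto_nhds_unique tendsto_const_nhds h3
    have h5 : actF n T φ - φ = 0 := coefs_inj b n (by rw [norm_eq_zero.1 h4, map_zero])
    intro v
    have h6 := congrArg (fun ψ : MultilinearMap ℚ_[ℓ] (fun _ : Fin n => E) ℚ_[ℓ] => ψ v)
      (sub_eq_zero.1 h5)
    exact h6
  · have hpow : ∀ (m : ℕ) (v : Fin n → E), φ (fun i => (T ^ m) (v i)) = φ v := by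
      intro m
      induction m with
      | zero => intro v; rfl
      | succ m ih =>
        intro v
        have h1 : (fun i => (T ^ (m + 1)) (v i)) = fun i => (T ^ m) (T (v i)) := by
          funext i
          rw [pow_succ, Module.End.mul_apply]
        rw [h1, ih (fun i => T (v i)), h]
    have h1 := hder φ v
    simp only [hpow, sub_self, mul_zero] at h1
    exact (tendsto_nhds_unique h1 tendsto_const_nhds)

end Padic

end Pool.Agent.Y111.MM
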