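import Mathlib
import Pool.Agent.W516.Cartan

/-!
# The trace form of a Lie algebra normalized by a group acting semisimply
-/

set_option linter.unusedSectionVars false

namespace Pool.Agent.Y111.MM.CG

open Module Pool.Agent.W516.KC

noncomputable section

attribute [local instance 100] LieRing.ofAssociativeRing

variable {k W : Type*} [Field k] [CharZero k] [AddCommGroup W] [Module k W] [FiniteDimensional k W]
  {Γ : Type*} [Group Γ] (ρ : Representation k Γ W)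

/-- Every subspace stable under the Lie algebra, its commutant and the group has a complement stable
under the Lie algebra. -/
def SemiG (𝔥 : Submodule k (Module.End k W)) : Prop :=
  ∀ U : Submodule k W, (∀ X ∈ 𝔥, ∀ u ∈ U, X u ∈ U) → (∀ s, ∀ u ∈ U, ρ s u ∈ U) →
    (∀ P : Module.End k W, (∀ X ∈ 𝔥, X * P = P * X) → ∀ u ∈ U, P u ∈ U) →
    ∃ U' : Submodule k W, (∀ X ∈ 𝔥, ∀ u ∈ U', X u ∈ U') ∧ IsCompl U U'

/-- Stability under conjugation. -/
def ConjG (𝔰 : Submodule k (Module.End k W)) : Prop :=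
  ∀ s, ∀ X ∈ 𝔰, ρ s * X * ρ s⁻¹ ∈ 𝔰

variable {ρ}

/-- An ideal consisting of nilpotent endomorphisms is zero. -/
theorem eq_zero_of_nilpotent (𝔥 𝔰 : Submodule k (Module.End k W)) (hss : SemiG ρ 𝔥)
    (hle : 𝔰 ≤ 𝔥) (hbr : ∀ X ∈ 𝔰, ∀ Y ∈ 𝔰, X * Y - Y * X ∈ 𝔰)
    (hid : ∀ A ∈ 𝔥, ∀ X ∈ 𝔰, A * X - X * A ∈ 𝔰)
    (hconj : ConjG ρ 𝔰) (hnil : ∀ X ∈ 𝔰, IsNilpotent X) : ∀ X ∈ 𝔰, X = 0 := by
  let W₀ : Submodule k W :=
    { carrier := {w | ∀ X ∈ 𝔰, X w = 0}
      zero_mem' := fun X _ => map_zero X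
      add_mem' := by
        intro a b ha hb X hX
        rw [map_add, ha X hX, hb X hX, add_zero]
      smul_mem' := by
        intro c a ha X hX
        rw [map_smul, ha X hX, smul_zero] }
  have hW₀ : ∀ A ∈ 𝔥, ∀ u ∈ W₀, A u ∈ W₀ := by
    intro A hA u hu X hX
    have h1 := hu _ (hid A hA X hX)
    rw [LinearMap.sub_apply, Module.End.mul_apply, Module.End.mul_apply, hu X hX, map_zero,
      zero_sub, neg_eq_zero] at h1
    exact h1
  have hW₀' : ∀ s, ∀ u ∈ W₀, ρ s u ∈ W₀ := by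
    intro s u hu X hX
    have h1 := hu _ (hconj s⁻¹ X hX)
    rw [inv_inv, Module.End.mul_apply, Module.End.mul_apply] at h1
    have h2 := congrArg (ρ s) h1
    rw [map_zero, ← Module.End.mul_apply, ← map_mul, mul_inv_cancel, map_one] at h2
    exact h2
  have hW₀'' : ∀ P : Module.End k W, (∀ X ∈ 𝔥, X * P = P * X) → ∀ u ∈ W₀, P u ∈ W₀ := by
    intro P hP u hu X hX
    rw [← Module.End.mul_apply, hP X (hle hX), Module.End.mul_apply, hu X hX, map_zero]
  obtain ⟨U, hU, hc⟩ := hss W₀ hW₀ hW₀' hW₀''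
  by_cases hbot : U = ⊥
  · intro X hX
    have h1 : W₀ = ⊤ := by
      have := hc.sup_eq_top
      rwa [hbot, sup_bot_eq] at this
    ext w
    have h2 : w ∈ W₀ := by rw [h1]; trivial
    exact h2 X hX
  · exfalso
    let L := toLie 𝔰 hbr
    let N : LieSubmodule k L W :=
      { U with
        lie_mem := by
          intro X u hu
          exact hU X.1 (hle X.2) u hu }
    have hN : Nontrivial N := by
      obtain ⟨u, hu, hu0⟩ := Submodule.exists_mem_ne_zero_of_ne_bot hbot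
      exact ⟨⟨⟨u, hu⟩, 0, fun h => hu0 (congrArg (fun x : N => (x : W)) h)⟩⟩
    have hnilp : LieModule.IsNilpotent L N := by
      rw [LieModule.isNilpotent_iff_forall (R := k)]
      intro X
      obtain ⟨n, hn⟩ := hnil X.1 X.2
      refine ⟨n, ?_⟩
      have h1 : ∀ (j : ℕ) (u : N), (((LieModule.toEnd k L N X) ^ j) u : W) = (X.1 ^ j) (u : W) := by
        intro j
        induction j with
        | zero => intro u; simp
        | succ j ih =>
          intro u
          rw [pow_succ, pow_succ, Module.End.mul_apply, Module.End.mul_apply, ih]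
          rfl
      ext u
      rw [h1, hn]
      rfl
    have _ := LieModule.nontrivial_max_triv_of_isNilpotent k L N
    obtain ⟨x, hx⟩ := exists_ne (0 : LieModule.maxTrivSubmodule k L N)
    apply hx
    have h1 : (x.1 : W) ∈ W₀ := by
      intro X hX
      have h2 := x.2
      rw [LieModule.mem_maxTrivSubmodule] at h2
      have h3 := h2 ⟨X, hX⟩
      exact congrArg (fun u : N => (u : W)) h3
    have h2 : (x.1 : W) ∈ W₀ ⊓ U := ⟨h1, x.1.2⟩
    rw [hc.inf_eq_bot, Submodule.mem_bot] at h2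
    exact Subtype.ext (Subtype.ext h2)

/-- The radical of the trace form of a Lie algebra acting semisimply is central. -/
theorem central_of_trace (𝔥 : Submodule k (Module.End k W)) (hss : SemiG ρ 𝔥) (hcj : ConjG ρ 𝔥)
    (hbr : ∀ X ∈ 𝔥, ∀ Y ∈ 𝔥, X * Y - Y * X ∈ 𝔥) {X : Module.End k W} (hX : X ∈ 𝔥)
    (htr : ∀ Y ∈ 𝔥, LinearMap.trace k W (X * Y) = 0) : ∀ Y ∈ 𝔥, Y * X = X * Y := by
  classical
  -- the radical
  let 𝔯 : Submodule k (Module.End k W) :=
    { carrier := {X | X ∈ 𝔥 ∧ ∀ Y ∈ 𝔥, LinearMap.trace k W (X * Y) = 0}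
      zero_mem' := ⟨Submodule.zero_mem _, fun Y _ => by rw [zero_mul, map_zero]⟩
      add_mem' := by
        rintro A B ⟨hA, hA'⟩ ⟨hB, hB'⟩
        refine ⟨Submodule.add_mem _ hA hB, fun Y hY => ?_⟩
        rw [add_mul, map_add, hA' Y hY, hB' Y hY, add_zero]
      smul_mem' := by
        rintro c A ⟨hA, hA'⟩
        refine ⟨Submodule.smul_mem _ c hA, fun Y hY => ?_⟩
        rw [smul_mul_assoc, map_smul, hA' Y hY, smul_zero] }
  have hr𝔥 : 𝔯 ≤ 𝔥 := fun A hA => hA.1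
  have hrid : ∀ A ∈ 𝔥, ∀ X ∈ 𝔯, A * X - X * A ∈ 𝔯 := by
    rintro A hA X ⟨hX, hX'⟩
    refine ⟨hbr A hA X hX, fun Y hY => ?_⟩
    have h1 := hX' _ (hbr Y hY A hA)
    have h2 : LinearMap.trace k W (A * (X * Y)) = LinearMap.trace k W (X * Y * A) :=
      LinearMap.trace_mul_comm k _ _
    rw [mul_sub, map_sub] at h1
    rw [sub_mul, map_sub, mul_assoc A, h2, mul_assoc X Y A, mul_assoc X A Y]
    exact h1
  have hrbr : ∀ X ∈ 𝔯, ∀ Y ∈ 𝔯, X * Y - Y * X ∈ 𝔯 := fun X hX Y hY => hrid X hX.1 Y hY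
  have htrc : ∀ (s : Γ) (Z : Module.End k W),
      LinearMap.trace k W (ρ s * Z * ρ s⁻¹) = LinearMap.trace k W Z := by
    intro s Z
    rw [LinearMap.trace_mul_comm, ← mul_assoc, ← map_mul, inv_mul_cancel, map_one, one_mul]
  have hinv : ∀ s : Γ, ρ s⁻¹ * ρ s = 1 := fun s => by rw [← map_mul, inv_mul_cancel, map_one]
  have hinv' : ∀ s : Γ, ρ s * ρ s⁻¹ = 1 := fun s => by rw [← map_mul, mul_inv_cancel, map_one]
  have hrconj : ConjG ρ 𝔯 := by
    rintro s X ⟨hX, hX'⟩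
    refine ⟨hcj s X hX, fun Y hY => ?_⟩
    have h1 := hX' _ (hcj s⁻¹ Y hY)
    rw [inv_inv] at h1
    rw [← htrc s⁻¹, inv_inv]
    have h2 : ρ s⁻¹ * (ρ s * X * ρ s⁻¹ * Y) * ρ s = X * (ρ s⁻¹ * Y * ρ s) := by
      rw [← mul_assoc, ← mul_assoc, ← mul_assoc, hinv, one_mul]
      simp only [mul_assoc]
    rw [h2]
    exact h1
  -- it is abelian
  let 𝔡 : Submodule k (Module.End k W) :=
    Submodule.span k {Z | ∃ X ∈ 𝔯, ∃ Y ∈ 𝔯, Z = X * Y - Y * X}
  have hd𝔯 : 𝔡 ≤ 𝔯 := by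
    rw [Submodule.span_le]
    rintro _ ⟨X, hX, Y, hY, rfl⟩
    exact hrbr X hX Y hY
  have hdid : ∀ A ∈ 𝔥, ∀ Z ∈ 𝔡, A * Z - Z * A ∈ 𝔡 := by
    intro A hA Z hZ
    induction hZ using Submodule.span_induction with
    | mem Z hZ =>
      obtain ⟨X, hX, Y, hY, rfl⟩ := hZ
      have h1 : A * (X * Y - Y * X) - (X * Y - Y * X) * A =
          ((A * X - X * A) * Y - Y * (A * X - X * A)) +
          (X * (A * Y - Y * A) - (A * Y - Y * A) * X) := by
        noncomm_ring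
      rw [h1]
      exact Submodule.add_mem _ (Submodule.subset_span ⟨_, hrid A hA X hX, Y, hY, rfl⟩)
        (Submodule.subset_span ⟨X, hX, _, hrid A hA Y hY, rfl⟩)
    | zero => rw [mul_zero, zero_mul, sub_zero]; exact Submodule.zero_mem _
    | add a b _ _ ha hb =>
      have h1 : A * (a + b) - (a + b) * A = (A * a - a * A) + (A * b - b * A) := by noncomm_ring
      rw [h1]
      exact Submodule.add_mem _ ha hb
    | smul c a _ ha =>
      have h1 : A * (c • a) - (c • a) * A = c • (A * a - a * A) := by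
        rw [mul_smul_comm, smul_mul_assoc, smul_sub]
      rw [h1]
      exact Submodule.smul_mem _ _ ha
  have hbrc : ∀ (s : Γ) (X Y : Module.End k W), ρ s * (X * Y - Y * X) * ρ s⁻¹ =
      (ρ s * X * ρ s⁻¹) * (ρ s * Y * ρ s⁻¹) - (ρ s * Y * ρ s⁻¹) * (ρ s * X * ρ s⁻¹) := by
    intro s X Y
    have h1 : ∀ A B : Module.End k W,
        (ρ s * A * ρ s⁻¹) * (ρ s * B * ρ s⁻¹) = ρ s * (A * B) * ρ s⁻¹ := by
      intro A B
      calc (ρ s * A * ρ s⁻¹) * (ρ s * B * ρ s⁻¹) = ρ s * A * (ρ s⁻¹ * ρ s) * B * ρ s⁻¹ := by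
            simp only [mul_assoc]
        _ = ρ s * (A * B) * ρ s⁻¹ := by rw [hinv, mul_one]; simp only [mul_assoc]
    rw [h1, h1, mul_sub, sub_mul]
  have hdconj : ConjG ρ 𝔡 := by
    intro s Z hZ
    induction hZ using Submodule.span_induction with
    | mem Z hZ =>
      obtain ⟨X, hX, Y, hY, rfl⟩ := hZ
      rw [hbrc]
      exact Submodule.subset_span ⟨_, hrconj s X hX, _, hrconj s Y hY, rfl⟩
    | zero => rw [mul_zero, zero_mul]; exact Submodule.zero_mem _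
    | add a b _ _ ha hb => rw [mul_add, add_mul]; exact Submodule.add_mem _ ha hb
    | smul c a _ ha => rw [mul_smul_comm, smul_mul_assoc]; exact Submodule.smul_mem _ _ ha
  have hdnil : ∀ Z ∈ 𝔡, IsNilpotent Z := by
    let L := toLie 𝔯 hrbr
    have htf : LieModule.traceForm k L W = 0 := by
      ext X Y
      exact X.2.2 Y.1 Y.2.1
    have hN := LieModule.isNilpotent_derivedSeries_of_traceForm_eq_zero (R := k) (L := L) (M := W)
      htf
    rw [LieModule.isNilpotent_iff_forall' (R := k)] at hN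
    intro Z hZ
    have h1 : ∀ Z ∈ 𝔡, ∃ Z' : LieAlgebra.derivedSeries k L 1, (Z'.1.1 : Module.End k W) = Z := by
      intro Z hZ
      induction hZ using Submodule.span_induction with
      | mem Z hZ =>
        obtain ⟨X, hX, Y, hY, rfl⟩ := hZ
        refine ⟨⟨⁅(⟨X, hX⟩ : L), (⟨Y, hY⟩ : L)⁆, ?_⟩, rfl⟩
        rw [LieAlgebra.derivedSeries_def, LieAlgebra.derivedSeriesOfIdeal_succ,
          LieAlgebra.derivedSeriesOfIdeal_zero]
        exact LieSubmodule.lie_mem_lie (LieSubmodule.mem_top _) (LieSubmodule.mem_top _)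
      | zero => exact ⟨0, rfl⟩
      | add a b _ _ ha hb =>
        obtain ⟨a', ha'⟩ := ha
        obtain ⟨b', hb'⟩ := hb
        exact ⟨a' + b', by rw [← ha', ← hb']; rfl⟩
      | smul c a _ ha =>
        obtain ⟨a', ha'⟩ := ha
        exact ⟨c • a', by rw [← ha']; rfl⟩
    obtain ⟨Z', rfl⟩ := h1 Z hZ
    exact hN Z'
  have hd0 := eq_zero_of_nilpotent 𝔥 𝔡 hss (hd𝔯.trans hr𝔥)
    (fun X hX Y hY => hdid X (hr𝔥 (hd𝔯 hX)) Y hY) hdid hdconj hdnil
  have hab : ∀ X ∈ 𝔯, ∀ Y ∈ 𝔯, X * Y = Y * X := fun X hX Y hY =>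
    sub_eq_zero.1 (hd0 _ (Submodule.subset_span ⟨X, hX, Y, hY, rfl⟩))
  -- brackets with elements of the radical are nilpotent
  have hnil1 : ∀ A ∈ 𝔥, ∀ X ∈ 𝔯, IsNilpotent (A * X - X * A) := by
    intro A hA X hX
    apply isNilpotent_of_trace
    intro p
    set Z := A * X - X * A with hZ
    have hZX : Commute X Z := hab X hX Z (hrid A hA X hX)
    have hpX : Commute X (Polynomial.aeval Z p) := by
      have h1 : Polynomial.aeval Z p ∈ Algebra.adjoin k {Z} := Polynomial.aeval_mem_adjoin_singleton k Z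
      exact Algebra.commute_of_mem_adjoin_singleton_of_commute h1 hZX
    have h1 : Polynomial.aeval Z p * Z = (Polynomial.aeval Z p * A) * X -
        X * (Polynomial.aeval Z p * A) := by
      rw [← mul_assoc X, hpX.eq]
      conv_lhs => rw [hZ]
      rw [mul_sub, mul_assoc, mul_assoc, ← hZ]
    rw [h1, map_sub, LinearMap.trace_mul_comm k X, sub_self]
  let 𝔰 : Submodule k (Module.End k W) :=
    Submodule.span k {Z | ∃ A ∈ 𝔥, ∃ X ∈ 𝔯, Z = A * X - X * A}
  have hs𝔯 : 𝔰 ≤ 𝔯 := by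
    rw [Submodule.span_le]
    rintro _ ⟨X, hX, Y, hY, rfl⟩
    exact hrid X hX Y hY
  have hsnil : ∀ Z ∈ 𝔰, IsNilpotent Z := by
    intro Z hZ
    induction hZ using Submodule.span_induction with
    | mem Z hZ =>
      obtain ⟨A, hA, X, hX, rfl⟩ := hZ
      exact hnil1 A hA X hX
    | zero => exact IsNilpotent.zero
    | add a b ha' hb' ha hb =>
      exact Commute.isNilpotent_add (hab a (hs𝔯 ha') b (hs𝔯 hb')) ha hb
    | smul c a _ ha => exact ha.smul c
  have hsid : ∀ A ∈ 𝔥, ∀ Z ∈ 𝔰, A * Z - Z * A ∈ 𝔰 := fun A hA Z hZ =>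
    Submodule.subset_span ⟨A, hA, Z, hs𝔯 hZ, rfl⟩
  have hsconj : ConjG ρ 𝔰 := by
    intro s Z hZ
    induction hZ using Submodule.span_induction with
    | mem Z hZ =>
      obtain ⟨X, hX, Y, hY, rfl⟩ := hZ
      rw [hbrc]
      exact Submodule.subset_span ⟨_, hcj s X hX, _, hrconj s Y hY, rfl⟩
    | zero => rw [mul_zero, zero_mul]; exact Submodule.zero_mem _
    | add a b _ _ ha hb => rw [mul_add, add_mul]; exact Submodule.add_mem _ ha hb
    | smul c a _ ha => rw [mul_smul_comm, smul_mul_assoc]; exact Submodule.smul_mem _ _ ha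
  have hs0 := eq_zero_of_nilpotent 𝔥 𝔰 hss (hs𝔯.trans hr𝔥)
    (fun X hX Y hY => hsid X (hr𝔥 (hs𝔯 hX)) Y hY) hsid hsconj hsnil
  intro Y hY
  exact sub_eq_zero.1 (hs0 _ (Submodule.subset_span ⟨Y, hY, X, ⟨hX, htr⟩, rfl⟩))

end

end Pool.Agent.Y111.MM.CG
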