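import Mathlib
import Pool.Agent.Y111.MM.Defs

/-!
# Diagonal operators of a grading
-/

set_option linter.unusedSectionVars false

namespace Pool.Agent.Y111.MM

open DirectSum Module TensorProduct

section Diag

variable {K : Type} [Field K] {E : Type} [AddCommGroup E] [Module K E] {κ : Type} [DecidableEq κ]
  {M : κ → Submodule K E} (hM : DirectSum.IsInternal M)

/-- The operator which is the scalar `c i` on `M i`. -/
noncomputable def diag (c : κ → K) : Module.End K E :=
  (DirectSum.toModule K κ E (fun i => c i • (M i).subtype)) ∘ₗ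
    (LinearEquiv.ofBijective (DirectSum.coeLinearMap M) hM).symm.toLinearMap

theorem diag_apply (c : κ → K) {i : κ} {v : E} (hv : v ∈ M i) : diag hM c v = c i • v := by
  have h1 : (LinearEquiv.ofBijective (DirectSum.coeLinearMap M) hM).symm v =
      DirectSum.lof K κ (fun i => M i) i ⟨v, hv⟩ := by
    rw [LinearEquiv.symm_apply_eq]
    exact (DirectSum.coeLinearMap_lof M i (⟨v, hv⟩ : M i)).symm
  unfold diag
  rw [LinearMap.comp_apply, LinearEquiv.coe_coe, h1, DirectSum.toModule_lof]
  rfl

include hM in
theorem internal_induction {P : E → Prop} (h0 : P 0) (hadd : ∀ x y, P x → P y → P (x + y))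
    (hm : ∀ i, ∀ v ∈ M i, P v) (v : E) : P v := by
  have h1 : v ∈ ⨆ i, M i := by
    rw [hM.submodule_iSup_eq_top]
    trivial
  induction h1 using Submodule.iSup_induction' with
  | mem i x hx => exact hm i x hx
  | zero => exact h0
  | add x y _ _ hx hy => exact hadd x y hx hy

include hM in
theorem linearMap_ext_internal {F : Type*} [AddCommGroup F] [Module K F] {f g : E →ₗ[K] F}
    (h : ∀ i, ∀ v ∈ M i, f v = g v) : f = g := by
  ext v
  induction v using internal_induction hM with
  | h0 => simp
  | hadd x y hx hy => rw [map_add, map_add, hx, hy]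
  | hm i v hv => exact h i v hv

theorem diag_mul (c d : κ → K) : diag hM c * diag hM d = diag hM (fun i => c i * d i) := by
  apply linearMap_ext_internal hM
  intro i v hv
  rw [Module.End.mul_apply, diag_apply hM d hv, map_smul, diag_apply hM c hv, diag_apply hM _ hv,
    smul_smul, mul_comm]

theorem diag_one : diag hM (fun _ => (1 : K)) = 1 := by
  apply linearMap_ext_internal hM
  intro i v hv
  rw [diag_apply hM _ hv, one_smul, Module.End.one_apply]

/-- A basis of homogeneous vectors. -/
noncomputable def hbasis : Basis (Σ i, Basis.ofVectorSpaceIndex K (M i)) K E :=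
  hM.collectedBasis (fun i => Basis.ofVectorSpace K (M i))

theorem hbasis_mem (a : Σ i, Basis.ofVectorSpaceIndex K (M i)) : hbasis hM a ∈ M a.1 :=
  hM.collectedBasis_mem _ a

include hM in
theorem form_ext_internal {n : ℕ} {φ ψ : MultilinearMap K (fun _ : Fin n => E) K}
    (h : ∀ (t : Fin n → κ) (v : Fin n → E), (∀ i, v i ∈ M (t i)) → φ v = ψ v) : φ = ψ :=
  Basis.ext_multilinear (fun _ => hbasis hM) fun I =>
    h (fun i => (I i).1) _ fun i => hbasis_mem hM (I i)

/-- A form is annihilated by a diagonal operator if and only if it vanishes on the homogeneous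
vectors, for which the sum of the eigenvalues is not zero. -/
theorem annihilates_diag_iff (c : κ → K) {n : ℕ} (φ : MultilinearMap K (fun _ : Fin n => E) K) :
    Annihilates (diag hM c) φ ↔ ∀ (t : Fin n → κ) (v : Fin n → E), (∀ i, v i ∈ M (t i)) →
      ∑ i, c (t i) ≠ 0 → φ v = 0 := by
  classical
  have key : ∀ (t : Fin n → κ) (v : Fin n → E), (∀ i, v i ∈ M (t i)) →
      ∑ i, φ (Function.update v i (diag hM c (v i))) = (∑ i, c (t i)) * φ v := by
    intro t v hv
    rw [Finset.sum_mul]
    refine Finset.sum_congr rfl fun i _ => ?_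
    rw [diag_apply hM c (hv i), MultilinearMap.map_update_smul, Function.update_eq_self,
      smul_eq_mul]
  constructor
  · intro h t v hv hne
    have h1 := key t v hv
    rw [h v] at h1
    rcases mul_eq_zero.1 h1.symm with h2 | h2
    · exact absurd h2 hne
    · exact h2
  · intro h
    have h1 : (∑ i, φ.compLinearMap (fun j => if j = i then diag hM c else LinearMap.id)) = 0 := by
      apply form_ext_internal hM
      intro t v hv
      have h2 : (∑ i, φ.compLinearMap (fun j => if j = i then diag hM c else LinearMap.id)) v =
          ∑ i, φ (Function.update v i (diag hM c (v i))) := by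
        rw [_root_.sum_apply]
        refine Finset.sum_congr rfl fun i _ => ?_
        rw [MultilinearMap.compLinearMap_apply]
        congr 1
        funext j
        by_cases hj : j = i
        · subst hj
          rw [Function.update_self, if_pos rfl]
        · rw [Function.update_of_ne hj, if_neg hj]
          rfl
      rw [h2, key t v hv]
      by_cases hne : ∑ i, c (t i) = 0
      · rw [hne, zero_mul]
        rfl
      · rw [h t v hv hne, mul_zero]
        rfl
    intro v
    have h2 := congrArg (fun ψ : MultilinearMap K (fun _ : Fin n => E) K => ψ v) h1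
    simp only [_root_.sum_apply, MultilinearMap.compLinearMap_apply,
      _root_.zero_apply] at h2
    rw [← h2]
    refine Finset.sum_congr rfl fun i _ => ?_
    congr 1
    funext j
    by_cases hj : j = i
    · subst hj
      rw [Function.update_self, if_pos rfl]
    · rw [Function.update_of_ne hj, if_neg hj]
      rfl

/-- The projection. -/
noncomputable def pr (i : κ) : Module.End K E := diag hM (Pi.single i 1)

theorem pr_same {i : κ} {v : E} (hv : v ∈ M i) : pr hM i v = v := by
  rw [pr, diag_apply hM _ hv, Pi.single_eq_same, one_smul]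

theorem pr_ne {i j : κ} {v : E} (hv : v ∈ M i) (h : i ≠ j) : pr hM j v = 0 := by
  rw [pr, diag_apply hM _ hv, Pi.single_eq_of_ne h, zero_smul]

theorem pr_mem (i : κ) (v : E) : pr hM i v ∈ M i := by
  induction v using internal_induction hM with
  | h0 => rw [map_zero]; exact Submodule.zero_mem _
  | hadd x y hx hy => rw [map_add]; exact Submodule.add_mem _ hx hy
  | hm j v hv =>
    by_cases h : j = i
    · subst h
      rw [pr_same hM hv]
      exact hv
    · rw [pr_ne hM hv h]
      exact Submodule.zero_mem _

theorem mem_iff_pr (i : κ) (v : E) : v ∈ M i ↔ pr hM i v = v :=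
  ⟨fun h => pr_same hM h, fun h => h ▸ pr_mem hM i v⟩

/-- A vector is the sum of its components. -/
theorem exists_sum_pr (v : E) : ∃ s : Finset κ, v = ∑ i ∈ s, pr hM i v ∧ ∀ i, i ∉ s → pr hM i v = 0 := by
  induction v using internal_induction hM with
  | h0 => exact ⟨∅, by simp, fun i _ => map_zero _⟩
  | hadd x y hx hy =>
    obtain ⟨s, hs, hs'⟩ := hx
    obtain ⟨s', ht, ht'⟩ := hy
    refine ⟨s ∪ s', ?_, fun i hi => ?_⟩
    · simp only [map_add, Finset.sum_add_distrib]
      rw [← Finset.sum_subset Finset.subset_union_left (fun i _ hi => hs' i hi),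
        ← Finset.sum_subset Finset.subset_union_right (fun i _ hi => ht' i hi), ← hs, ← ht]
    · rw [Finset.mem_union, not_or] at hi
      rw [map_add, hs' i hi.1, ht' i hi.2, add_zero]
  | hm i v hv =>
    refine ⟨{i}, ?_, fun j hj => pr_ne hM hv (fun h => hj (by rw [h, Finset.mem_singleton]))⟩
    rw [Finset.sum_singleton, pr_same hM hv]

/-- An operator which respects the grading commutes with the diagonal operators. -/
theorem comm_diag {X : Module.End K E} (hX : ∀ i, ∀ v ∈ M i, X v ∈ M i) (c : κ → K) :
    X * diag hM c = diag hM c * X := by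
  apply linearMap_ext_internal hM
  intro i v hv
  rw [Module.End.mul_apply, Module.End.mul_apply, diag_apply hM c hv, diag_apply hM c (hX i v hv),
    map_smul]

theorem mem_of_comm_pr {X : Module.End K E} (hX : ∀ i, X * pr hM i = pr hM i * X) (i : κ) {v : E}
    (hv : v ∈ M i) : X v ∈ M i := by
  rw [mem_iff_pr hM]
  rw [← Module.End.mul_apply, ← hX i, Module.End.mul_apply, pr_same hM hv]

include hM in
theorem exists_hbasis [FiniteDimensional K E] :
    ∃ (m : ℕ) (b : Basis (Fin m) K E) (t : Fin m → κ), ∀ i, b i ∈ M (t i) := by
  classical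
  have : Fintype (Σ i, Basis.ofVectorSpaceIndex K (M i)) :=
    FiniteDimensional.fintypeBasisIndex (hbasis hM)
  let e := Fintype.equivFin (Σ i, Basis.ofVectorSpaceIndex K (M i))
  refine ⟨_, (hbasis hM).reindex e, fun i => (e.symm i).1, fun i => ?_⟩
  rw [Basis.reindex_apply]
  exact hbasis_mem hM _

include hM in
theorem exists_finset [FiniteDimensional K E] :
    ∃ s : Finset κ, ∀ v : E, ∑ i ∈ s, pr hM i v = v := by
  classical
  obtain ⟨m, b, t, hb⟩ := exists_hbasis hM
  refine ⟨Finset.univ.image t, fun v => ?_⟩
  have h1 : ∑ i ∈ Finset.univ.image t, pr hM i = LinearMap.id := by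
    refine b.ext fun j => ?_
    rw [LinearMap.sum_apply, Finset.sum_eq_single (t j), pr_same hM (hb j)]
    · rfl
    · intro i _ hi
      exact pr_ne hM (hb j) (fun h => hi h.symm)
    · intro h
      exact absurd (Finset.mem_image_of_mem t (Finset.mem_univ j)) h
  have h2 := congrArg (fun f : E →ₗ[K] E => f v) h1
  simpa using h2

end Diag

end Pool.Agent.Y111.MM
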