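import Mathlib
import Pool.Agent.Y111.MM.Diag
import Pool.Agent.W516.DRCoef
import Pool.Agent.W516.MT.Casimir2

/-!
# The Lie algebra of a class of forms, and extension of scalars
-/

set_option linter.unusedSectionVars false

namespace Pool.Agent.Y111.MM

open Module TensorProduct Pool.Agent.H204R3.SP Pool.Agent.W516.DR Pool.Agent.W516.KC
  Pool.Agent.W516.KC2

section LieOf

variable {F : Type} [Field F] {V : Type} [AddCommGroup V] [Module F V]

/-- A family of properties of forms. -/
abbrev Fam (F V : Type) [Field F] [AddCommGroup V] [Module F V] : Type :=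
  ∀ n : ℕ, MultilinearMap F (fun _ : Fin n => V) F → Prop

theorem annihilates_iff {n : ℕ} {X : Module.End F V} {φ : MultilinearMap F (fun _ : Fin n => V) F} :
    Annihilates X φ ↔ Kills X φ := Iff.rfl

theorem ann_zero {n : ℕ} (φ : MultilinearMap F (fun _ : Fin n => V) F) :
    Annihilates (0 : Module.End F V) φ := by
  intro v
  refine Finset.sum_eq_zero fun k _ => ?_
  rw [LinearMap.zero_apply]
  exact φ.map_coord_zero k (Function.update_self _ _ _)

theorem ann_add {n : ℕ} {φ : MultilinearMap F (fun _ : Fin n => V) F} {X Y : Module.End F V}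
    (hX : Annihilates X φ) (hY : Annihilates Y φ) : Annihilates (X + Y) φ := by
  intro v
  have h := congrArg₂ (fun x y : F => x + y) (hX v) (hY v)
  simp only [add_zero] at h
  rw [← h, ← Finset.sum_add_distrib]
  refine Finset.sum_congr rfl fun i _ => ?_
  rw [LinearMap.add_apply, MultilinearMap.map_update_add]

theorem ann_smul {n : ℕ} {φ : MultilinearMap F (fun _ : Fin n => V) F} {X : Module.End F V} (c : F)
    (hX : Annihilates X φ) : Annihilates (c • X) φ := by
  intro v
  rw [← mul_zero c, ← hX v, Finset.mul_sum]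
  refine Finset.sum_congr rfl fun i _ => ?_
  rw [LinearMap.smul_apply, MultilinearMap.map_update_smul, smul_eq_mul]

/-- The endomorphisms which annihilate the forms with the property `P`. -/
def lieOf (P : Fam F V) : Submodule F (Module.End F V) where
  carrier := {X | ∀ n φ, P n φ → Annihilates X φ}
  zero_mem' := fun _ φ _ => ann_zero φ
  add_mem' := fun hX hY n φ h => ann_add (hX n φ h) (hY n φ h)
  smul_mem' := fun c _ hX n φ h => ann_smul c (hX n φ h)

theorem mem_lieOf {P : Fam F V} {X : Module.End F V} :
    X ∈ lieOf P ↔ ∀ n φ, P n φ → Annihilates X φ := Iff.rfl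

theorem lieOf_bracket {P : Fam F V} {X Y : Module.End F V} (hX : X ∈ lieOf P) (hY : Y ∈ lieOf P) :
    X * Y - Y * X ∈ lieOf P := fun n φ h => kills_bracket (hX n φ h) (hY n φ h)

/-- The forms in two variables given by bilinear forms. -/
def bil (B : V →ₗ[F] V →ₗ[F] F) : MultilinearMap F (fun _ : Fin 2 => V) F where
  toFun v := B (v 0) (v 1)
  map_update_add' := by
    intro inst v i x y
    have hi : inst = instDecidableEqFin 2 := Subsingleton.elim _ _
    subst hi
    fin_cases i
    · simp [Function.update]
    · simp [Function.update]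
  map_update_smul' := by
    intro inst v i c x
    have hi : inst = instDecidableEqFin 2 := Subsingleton.elim _ _
    subst hi
    fin_cases i
    · simp [Function.update]
    · simp [Function.update]

theorem bil_apply (B : V →ₗ[F] V →ₗ[F] F) (v : Fin 2 → V) : bil B v = B (v 0) (v 1) := rfl

theorem ann_bil {B : V →ₗ[F] V →ₗ[F] F} {X : Module.End F V} :
    Annihilates X (bil B) ↔ ∀ u v, B (X u) v + B u (X v) = 0 := by
  constructor
  · intro h u v
    have h1 := h ![u, v]
    rw [Fin.sum_univ_two, bil_apply, bil_apply] at h1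
    simpa [Function.update] using h1
  · intro h v
    rw [Fin.sum_univ_two, bil_apply, bil_apply]
    have h1 := h (v 0) (v 1)
    simpa [Function.update] using h1

/-- An operator commutes with the skew operators which annihilate the associated form. -/
theorem ann_bil_comp {S : V →ₗ[F] V →ₗ[F] F} {X P : Module.End F V}
    (hX : ∀ u v, S (X u) v + S u (X v) = 0) (hnd : ∀ u, (∀ v, S u v = 0) → u = 0) :
    Annihilates X (bil (S.comp P)) ↔ X * P = P * X := by
  rw [ann_bil]
  constructor
  · intro h
    ext u
    rw [← sub_eq_zero]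
    apply hnd
    intro v
    have h1 := h u v
    have h2 := hX (P u) v
    rw [LinearMap.comp_apply, LinearMap.comp_apply] at h1
    rw [Module.End.mul_apply, Module.End.mul_apply, map_sub, LinearMap.sub_apply]
    linear_combination h2 - h1
  · intro h u v
    have h2 := hX (P u) v
    have h3 : P (X u) = X (P u) := by
      rw [← Module.End.mul_apply, ← h, Module.End.mul_apply]
    rw [LinearMap.comp_apply, LinearMap.comp_apply, h3]
    exact h2

/-- Reindexing. -/
theorem kills_reindex {κ κ' : Type*} [Fintype κ] [DecidableEq κ] [Fintype κ'] [DecidableEq κ']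
    (e : κ ≃ κ') (X : Module.End F V) (φ : MultilinearMap F (fun _ : κ => V) F) :
    Kills X (φ.domDomCongr e) ↔ Kills X φ := by
  have key : ∀ v : κ' → V, ∑ k, φ.domDomCongr e (Function.update v k (X (v k))) =
      ∑ k, φ (Function.update (fun i => v (e i)) k (X (v (e k)))) := by
    intro v
    rw [← e.sum_comp]
    refine Finset.sum_congr rfl fun k _ => ?_
    rw [MultilinearMap.domDomCongr_apply]
    congr 1
    funext i
    by_cases hi : i = k
    · subst hi
      rw [Function.update_self, Function.update_self]
    · rw [Function.update_of_ne hi, Function.update_of_ne (fun h => hi (e.injective h))]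
  constructor
  · intro h v
    have h1 := h (fun i => v (e.symm i))
    rw [key] at h1
    simpa using h1
  · intro h v
    rw [key]
    exact h (fun i => v (e i))

end LieOf

section Ext

variable {F : Type} [Field F] [CharZero F] {V : Type} [AddCommGroup V] [Module F V]
  [FiniteDimensional F V] (K : Type) [Field K] [CharZero K] [Algebra F K]

/-- The extension of a form. -/
noncomputable def ext {n : ℕ} (ψ : MultilinearMap F (fun _ : Fin n => V) F) :
    MultilinearMap K (fun _ : Fin n => K ⊗[F] V) K := bcm (Ω := K) (Module.finBasis F V) ψ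

theorem ext_extends {n : ℕ} (ψ : MultilinearMap F (fun _ : Fin n => V) F) :
    Extends K (ext K ψ) ψ := fun v => bcm_one (Module.finBasis F V) ψ v

variable {K}

theorem Extends.unique {n : ℕ} {φ φ' : MultilinearMap K (fun _ : Fin n => K ⊗[F] V) K}
    {ψ : MultilinearMap F (fun _ : Fin n => V) F} (h : Extends K φ ψ) (h' : Extends K φ' ψ) :
    φ = φ' := by
  refine Basis.ext_multilinear (fun _ => (Module.finBasis F V).baseChange K) fun I => ?_
  have h2 : (fun l => (Module.finBasis F V).baseChange K (I l)) =
      fun l => (1 : K) ⊗ₜ[F] (Module.finBasis F V) (I l) := by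
    funext l
    rw [Basis.baseChange_apply]
  rw [h2, h, h']

theorem Extends.eq_ext {n : ℕ} {φ : MultilinearMap K (fun _ : Fin n => K ⊗[F] V) K}
    {ψ : MultilinearMap F (fun _ : Fin n => V) F} (h : Extends K φ ψ) : φ = ext K ψ :=
  h.unique (ext_extends K ψ)

theorem ann_ext_iff {n : ℕ} {φ : MultilinearMap K (fun _ : Fin n => K ⊗[F] V) K}
    {ψ : MultilinearMap F (fun _ : Fin n => V) F} (h : Extends K φ ψ)
    (Z : Module.End K (K ⊗[F] V)) :
    Annihilates Z φ ↔ ∀ lam : K →ₗ[F] F, Annihilates (cmpE lam Z) ψ := by
  rw [h.eq_ext]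
  exact kills_bcm_iff (L := K) (Module.finBasis F V) ψ Z

theorem mem_extEnd_iff (P : Fam F V) (Z : Module.End K (K ⊗[F] V)) :
    Z ∈ extEnd K (fun X => X ∈ lieOf P) ↔
      ∀ n ψ, P n ψ → ∀ φ, Extends K φ ψ → Annihilates Z φ := by
  constructor
  · intro h n ψ hψ φ hφ
    rw [ann_ext_iff hφ]
    intro lam
    exact cmp_of_ext _ h lam n ψ hψ
  · intro h
    apply end_mem_span
    intro lam n ψ hψ
    exact (ann_ext_iff (ext_extends K ψ) Z).1 (h n ψ hψ _ (ext_extends K ψ)) lam

/-- The forms annihilated by an extended Lie algebra are the combinations of the forms annihilated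
by the Lie algebra. -/
theorem ann_ext_forms (P : Fam F V) {n : ℕ} {φ : MultilinearMap K (fun _ : Fin n => K ⊗[F] V) K}
    (h : ∀ Z ∈ extEnd K (fun X => X ∈ lieOf P), Annihilates Z φ) :
    φ ∈ combos K (fun ψ => ∀ X ∈ lieOf P, Annihilates X ψ) := by
  apply form_mem_span
  intro lam X hX
  exact kills_fcmp lam φ X (h _ (Submodule.subset_span ⟨X, hX, rfl⟩))

/-- The combinations of the forms annihilated by the Lie algebra are annihilated. -/
theorem ann_of_combos {n : ℕ} {P : MultilinearMap F (fun _ : Fin n => V) F → Prop}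
    {φ : MultilinearMap K (fun _ : Fin n => K ⊗[F] V) K} (h : φ ∈ combos K P)
    {Z : Module.End K (K ⊗[F] V)}
    (hZ : ∀ ψ, P ψ → ∀ φ, Extends K φ ψ → Annihilates Z φ) : Annihilates Z φ := by
  unfold combos at h
  induction h using Submodule.span_induction with
  | mem φ h =>
    obtain ⟨ψ, h1, h2⟩ := h
    exact hZ ψ h1 φ h2
  | zero =>
    intro v
    exact Finset.sum_eq_zero fun _ _ => rfl
  | add a b _ _ ha hb =>
    intro v
    have h3 := congrArg₂ (fun x y : K => x + y) (ha v) (hb v)
    simp only [add_zero] at h3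
    rw [← h3, ← Finset.sum_add_distrib]
    rfl
  | smul c a _ ha =>
    intro v
    rw [← mul_zero c, ← ha v, Finset.mul_sum]
    rfl

theorem combos_mono {n : ℕ} {P Q : MultilinearMap F (fun _ : Fin n => V) F → Prop}
    (h : ∀ ψ, P ψ → Q ψ) : combos K P ≤ combos K Q :=
  Submodule.span_mono fun _ ⟨ψ, h1, h2⟩ => ⟨ψ, h ψ h1, h2⟩

theorem trace_ext {S : Module.End F V → Prop} {X : Module.End F V}
    (h : ∀ Y, S Y → LinearMap.trace F V (X * Y) = 0) {Z : Module.End K (K ⊗[F] V)}
    (hZ : Z ∈ extEnd K S) : LinearMap.trace K (K ⊗[F] V) (X.baseChange K * Z) = 0 := by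
  unfold extEnd at hZ
  induction hZ using Submodule.span_induction with
  | mem Z hZ =>
    obtain ⟨Y, hY, rfl⟩ := hZ
    have h1 : X.baseChange K * Y.baseChange K = (X * Y).baseChange K := by
      rw [Module.End.mul_eq_comp, Module.End.mul_eq_comp, LinearMap.baseChange_comp]
    rw [h1, LinearMap.trace_baseChange, h Y hY, map_zero]
  | zero => rw [mul_zero, map_zero]
  | add a b _ _ ha hb => rw [mul_add, map_add, ha, hb, add_zero]
  | smul c a _ ha => rw [mul_smul_comm, map_smul, ha, smul_zero]

/-- The extension of a bilinear form. -/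
theorem extends_bil (B : V →ₗ[F] V →ₗ[F] F) :
    Extends K (bil (LinearMap.BilinForm.baseChange K B)) (bil B) := by
  intro v
  rw [bil_apply, bil_apply, LinearMap.BilinForm.baseChange_tmul]
  simp [Algebra.algebraMap_eq_smul_one]

end Ext

end Pool.Agent.Y111.MM
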