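import Mathlib
import Pool.Agent.Y111.MM.LieOf

/-!
# The Hodge side
-/

set_option linter.unusedSectionVars false

namespace Pool.Agent.Y111.MM

open Module TensorProduct Pool.Agent.H204R3.SP Pool.Agent.W516.DR Pool.Agent.W516.KC
  Pool.Agent.W516.KC2

section Conj

variable {V : Type} [AddCommGroup V] [Module ℚ V]

theorem conj_tmul (c : ℂ) (v : V) : conj V (c ⊗ₜ[ℚ] v) = (starRingEnd ℂ c) ⊗ₜ[ℚ] v := rfl

theorem conj_smul (c : ℂ) (x : ℂ ⊗[ℚ] V) : conj V (c • x) = (starRingEnd ℂ c) • conj V x := by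
  induction x with
  | zero => simp
  | add x y hx hy => rw [smul_add, map_add, hx, hy, map_add, smul_add]
  | tmul a v => rw [smul_tmul', conj_tmul, conj_tmul, smul_tmul', smul_eq_mul, smul_eq_mul, map_mul]

theorem conj_conj (x : ℂ ⊗[ℚ] V) : conj V (conj V x) = x := by
  induction x with
  | zero => simp
  | add x y hx hy => rw [map_add, map_add, hx, hy]
  | tmul a v => rw [conj_tmul, conj_tmul, Complex.conj_conj]

theorem conj_form (B : V →ₗ[ℚ] V →ₗ[ℚ] ℚ) (x y : ℂ ⊗[ℚ] V) :
    LinearMap.BilinForm.baseChange ℂ B (conj V x) (conj V y) =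
      starRingEnd ℂ (LinearMap.BilinForm.baseChange ℂ B x y) := by
  induction x with
  | zero => rw [map_zero, map_zero, LinearMap.zero_apply, LinearMap.zero_apply, map_zero]
  | add x x' hx hx' => simp only [map_add, LinearMap.add_apply, hx, hx']
  | tmul a v =>
    induction y with
    | zero => rw [map_zero, map_zero, map_zero, map_zero]
    | add y y' hy hy' => simp only [map_add, hy, hy']
    | tmul b w =>
      rw [conj_tmul, conj_tmul, LinearMap.BilinForm.baseChange_tmul,
        LinearMap.BilinForm.baseChange_tmul, Algebra.smul_def, Algebra.smul_def, map_mul, map_mul]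
      congr 1
      simp

theorem conj_baseChange (X : Module.End ℚ V) (x : ℂ ⊗[ℚ] V) :
    conj V (X.baseChange ℂ x) = X.baseChange ℂ (conj V x) := by
  induction x with
  | zero => simp
  | add x y hx hy => simp only [map_add, hx, hy]
  | tmul a v =>
    rw [conj_tmul, LinearMap.baseChange_tmul, LinearMap.baseChange_tmul, conj_tmul]

end Conj

section Hodge

variable {V : Type} [AddCommGroup V] [Module ℚ V] (H : PolarizedHodge V)

/-- The complex extension of the polarization. -/
noncomputable abbrev Sc : LinearMap.BilinForm ℂ (ℂ ⊗[ℚ] V) := LinearMap.BilinForm.baseChange ℂ H.S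

/-- The operator with eigenvalue `p - q` on the part of type `(p, q)`. -/
noncomputable def opD : Module.End ℂ (ℂ ⊗[ℚ] V) :=
  diag H.hdg_internal (fun t => ((t.1 : ℂ) - (t.2 : ℂ)))

/-- The Weil operator. -/
noncomputable def opC : Module.End ℂ (ℂ ⊗[ℚ] V) :=
  diag H.hdg_internal (fun t => Complex.I ^ (t.1 - t.2))

/-- Its inverse. -/
noncomputable def opC' : Module.End ℂ (ℂ ⊗[ℚ] V) :=
  diag H.hdg_internal (fun t => Complex.I ^ (t.2 - t.1))

theorem opC_mul : opC H * opC' H = 1 := by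
  unfold opC opC'
  rw [diag_mul, ← diag_one H.hdg_internal]
  congr 1
  funext t
  rw [← zpow_add₀ Complex.I_ne_zero]
  simp

theorem opC'_mul : opC' H * opC H = 1 := by
  unfold opC opC'
  rw [diag_mul, ← diag_one H.hdg_internal]
  congr 1
  funext t
  rw [← zpow_add₀ Complex.I_ne_zero]
  simp

theorem conj_I_zpow (n : ℤ) : starRingEnd ℂ (Complex.I ^ n) = Complex.I ^ (-n) := by
  rw [map_zpow₀, Complex.conj_I, zpow_neg, ← inv_zpow, Complex.inv_I]

theorem conj_opC (x : ℂ ⊗[ℚ] V) : conj V (opC H x) = opC H (conj V x) := by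
  induction x using internal_induction H.hdg_internal with
  | h0 => simp
  | hadd x y hx hy => simp only [map_add, hx, hy]
  | hm t v hv =>
    obtain ⟨p, q⟩ := t
    have h1 := H.conj_mem p q v hv
    unfold opC
    rw [diag_apply _ _ hv, conj_smul, diag_apply _ _ h1, conj_I_zpow]
    congr 2
    ring

theorem conj_opC' (x : ℂ ⊗[ℚ] V) : conj V (opC' H x) = opC' H (conj V x) := by
  induction x using internal_induction H.hdg_internal with
  | h0 => simp
  | hadd x y hx hy => simp only [map_add, hx, hy]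
  | hm t v hv =>
    obtain ⟨p, q⟩ := t
    have h1 := H.conj_mem p q v hv
    unfold opC'
    rw [diag_apply _ _ hv, conj_smul, diag_apply _ _ h1, conj_I_zpow]
    congr 2
    ring

/-- Two bilinear forms which agree on homogeneous vectors are equal. -/
theorem bilin_ext_hdg {B B' : ℂ ⊗[ℚ] V →ₗ[ℂ] ℂ ⊗[ℚ] V →ₗ[ℂ] ℂ}
    (h : ∀ t t', ∀ u ∈ H.hdg t, ∀ v ∈ H.hdg t', B u v = B' u v) : B = B' := by
  apply linearMap_ext_internal H.hdg_internal
  intro t u hu
  apply linearMap_ext_internal H.hdg_internal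
  intro t' v hv
  exact h t t' u hu v hv

theorem Sc_opC (x y : ℂ ⊗[ℚ] V) : Sc H (opC H x) (opC H y) = Sc H x y := by
  have h1 : LinearMap.compl₂ (LinearMap.comp (Sc H) (opC H)) (opC H) = Sc H := by
    apply bilin_ext_hdg H
    rintro ⟨p, q⟩ ⟨p', q'⟩ u hu v hv
    rw [LinearMap.compl₂_apply, LinearMap.comp_apply]
    unfold opC
    rw [diag_apply _ _ hu, diag_apply _ _ hv, map_smul, map_smul, LinearMap.smul_apply, smul_smul]
    by_cases h : (p', q') = (q, p)
    · obtain ⟨rfl, rfl⟩ := Prod.ext_iff.1 h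
      simp only
      rw [← zpow_add₀ Complex.I_ne_zero]
      simp
    · rw [H.orth p q p' q' h u hu v hv, smul_zero]
  exact congrArg (fun B : ℂ ⊗[ℚ] V →ₗ[ℂ] ℂ ⊗[ℚ] V →ₗ[ℂ] ℂ => B x y) h1

/-- The positivity. -/
theorem Sc_pos (x : ℂ ⊗[ℚ] V) : ∃ r : ℝ, 0 ≤ r ∧ Sc H (opC H x) (conj V x) = r ∧
    (r = 0 → x = 0) := by
  classical
  obtain ⟨s, hs, -⟩ := exists_sum_pr H.hdg_internal x
  have h1 : ∀ t : ℤ × ℤ, ∃ r : ℝ, 0 ≤ r ∧
      Sc H (opC H (pr H.hdg_internal t x)) (conj V (pr H.hdg_internal t x)) = r ∧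
      (r = 0 → pr H.hdg_internal t x = 0) := by
    rintro ⟨p, q⟩
    have hm := pr_mem H.hdg_internal (p, q) x
    by_cases h0 : pr H.hdg_internal (p, q) x = 0
    · refine ⟨0, le_rfl, ?_, fun _ => h0⟩
      rw [h0, map_zero, map_zero, LinearMap.zero_apply, Complex.ofReal_zero]
    · obtain ⟨r, hr, hr'⟩ := H.pos p q _ hm h0
      refine ⟨r, hr.le, ?_, fun h => absurd h hr.ne'⟩
      rw [← hr']
      unfold opC
      rw [diag_apply _ _ hm, map_smul, LinearMap.smul_apply, smul_eq_mul]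
  choose r hr0 hr1 hr2 using h1
  refine ⟨∑ t ∈ s, r t, Finset.sum_nonneg fun t _ => hr0 t, ?_, fun h => ?_⟩
  · conv_lhs => rw [hs]
    rw [map_sum, map_sum, map_sum, Complex.ofReal_sum, LinearMap.sum_apply]
    refine Finset.sum_congr rfl fun t ht => ?_
    rw [map_sum, Finset.sum_eq_single t]
    · exact hr1 t
    · rintro ⟨p', q'⟩ _ hne
      obtain ⟨p, q⟩ := t
      have hm := pr_mem H.hdg_internal (p, q) x
      have hm' := H.conj_mem p' q' _ (pr_mem H.hdg_internal (p', q') x)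
      unfold opC
      rw [diag_apply _ _ hm, map_smul, LinearMap.smul_apply, H.orth p q q' p' ?_ _ hm _ hm',
        smul_zero]
      intro h
      apply hne
      obtain ⟨rfl, rfl⟩ := Prod.ext_iff.1 h
      rfl
    · intro h
      exact absurd ht h
  · rw [Finset.sum_eq_zero_iff_of_nonneg fun t _ => hr0 t] at h
    rw [hs]
    exact Finset.sum_eq_zero fun t ht => hr2 t (h t ht)

/-- The weights, over an extension of the field of rational numbers. -/
theorem wtK (K : Type) [Field K] [CharZero K] :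
    DirectSum.IsInternal (fun w => (H.wt w).baseChange K) := H.wt_internal.baseChange

/-- The projection to the part of weight `w` in terms of the Hodge decomposition. -/
theorem pr_wt (w : ℤ) : pr (wtK H ℂ) w =
    diag H.hdg_internal (fun t => if t.1 + t.2 = w then 1 else 0) := by
  apply linearMap_ext_internal H.hdg_internal
  rintro ⟨p, q⟩ u hu
  have h1 := H.hdg_le p q hu
  rw [diag_apply _ _ hu]
  by_cases h : p + q = w
  · subst h
    rw [pr_same (wtK H ℂ) h1]
    simp
  · rw [pr_ne (wtK H ℂ) h1 h]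
    simp [h]

theorem Sc_orth {w w' : ℤ} (hw : w ≠ w') {u v : ℂ ⊗[ℚ] V} (hu : u ∈ (H.wt w).baseChange ℂ)
    (hv : v ∈ (H.wt w').baseChange ℂ) : Sc H u v = 0 := by
  have h1 : LinearMap.compl₂ (LinearMap.comp (Sc H) (pr (wtK H ℂ) w)) (pr (wtK H ℂ) w') = 0 := by
    apply bilin_ext_hdg H
    rintro ⟨p, q⟩ ⟨p', q'⟩ x hx y hy
    rw [LinearMap.compl₂_apply, LinearMap.comp_apply, pr_wt, pr_wt, diag_apply _ _ hx,
      diag_apply _ _ hy]
    by_cases h : (p', q') = (q, p)
    · have hp : p' = q := (Prod.ext_iff.1 h).1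
      have hq : q' = p := (Prod.ext_iff.1 h).2
      by_cases h2 : p + q = w
      · have h3 : ¬ p' + q' = w' := fun h => hw (by rw [← h, ← h2, hp, hq, add_comm])
        simp [h3]
      · simp [h2]
    · rw [map_smul, map_smul, LinearMap.smul_apply, H.orth p q p' q' h x hx y hy, smul_zero,
        smul_zero]
      rfl
  have h2 := congrArg (fun B : ℂ ⊗[ℚ] V →ₗ[ℂ] ℂ ⊗[ℚ] V →ₗ[ℂ] ℂ => B u v) h1
  simp only [LinearMap.compl₂_apply, LinearMap.comp_apply] at h2
  rw [pr_same (wtK H ℂ) hu, pr_same (wtK H ℂ) hv] at h2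
  exact h2

theorem one_tmul_mem {K : Type} [Field K] [CharZero K] {w : ℤ} {u : V} (hu : u ∈ H.wt w) :
    (1 : K) ⊗ₜ[ℚ] u ∈ (H.wt w).baseChange K :=
  Submodule.tmul_mem_baseChange_of_mem 1 hu

/-- The scalar extension of a bilinear form on rational vectors. -/
theorem ext_one {K : Type} [Field K] [CharZero K] (B : V →ₗ[ℚ] V →ₗ[ℚ] ℚ) (u v : V) :
    LinearMap.BilinForm.baseChange K B ((1 : K) ⊗ₜ[ℚ] u) ((1 : K) ⊗ₜ[ℚ] v) =
      algebraMap ℚ K (B u v) := by
  rw [LinearMap.BilinForm.baseChange_tmul]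
  simp [Algebra.algebraMap_eq_smul_one]

theorem S_orth {w w' : ℤ} (hw : w ≠ w') {u v : V} (hu : u ∈ H.wt w) (hv : v ∈ H.wt w') :
    H.S u v = 0 := by
  have h1 := Sc_orth H hw (one_tmul_mem H hu) (one_tmul_mem H hv)
  rw [ext_one] at h1
  exact (map_eq_zero (algebraMap ℚ ℂ)).1 h1

/-- An identity on the part of weight `w` can be checked on rational vectors. -/
theorem wt_induction {K : Type} [Field K] [CharZero K] {w : ℤ} {P : K ⊗[ℚ] V → Prop}
    (h1 : ∀ u ∈ H.wt w, P ((1 : K) ⊗ₜ[ℚ] u)) (h0 : P 0) (hadd : ∀ x y, P x → P y → P (x + y))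
    (hsmul : ∀ (c : K) x, P x → P (c • x)) {x : K ⊗[ℚ] V} (hx : x ∈ (H.wt w).baseChange K) :
    P x := by
  rw [Submodule.baseChange_eq_span] at hx
  induction hx using Submodule.span_induction with
  | mem x hx =>
    obtain ⟨u, hu, rfl⟩ := hx
    exact h1 u hu
  | zero => exact h0
  | add x y _ _ hx hy => exact hadd x y hx hy
  | smul c x _ hx => exact hsmul c x hx

/-- The polarization over `K`. -/
noncomputable abbrev SK (K : Type) [Field K] [CharZero K] : LinearMap.BilinForm K (K ⊗[ℚ] V) :=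
  LinearMap.BilinForm.baseChange K H.S

theorem SK_orth {K : Type} [Field K] [CharZero K] {w w' : ℤ} (hw : w ≠ w') {u v : K ⊗[ℚ] V}
    (hu : u ∈ (H.wt w).baseChange K) (hv : v ∈ (H.wt w').baseChange K) : SK H K u v = 0 := by
  refine wt_induction H (P := fun x => SK H K x v = 0) (fun u hu => ?_) ?_ ?_ ?_ hu
  · refine wt_induction H (P := fun x => SK H K ((1 : K) ⊗ₜ[ℚ] u) x = 0) (fun v hv => ?_) ?_ ?_ ?_ hv
    · rw [ext_one, S_orth H hw hu hv, map_zero]
    · exact map_zero _
    · intro x y hx hy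
      rw [map_add, hx, hy, add_zero]
    · intro c x hx
      rw [map_smul, hx, smul_zero]
  · rw [map_zero, LinearMap.zero_apply]
  · intro x y hx hy
    rw [map_add, LinearMap.add_apply, hx, hy, add_zero]
  · intro c x hx
    rw [map_smul, LinearMap.smul_apply, hx, smul_zero]

theorem SK_symm {K : Type} [Field K] [CharZero K] {w : ℤ} {u v : K ⊗[ℚ] V}
    (hu : u ∈ (H.wt w).baseChange K) (hv : v ∈ (H.wt w).baseChange K) :
    SK H K v u = (-1) ^ w * SK H K u v := by
  refine wt_induction H (P := fun x => SK H K v x = (-1) ^ w * SK H K x v) (fun u hu => ?_) ?_ ?_ ?_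
    hu
  · refine wt_induction H (P := fun x => SK H K x ((1 : K) ⊗ₜ[ℚ] u) =
      (-1) ^ w * SK H K ((1 : K) ⊗ₜ[ℚ] u) x) (fun v hv => ?_) ?_ ?_ ?_ hv
    · rw [ext_one, ext_one, H.symm w u hu v hv, map_mul, map_zpow₀]
      simp
    · rw [map_zero, map_zero, LinearMap.zero_apply, mul_zero]
    · intro x y hx hy
      rw [map_add, LinearMap.add_apply, hx, hy, map_add, mul_add]
    · intro c x hx
      rw [map_smul, LinearMap.smul_apply, hx, map_smul, smul_eq_mul, smul_eq_mul]
      ring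
  · rw [map_zero, map_zero, LinearMap.zero_apply, mul_zero]
  · intro x y hx hy
    rw [map_add, hx, hy, map_add, LinearMap.add_apply, mul_add]
  · intro c x hx
    rw [map_smul, hx, map_smul, LinearMap.smul_apply, smul_eq_mul, smul_eq_mul]
    ring

theorem Sc_nondeg {u : ℂ ⊗[ℚ] V} (h : ∀ v, Sc H u v = 0) : u = 0 := by
  obtain ⟨r, -, hr, hr0⟩ := Sc_pos H u
  apply hr0
  have h1 := Sc_opC H u (opC' H (conj V u))
  rw [h, ← Module.End.mul_apply, opC_mul, Module.End.one_apply, hr] at h1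
  exact_mod_cast h1

/-- A functional. -/
theorem exists_functional (K : Type) [Field K] [CharZero K] : ∃ lam : K →ₗ[ℚ] ℚ, lam 1 = 1 := by
  obtain ⟨π, hπ⟩ := LinearMap.exists_leftInverse_of_injective
    ((Algebra.linearMap ℚ K)) (LinearMap.ker_eq_bot.2 (algebraMap ℚ K).injective)
  refine ⟨π, ?_⟩
  have h3 := LinearMap.congr_fun hπ 1
  rw [LinearMap.comp_apply, Algebra.linearMap_apply, LinearMap.id_apply, map_one] at h3
  exact h3

theorem one_tmul_eq_zero [FiniteDimensional ℚ V] {K : Type} [Field K] [CharZero K] {u : V}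
    (h : (1 : K) ⊗ₜ[ℚ] u = 0) : u = 0 := by
  obtain ⟨lam, hlam⟩ := exists_functional K
  have h1 := cmp_tmul lam 1 u
  rw [h, map_zero, hlam, one_smul] at h1
  exact h1.symm

theorem S_nondeg [FiniteDimensional ℚ V] {u : V} (h : ∀ v, H.S u v = 0) : u = 0 := by
  apply one_tmul_eq_zero (K := ℂ)
  apply Sc_nondeg H
  intro v
  induction v with
  | zero => exact map_zero _
  | add x y hx hy => rw [map_add, hx, hy, add_zero]
  | tmul c v =>
    rw [LinearMap.BilinForm.baseChange_tmul, h, zero_smul]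

theorem SK_nondeg [FiniteDimensional ℚ V] {K : Type} [Field K] [CharZero K] (u : K ⊗[ℚ] V)
    (h : ∀ v, SK H K u v = 0) : u = 0 :=
  nondeg_ext H.S (SK H K) (fun u v => ext_one H.S u v) (fun _ h => S_nondeg H h) u h

end Hodge

end Pool.Agent.Y111.MM
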