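import Mathlib
import Pool.Agent.Y111.MM.Hodge

/-!
# The Lie algebra of the Mumford-Tate group: the trace form
-/

set_option linter.unusedSectionVars false

namespace Pool.Agent.Y111.MM

open Module TensorProduct Pool.Agent.H204R3.SP Pool.Agent.W516.DR Pool.Agent.W516.KC
  Pool.Agent.W516.KC2

/-- The trace of `B * A`, where `B` is the adjoint of `A`. -/
theorem eq_zero_of_trace_adjoint {E : Type} [AddCommGroup E] [Module ℂ E] [FiniteDimensional ℂ E]
    (c : InnerProductSpace.Core ℂ E) {A B : Module.End ℂ E}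
    (h : ∀ u v, c.inner (B u) v = c.inner u (A v)) (htr : LinearMap.trace ℂ E (B * A) = 0) :
    A = 0 := by
  let _ : NormedAddCommGroup E := c.toNormedAddCommGroup
  let _ : InnerProductSpace ℂ E := InnerProductSpace.ofCore c.toCore
  have hin : ∀ u v : E, inner ℂ u v = c.inner u v := fun _ _ => rfl
  let b := stdOrthonormalBasis ℂ E
  have h1 : LinearMap.trace ℂ E (B * A) = ∑ i, inner ℂ (A (b i)) (A (b i)) := by
    rw [LinearMap.trace_eq_sum_inner (B * A) b]
    refine Finset.sum_congr rfl fun i _ => ?_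
    rw [Module.End.mul_apply]
    have h2 := h (A (b i)) (b i)
    rw [← hin, ← hin] at h2
    rw [← inner_conj_symm, h2, inner_conj_symm]
  have h2 : ∑ i, ‖A (b i)‖ ^ 2 = 0 := by
    have h3 : ∑ i, (inner ℂ (A (b i)) (A (b i)) : ℂ) = ((∑ i, ‖A (b i)‖ ^ 2 : ℝ) : ℂ) := by
      rw [Complex.ofReal_sum]
      refine Finset.sum_congr rfl fun i _ => ?_
      rw [inner_self_eq_norm_sq_to_K]
      simp
    rw [h1, h3] at htr
    exact_mod_cast htr
  rw [Finset.sum_eq_zero_iff_of_nonneg fun i _ => by positivity] at h2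
  refine b.toBasis.ext fun i => ?_
  have h3 := h2 i (Finset.mem_univ i)
  rw [LinearMap.zero_apply, OrthonormalBasis.coe_toBasis]
  exact norm_eq_zero.1 (pow_eq_zero_iff (two_ne_zero) |>.1 h3)

section Hodge

variable {V : Type} [AddCommGroup V] [Module ℚ V] (H : PolarizedHodge V)

theorem Sc_symm (x y : ℂ ⊗[ℚ] V) : Sc H (opC H y) (conj V x) = Sc H (opC H (conj V x)) y := by
  have h1 : LinearMap.comp (Sc H) (opC H) = LinearMap.flip (LinearMap.comp (Sc H) (opC H)) := by
    apply bilin_ext_hdg H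
    rintro ⟨p, q⟩ ⟨p', q'⟩ u hu v hv
    rw [LinearMap.flip_apply, LinearMap.comp_apply, LinearMap.comp_apply]
    unfold opC
    rw [diag_apply _ _ hu, diag_apply _ _ hv, map_smul, map_smul, LinearMap.smul_apply,
      LinearMap.smul_apply]
    by_cases h : (p', q') = (q, p)
    · have hp : p' = q := (Prod.ext_iff.1 h).1
      have hq : q' = p := (Prod.ext_iff.1 h).2
      subst hp hq
      have hu' := H.hdg_le _ _ hu
      have hv' := H.hdg_le _ _ hv
      rw [add_comm] at hv'
      have h2 := SK_symm H hu' hv'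
      rw [h2, smul_eq_mul, smul_eq_mul, ← mul_assoc]
      congr 1
      simp only
      have h3 : ((-1 : ℂ)) ^ (q' + p') = Complex.I ^ (2 * (q' - p')) := by
        rw [zpow_mul]
        have h4 : Complex.I ^ (2 : ℤ) = -1 := by
          rw [show (2 : ℤ) = ((2 : ℕ) : ℤ) from rfl, zpow_natCast, Complex.I_sq]
        rw [h4]
        have h5 : q' + p' = (q' - p') + 2 * p' := by ring
        rw [h5, zpow_add₀ (by norm_num), zpow_mul]
        norm_num
      rw [h3, ← zpow_add₀ Complex.I_ne_zero]
      congr 1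
      ring
    · have h' : (p, q) ≠ (q', p') := by
        intro h2
        apply h
        have a1 : p = q' := (Prod.ext_iff.1 h2).1
        have a2 : q = p' := (Prod.ext_iff.1 h2).2
        rw [a1, a2]
      rw [H.orth p q p' q' h u hu v hv, H.orth p' q' p q h' v hv u hu, smul_zero, smul_zero]
  exact congrArg (fun B : ℂ ⊗[ℚ] V →ₗ[ℂ] ℂ ⊗[ℚ] V →ₗ[ℂ] ℂ => B y (conj V x)) h1

/-- The inner product given by the polarization. -/

noncomputable def core : InnerProductSpace.Core ℂ (ℂ ⊗[ℚ] V) where
  inner x y := Sc H (opC H y) (conj V x)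
  conj_inner_symm x y := by
    rw [← conj_form, conj_conj, conj_opC]
    exact (Sc_symm H x y).symm
  re_inner_nonneg x := by
    obtain ⟨r, hr, hr1, -⟩ := Sc_pos H x
    rw [hr1]
    exact hr
  add_left x y z := by
    rw [map_add, map_add]
  smul_left x y r := by
    rw [conj_smul, map_smul, smul_eq_mul]
  definite x hx := by
    obtain ⟨r, -, hr1, hr2⟩ := Sc_pos H x
    rw [hr1] at hx
    exact hr2 (by exact_mod_cast hx)

/-- The positivity of the trace form. -/
theorem eq_zero_of_trace_opC [FiniteDimensional ℚ V] {X : Module.End ℚ V}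
    (hX : ∀ u v, H.S (X u) v + H.S u (X v) = 0)
    (htr : LinearMap.trace ℂ (ℂ ⊗[ℚ] V) (X.baseChange ℂ * (opC H * X.baseChange ℂ * opC' H)) = 0) :
    X = 0 := by
  have hXc : ∀ u v, Sc H (X.baseChange ℂ u) v + Sc H u (X.baseChange ℂ v) = 0 :=
    skew_ext H.S (Sc H) (fun u v => ext_one H.S u v) hX
  have h1 : X.baseChange ℂ = 0 := by
    refine eq_zero_of_trace_adjoint (core H) (A := X.baseChange ℂ)
      (B := -(opC H * X.baseChange ℂ * opC' H)) (fun u v => ?_) ?_
    · change Sc H (opC H v) (conj V ((-(opC H * X.baseChange ℂ * opC' H)) u)) =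
        Sc H (opC H (X.baseChange ℂ v)) (conj V u)
      rw [LinearMap.neg_apply, map_neg, map_neg, Module.End.mul_apply, Module.End.mul_apply,
        conj_opC, conj_baseChange, conj_opC', Sc_opC]
      have h2 := hXc v (opC' H (conj V u))
      have h3 := Sc_opC H (X.baseChange ℂ v) (opC' H (conj V u))
      have h4 : opC H (opC' H (conj V u)) = conj V u := by
        rw [← Module.End.mul_apply, opC_mul, Module.End.one_apply]
      rw [h4] at h3
      rw [h3]
      linear_combination -h2
    · rw [LinearMap.trace_mul_comm, Module.End.mul_eq_comp, LinearMap.comp_neg, map_neg,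
        ← Module.End.mul_eq_comp, htr, neg_zero]
  ext u
  have h2 := congrArg (fun Y : Module.End ℂ (ℂ ⊗[ℚ] V) => Y ((1 : ℂ) ⊗ₜ[ℚ] u)) h1
  simp only [LinearMap.baseChange_tmul, LinearMap.zero_apply] at h2
  rw [one_tmul_eq_zero h2, LinearMap.zero_apply]

/-- The Lie algebra which annihilates the Hodge forms. -/
noncomputable abbrev hodgeLie : Submodule ℚ (Module.End ℚ V) := lieOf (fun _ ψ => IsHodge H ψ)

theorem isHodge_iff [FiniteDimensional ℚ V] {n : ℕ}
    (ψ : MultilinearMap ℚ (fun _ : Fin n => V) ℚ) :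
    IsHodge H ψ ↔ Annihilates (opD H) (ext ℂ ψ) := by
  have h1 : ∀ t : Fin n → ℤ × ℤ, ∑ i, (((t i).1 : ℂ) - ((t i).2 : ℂ)) ≠ 0 ↔
      ∑ i, (t i).1 ≠ ∑ i, (t i).2 := by
    intro t
    rw [Finset.sum_sub_distrib, sub_ne_zero]
    have h2 : ∀ f : Fin n → ℤ, ∑ i, ((f i : ℤ) : ℂ) = ((∑ i, f i : ℤ) : ℂ) := fun f => by
      rw [Int.cast_sum]
    rw [h2 (fun i => (t i).1), h2 (fun i => (t i).2)]
    exact Int.cast_inj.not
  unfold opD
  rw [annihilates_diag_iff]
  constructor
  · rintro ⟨φ, hφ, h⟩ t v hv hne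
    rw [← hφ.eq_ext]
    exact h t v hv ((h1 t).1 hne)
  · intro h
    exact ⟨ext ℂ ψ, ext_extends ℂ ψ, fun t v hv hne => h t v hv ((h1 t).2 hne)⟩

theorem opD_mem [FiniteDimensional ℚ V] : opD H ∈ extEnd ℂ (fun X => X ∈ hodgeLie H) := by
  rw [mem_extEnd_iff]
  intro n ψ hψ φ hφ
  rw [hφ.eq_ext]
  exact (isHodge_iff H ψ).1 hψ

/-- Forms annihilated by the Lie algebra are Hodge forms. -/
theorem isHodge_of_ann [FiniteDimensional ℚ V] {n : ℕ}
    {ψ : MultilinearMap ℚ (fun _ : Fin n => V) ℚ} (h : ∀ X ∈ hodgeLie H, Annihilates X ψ) :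
    IsHodge H ψ := by
  rw [isHodge_iff, ann_ext_iff (ext_extends ℂ ψ)]
  intro lam
  exact h _ (cmp_of_ext _ (opD_mem H) lam)

/-- Hodge forms are fixed by the Weil operator. -/
theorem opC_hodge [FiniteDimensional ℚ V] {n : ℕ}
    {ψ : MultilinearMap ℚ (fun _ : Fin n => V) ℚ} (h : IsHodge H ψ) (v : Fin n → ℂ ⊗[ℚ] V) :
    ext ℂ ψ (fun i => opC H (v i)) = ext ℂ ψ v := by
  obtain ⟨φ, hφ, h⟩ := h
  rw [← hφ.eq_ext]
  have h1 : φ.compLinearMap (fun _ => opC H) = φ := by
    apply form_ext_internal H.hdg_internal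
    intro t v hv
    rw [MultilinearMap.compLinearMap_apply]
    have h2 : (fun i => opC H (v i)) = fun i => (Complex.I ^ ((t i).1 - (t i).2)) • v i := by
      funext i
      unfold opC
      rw [diag_apply _ _ (hv i)]
    rw [h2, MultilinearMap.map_smul_univ]
    by_cases hne : ∑ i, (t i).1 ≠ ∑ i, (t i).2
    · rw [h t v hv hne, smul_zero]
    · rw [not_not] at hne
      have h3 : ∀ s : Finset (Fin n), ∏ i ∈ s, Complex.I ^ ((t i).1 - (t i).2) =
          Complex.I ^ (∑ i ∈ s, ((t i).1 - (t i).2)) := by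
        intro s
        induction s using Finset.induction_on with
        | empty => simp
        | insert i s hi ih =>
          rw [Finset.prod_insert hi, Finset.sum_insert hi, zpow_add₀ Complex.I_ne_zero, ih]
      rw [h3, Finset.sum_sub_distrib, hne, sub_self, zpow_zero, one_smul]
  exact congrArg (fun F : MultilinearMap ℂ (fun _ : Fin n => ℂ ⊗[ℚ] V) ℂ => F v) h1

/-- Conjugation by an operator fixing a form. -/
theorem ann_conj {K : Type} [Field K] {E : Type} [AddCommGroup E] [Module K E] {n : ℕ}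
    {φ : MultilinearMap K (fun _ : Fin n => E) K} {g g' X : Module.End K E}
    (hg' : g * g' = 1) (c : K) (hinv : ∀ v, φ (fun i => g (v i)) = c * φ v)
    (hX : Annihilates X φ) : Annihilates (g * X * g') φ := by
  intro v
  have h0 : ∀ x, g (g' x) = x := fun x => by
    rw [← Module.End.mul_apply, hg', Module.End.one_apply]
  have h1 : ∀ i, φ (Function.update v i ((g * X * g') (v i))) =
      c * φ (Function.update (fun j => g' (v j)) i (X (g' (v i)))) := by
    intro i
    rw [← hinv]
    congr 1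
    funext j
    by_cases hj : j = i
    · subst hj
      rw [Function.update_self, Function.update_self]
      rfl
    · rw [Function.update_of_ne hj, Function.update_of_ne hj, h0]
  simp only [h1]
  rw [← Finset.mul_sum, hX, mul_zero]

/-- The polarization is a Hodge form. -/
theorem isHodge_S [FiniteDimensional ℚ V] : IsHodge H (bil H.S) := by
  refine ⟨bil (Sc H), extends_bil H.S, fun t v hv hne => ?_⟩
  rw [bil_apply]
  have hv0 : v 0 ∈ H.hdg ((t 0).1, (t 0).2) := hv 0
  have hv1 : v 1 ∈ H.hdg ((t 1).1, (t 1).2) := hv 1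
  refine H.orth _ _ _ _ (fun h => hne ?_) _ hv0 _ hv1
  rw [Fin.sum_univ_two, Fin.sum_univ_two, (Prod.ext_iff.1 h).1, (Prod.ext_iff.1 h).2]
  exact add_comm _ _

theorem skew_of_mem [FiniteDimensional ℚ V] {X : Module.End ℚ V} (hX : X ∈ hodgeLie H) (u v : V) :
    H.S (X u) v + H.S u (X v) = 0 :=
  ann_bil.1 (hX 2 _ (isHodge_S H)) u v

/-- The trace form of the Lie algebra is nondegenerate. -/
theorem traceNondeg_hodge [FiniteDimensional ℚ V] : TraceNondeg (hodgeLie H) := by
  intro X hX htr
  refine eq_zero_of_trace_opC H (skew_of_mem H hX) ?_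
  refine trace_ext (S := fun X => X ∈ hodgeLie H) htr ?_
  rw [mem_extEnd_iff]
  intro n ψ hψ φ hφ
  rw [hφ.eq_ext]
  refine ann_conj (opC_mul H) 1 (fun v => by rw [opC_hodge H hψ, one_mul]) ?_
  rw [ann_ext_iff (ext_extends ℂ ψ)]
  intro lam
  exact cmp_of_ext _ (Submodule.subset_span ⟨X, hX, rfl⟩) lam n ψ hψ

/-- An element that commutes with the Weil operator. -/
theorem eq_zero_of_trace_sq [FiniteDimensional ℚ V] {X : Module.End ℚ V}
    (hX : ∀ u v, H.S (X u) v + H.S u (X v) = 0)
    (hcomm : ∀ Y ∈ hodgeLie H, Y * X = X * Y) (htr : LinearMap.trace ℚ V (X * X) = 0) : X = 0 := by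
  refine eq_zero_of_trace_opC H hX ?_
  have h0 : ∀ Z ∈ extEnd ℂ (fun X => X ∈ hodgeLie H), Z * X.baseChange ℂ = X.baseChange ℂ * Z := by
    intro Z h2
    unfold extEnd at h2
    induction h2 using Submodule.span_induction with
    | mem Z hZ =>
      obtain ⟨Y, hY, rfl⟩ := hZ
      have h3 : ∀ A B : Module.End ℚ V, A.baseChange ℂ * B.baseChange ℂ = (A * B).baseChange ℂ := by
        intro A B
        rw [Module.End.mul_eq_comp, Module.End.mul_eq_comp, LinearMap.baseChange_comp]
      rw [h3, h3, hcomm Y hY]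
    | zero => rw [zero_mul, mul_zero]
    | add a b _ _ ha hb => rw [add_mul, mul_add, ha, hb]
    | smul c a _ ha => rw [smul_mul_assoc, mul_smul_comm, ha]
  have h1 : opD H * X.baseChange ℂ = X.baseChange ℂ * opD H := h0 _ (opD_mem H)
  -- it preserves `p - q`, so commutes with the Weil operator
  have h2 : X.baseChange ℂ * opC H = opC H * X.baseChange ℂ := by
    apply linearMap_ext_internal H.hdg_internal
    rintro t u hu
    rw [Module.End.mul_apply, Module.End.mul_apply]
    have h3 : opC H u = Complex.I ^ (t.1 - t.2) • u := diag_apply _ _ hu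
    rw [h3, map_smul]
    set y := X.baseChange ℂ u with hy
    have h4 : opD H y = ((t.1 : ℂ) - (t.2 : ℂ)) • y := by
      rw [hy, ← Module.End.mul_apply, h1, Module.End.mul_apply]
      have h5 : opD H u = ((t.1 : ℂ) - (t.2 : ℂ)) • u := diag_apply _ _ hu
      rw [h5, map_smul]
    -- the components of `y`
    have h5 : ∀ t' : ℤ × ℤ, pr H.hdg_internal t' y ≠ 0 → t'.1 - t'.2 = t.1 - t.2 := by
      intro t' hne
      have h6 : pr H.hdg_internal t' (opD H y) =
          ((t'.1 : ℂ) - (t'.2 : ℂ)) • pr H.hdg_internal t' y := by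
        have h7 : pr H.hdg_internal t' * opD H = opD H * pr H.hdg_internal t' := by
          unfold pr opD
          rw [diag_mul, diag_mul]
          congr 1
          funext s
          ring
        rw [← Module.End.mul_apply, h7, Module.End.mul_apply]
        exact diag_apply _ _ (pr_mem H.hdg_internal t' y)
      rw [h4, map_smul, ← sub_eq_zero, ← sub_smul, smul_eq_zero] at h6
      rcases h6 with h6 | h6
      · have h8 : (((t.1 - t.2) - (t'.1 - t'.2) : ℤ) : ℂ) = 0 := by
          push_cast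
          exact h6
        have h9 : (t.1 - t.2) - (t'.1 - t'.2) = 0 := by exact_mod_cast h8
        omega
      · exact absurd h6 hne
    obtain ⟨s, hs, -⟩ := exists_sum_pr H.hdg_internal y
    conv_lhs => rw [hs]
    conv_rhs => rw [hs]
    rw [map_sum, Finset.smul_sum]
    refine Finset.sum_congr rfl fun t' _ => ?_
    have h6 : opC H (pr H.hdg_internal t' y) =
        Complex.I ^ (t'.1 - t'.2) • pr H.hdg_internal t' y :=
      diag_apply _ _ (pr_mem H.hdg_internal t' y)
    rw [h6]
    by_cases hne : pr H.hdg_internal t' y = 0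
    · rw [hne, smul_zero, smul_zero]
    · rw [h5 t' hne]
  have h3 : X.baseChange ℂ * (opC H * X.baseChange ℂ * opC' H) = (X * X).baseChange ℂ := by
    rw [← h2, mul_assoc (X.baseChange ℂ), opC_mul, mul_one, Module.End.mul_eq_comp,
      Module.End.mul_eq_comp, LinearMap.baseChange_comp]
  rw [h3, LinearMap.trace_baseChange, htr, map_zero]

end Hodge

end Pool.Agent.Y111.MM
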