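import Mathlib
import Pool.Agent.Y111.MM.Hodge2
import Pool.Agent.Y111.MM.CartanG

/-!
# The Tate side
-/

set_option linter.unusedSectionVars false

namespace Pool.Agent.Y111.MM

open Module TensorProduct Pool.Agent.H204R3.SP Pool.Agent.W516.DR Pool.Agent.W516.KC
  Pool.Agent.W516.KC2 CG

section Tate

variable {V : Type} [AddCommGroup V] [Module ℚ V] [FiniteDimensional ℚ V] (H : PolarizedHodge V)
  {K : Type} [Field K] [CharZero K] {Γ : Type} [Group Γ]
  (ρ : Representation K Γ (K ⊗[ℚ] V)) (χ : Γ →* K)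

/-- The endomorphisms that annihilate the Tate forms. -/
noncomputable abbrev tateLie : Submodule K (Module.End K (K ⊗[ℚ] V)) :=
  lieOf (fun _ φ => IsTate H ρ χ φ)

/-- Conjugation. -/
theorem ann_conj_iff {E : Type} [AddCommGroup E] [Module K E] {n : ℕ}
    {φ : MultilinearMap K (fun _ : Fin n => E) K} {g g' X : Module.End K E}
    (hg : g * g' = 1) (hX : Annihilates X (φ.compLinearMap fun _ => g)) :
    Annihilates (g * X * g') φ := by
  intro v
  have h0 : ∀ x, g (g' x) = x := fun x => by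
    rw [← Module.End.mul_apply, hg, Module.End.one_apply]
  have h1 : ∀ i, φ (Function.update v i ((g * X * g') (v i))) =
      φ.compLinearMap (fun _ => g) (Function.update (fun j => g' (v j)) i (X (g' (v i)))) := by
    intro i
    rw [MultilinearMap.compLinearMap_apply]
    congr 1
    funext j
    by_cases hj : j = i
    · subst hj
      rw [Function.update_self, Function.update_self]
      rfl
    · rw [Function.update_of_ne hj, Function.update_of_ne hj, h0]
  simp only [h1]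
  exact hX (fun j => g' (v j))

variable {H ρ χ} (hG : IsGalois H ρ χ)

include hG in
theorem isTate_comp (s : Γ) {n : ℕ} {φ : MultilinearMap K (fun _ : Fin n => K ⊗[ℚ] V) K}
    (h : IsTate H ρ χ φ) : IsTate H ρ χ (φ.compLinearMap fun _ => ρ s) := by
  obtain ⟨Δ, hΔ, h⟩ := h
  have hfi : (Δ.comap (MulAut.conj s).toMonoidHom).FiniteIndex := by
    refine ⟨?_⟩
    rw [Subgroup.index_comap_of_surjective _ (MulAut.conj s).surjective]
    exact hΔ.index_ne_zero
  refine ⟨Δ.comap (MulAut.conj s).toMonoidHom, hfi, fun w v hv => ?_⟩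
  have hv' : ∀ i, ρ s (v i) ∈ (H.wt (w i)).baseChange K := fun i => hG.wt_mem s _ _ (hv i)
  obtain ⟨h1, h2⟩ := h w (fun i => ρ s (v i)) hv'
  refine ⟨h1, fun m hm r hr => ?_⟩
  rw [MultilinearMap.compLinearMap_apply, MultilinearMap.compLinearMap_apply]
  have h3 : s * r * s⁻¹ ∈ Δ := hr
  have h4 := h2 m hm _ h3
  have h5 : (fun i => ρ (s * r * s⁻¹) (ρ s (v i))) = fun i => ρ s (ρ r (v i)) := by
    funext i
    rw [← Module.End.mul_apply, ← map_mul, inv_mul_cancel_right, map_mul, Module.End.mul_apply]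
  rw [h5] at h4
  rw [h4]
  congr 2
  rw [map_mul, map_mul, mul_comm (χ s), mul_assoc, ← map_mul, mul_inv_cancel, map_one, mul_one]

include hG in
theorem conjG_tateLie : ConjG ρ (tateLie H ρ χ) := by
  intro s X hX n φ hφ
  refine ann_conj_iff ?_ (hX n _ (isTate_comp hG s hφ))
  rw [← map_mul, mul_inv_cancel, map_one]

include hG in
/-- The forms given by equivariant endomorphisms which respect the weights are Tate forms. -/
theorem isTate_bil {P : Module.End K (K ⊗[ℚ] V)} (hP : ∀ s, ρ s * P = P * ρ s)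
    (hw : ∀ w, ∀ v ∈ (H.wt w).baseChange K, P v ∈ (H.wt w).baseChange K) :
    IsTate H ρ χ (bil (LinearMap.comp (SK H K) P)) := by
  refine ⟨⊤, inferInstance, fun w v hv => ?_⟩
  have hv0 := hv 0
  have hv1 := hv 1
  rw [Fin.sum_univ_two]
  by_cases h : w 0 = w 1
  · rw [← h]
    refine ⟨fun h2 => absurd h2 (by rw [← two_mul]; simp), fun m hm s _ => ?_⟩
    have hm' : w 0 = m := by omega
    rw [bil_apply, bil_apply]
    change SK H K (P (ρ s (v 0))) (ρ s (v 1)) = _
    have h2 : P (ρ s (v 0)) = ρ s (P (v 0)) := by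
      rw [← Module.End.mul_apply, ← hP, Module.End.mul_apply]
    rw [h2, ← hm']
    rw [← h] at hv1
    exact hG.form s (w 0) _ (hw _ _ hv0) _ hv1
  · have h1 : SK H K (P (v 0)) (v 1) = 0 := SK_orth H h (hw _ _ hv0) hv1
    refine ⟨fun _ => h1, fun m hm s _ => ?_⟩
    rw [bil_apply, bil_apply]
    change SK H K (P (ρ s (v 0))) (ρ s (v 1)) = _ * SK H K (P (v 0)) (v 1)
    rw [h1, mul_zero]
    exact SK_orth H h (hw _ _ (hG.wt_mem s _ _ hv0)) (hG.wt_mem s _ _ hv1)

include hG in
theorem isTate_S : IsTate H ρ χ (bil (SK H K)) := by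
  have h1 := isTate_bil hG (P := 1) (fun s => by rw [mul_one, one_mul]) (fun _ _ h => h)
  exact h1

include hG in
theorem skew_tate {X : Module.End K (K ⊗[ℚ] V)} (hX : X ∈ tateLie H ρ χ) (u v : K ⊗[ℚ] V) :
    SK H K (X u) v + SK H K u (X v) = 0 :=
  ann_bil.1 (hX 2 _ (isTate_S hG)) u v

include hG in
/-- The Lie algebra commutes with the equivariant endomorphisms which respect the weights. -/
theorem comm_tate {P : Module.End K (K ⊗[ℚ] V)} (hP : ∀ s, ρ s * P = P * ρ s)
    (hw : ∀ w, ∀ v ∈ (H.wt w).baseChange K, P v ∈ (H.wt w).baseChange K)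
    {X : Module.End K (K ⊗[ℚ] V)} (hX : X ∈ tateLie H ρ χ) : X * P = P * X :=
  (ann_bil_comp (skew_tate hG hX) (SK_nondeg H)).1 (hX 2 _ (isTate_bil hG hP hw))

include hG in
theorem comm_pr_rho (s : Γ) (w : ℤ) : ρ s * pr (wtK H K) w = pr (wtK H K) w * ρ s :=
  comm_diag (wtK H K) (fun i v hv => hG.wt_mem s i v hv) _

include hG in
theorem comm_pr_tate (w : ℤ) {X : Module.End K (K ⊗[ℚ] V)} (hX : X ∈ tateLie H ρ χ) :
    X * pr (wtK H K) w = pr (wtK H K) w * X := by
  refine comm_tate hG (fun s => comm_pr_rho hG s w) (fun w' v hv => ?_) hX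
  by_cases h : w' = w
  · subst h
    exact pr_mem (wtK H K) _ _
  · rw [pr_ne (wtK H K) hv h]
    exact Submodule.zero_mem _

include hG in
theorem tate_wt {X : Module.End K (K ⊗[ℚ] V)} (hX : X ∈ tateLie H ρ χ) (w : ℤ) {v : K ⊗[ℚ] V}
    (hv : v ∈ (H.wt w).baseChange K) : X v ∈ (H.wt w).baseChange K :=
  mem_of_comm_pr (wtK H K) (fun w => comm_pr_tate hG w hX) w hv

include hG in
theorem semiG_tateLie (hss : Semisimple ρ) : SemiG ρ (tateLie H ρ χ) := by
  intro U _ hU hUc
  obtain ⟨U', hU', hc⟩ := hss U hU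
  -- the projection
  let P : Module.End K (K ⊗[ℚ] V) := U.subtype ∘ₗ U.projectionOnto U' hc
  have hPU : ∀ u ∈ U, P u = u := fun u hu => by
    change ((U.projectionOnto U' hc u : U) : K ⊗[ℚ] V) = u
    exact congrArg Subtype.val (Submodule.projectionOnto_apply_left hc ⟨u, hu⟩)
  have hPU' : ∀ u ∈ U', P u = 0 := fun u hu => by
    change ((U.projectionOnto U' hc u : U) : K ⊗[ℚ] V) = 0
    have h1 := Submodule.projectionOnto_apply_right hc ⟨u, hu⟩
    rw [show u = ((⟨u, hu⟩ : U') : K ⊗[ℚ] V) from rfl, h1]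
    rfl
  have hPm : ∀ v, P v ∈ U := fun v => (U.projectionOnto U' hc v).2
  have hPρ : ∀ s, ρ s * P = P * ρ s := by
    intro s
    refine LinearMap.ext fun v => ?_
    obtain ⟨u, hu, u', hu', rfl⟩ := Submodule.mem_sup.1
      (show v ∈ U ⊔ U' by rw [hc.sup_eq_top]; trivial)
    rw [Module.End.mul_apply, Module.End.mul_apply, map_add P, map_add (ρ s) u u', map_add P,
      hPU u hu, hPU' u' hu', hPU _ (hU s u hu), hPU' _ (hU' s u' hu'), add_zero, add_zero]
  obtain ⟨ws, hws⟩ := exists_finset (wtK H K)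
  let Q : Module.End K (K ⊗[ℚ] V) := ∑ w ∈ ws, pr (wtK H K) w * P * pr (wtK H K) w
  have hQa : ∀ v, Q v = ∑ w ∈ ws, pr (wtK H K) w (P (pr (wtK H K) w v)) := by
    intro v
    rw [LinearMap.sum_apply]
    rfl
  have hprU : ∀ w, ∀ u ∈ U, pr (wtK H K) w u ∈ U := fun w u hu =>
    hUc _ (fun X hX => comm_pr_tate hG w hX) u hu
  have hQU : ∀ u ∈ U, Q u = u := by
    intro u hu
    rw [hQa]
    have h1 : ∀ w ∈ ws, pr (wtK H K) w (P (pr (wtK H K) w u)) = pr (wtK H K) w u := by
      intro w _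
      rw [hPU _ (hprU w u hu)]
      exact pr_same (wtK H K) (pr_mem (wtK H K) w u)
    rw [Finset.sum_congr rfl h1, hws]
  have hQm : ∀ v, Q v ∈ U := by
    intro v
    rw [hQa]
    exact Submodule.sum_mem _ fun w _ => hprU w _ (hPm _)
  have hQρ : ∀ s, ρ s * Q = Q * ρ s := by
    intro s
    rw [Finset.mul_sum, Finset.sum_mul]
    refine Finset.sum_congr rfl fun w _ => ?_
    rw [← mul_assoc, ← mul_assoc, comm_pr_rho hG, mul_assoc _ (ρ s) P, hPρ, mul_assoc,
      mul_assoc, mul_assoc, comm_pr_rho hG, mul_assoc]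
  have hQw : ∀ w, ∀ v ∈ (H.wt w).baseChange K, Q v ∈ (H.wt w).baseChange K := by
    intro w v hv
    rw [hQa]
    refine Submodule.sum_mem _ fun w' _ => ?_
    by_cases h : w = w'
    · subst h
      exact pr_mem (wtK H K) _ _
    · rw [pr_ne (wtK H K) hv h, map_zero, map_zero]
      exact Submodule.zero_mem _
  refine ⟨LinearMap.ker Q, fun X hX u hu => ?_, ?_⟩
  · rw [LinearMap.mem_ker] at hu ⊢
    rw [← Module.End.mul_apply, ← comm_tate hG hQρ hQw hX, Module.End.mul_apply, hu, map_zero]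
  · rw [isCompl_iff, Submodule.disjoint_def, codisjoint_iff]
    refine ⟨fun x hx hx' => ?_, ?_⟩
    · rw [LinearMap.mem_ker, hQU x hx] at hx'
      exact hx'
    · rw [eq_top_iff]
      intro x _
      rw [Submodule.mem_sup]
      refine ⟨Q x, hQm x, x - Q x, ?_, by abel⟩
      rw [LinearMap.mem_ker, map_sub, hQU _ (hQm x), sub_self]

include hG in
/-- The radical of the trace form is central. -/
theorem central_tate (hss : Semisimple ρ) {X : Module.End K (K ⊗[ℚ] V)}
    (hX : X ∈ tateLie H ρ χ)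
    (htr : ∀ Y ∈ tateLie H ρ χ, LinearMap.trace K _ (X * Y) = 0) :
    ∀ Y ∈ tateLie H ρ χ, Y * X = X * Y :=
  CG.central_of_trace (tateLie H ρ χ) (semiG_tateLie hG hss) (conjG_tateLie hG)
    (fun _ hX _ hY => lieOf_bracket hX hY) hX htr

end Tate

end Pool.Agent.Y111.MM
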