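import Mathlib
import Pool.Agent.Y111.MM.Tate
import Pool.Agent.Y111.MM.Key

/-!
# Forms annihilated by the Lie algebra are Tate forms
-/

set_option linter.unusedSectionVars false

namespace Pool.Agent.Y111.MM

open Module TensorProduct Filter Topology

section NearB

variable {ℓ : ℕ} [hℓ : Fact ℓ.Prime] {E : Type} [AddCommGroup E] [Module ℚ_[ℓ] E]
  {ι : Type} [Fintype ι] [DecidableEq ι] (b : Basis ι ℚ_[ℓ] E)

theorem nearB_iff {T : Module.End ℚ_[ℓ] E} : NearB b T ↔ Near b.equivFun.toLinearMap T := by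
  refine ⟨fun h x => h.near x, fun h i j => ?_⟩
  have h1 := h (b j)
  have h2 : ‖b.equivFun (b j)‖ ≤ 1 := by
    rw [pi_norm_le_iff_of_nonneg zero_le_one]
    intro i
    rw [Basis.equivFun_apply, Basis.repr_self, Finsupp.single_apply]
    split_ifs <;> simp
  have h3 : ‖b.repr (T (b j) - b j) i‖ ≤ ‖b.equivFun (T (b j) - b j)‖ :=
    norm_le_pi_norm (b.equivFun (T (b j) - b j)) i
  refine h3.trans (h1.trans ?_)
  calc rad ℓ * ‖b.equivFun (b j)‖ ≤ rad ℓ * 1 := mul_le_mul_of_nonneg_left h2 (rad_pos ℓ).le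
    _ = rad ℓ := mul_one _

theorem Near.mul {U : Type*} [NormedAddCommGroup U] [NormedSpace ℚ_[ℓ] U]
    [IsUltrametricDist U] {M : Type*} [AddCommGroup M] [Module ℚ_[ℓ] M] {j : M →ₗ[ℚ_[ℓ]] U}
    {T T' : Module.End ℚ_[ℓ] M} (hT : Near j T) (hT' : Near j T') : Near j (T * T') := by
  intro x
  have h1 : (T * T') x - x = (T (T' x) - T' x) + (T' x - x) := by
    rw [Module.End.mul_apply]
    abel
  rw [h1, map_add]
  refine (IsUltrametricDist.norm_add_le_max _ _).trans (max_le ?_ (hT' x))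
  have h2 := hT (T' x)
  rwa [hT'.norm_eq] at h2

theorem Near.inv {U : Type*} [NormedAddCommGroup U] [NormedSpace ℚ_[ℓ] U]
    [IsUltrametricDist U] {M : Type*} [AddCommGroup M] [Module ℚ_[ℓ] M] {j : M →ₗ[ℚ_[ℓ]] U}
    {T T' : Module.End ℚ_[ℓ] M} (hT : Near j T) (h : T * T' = 1) : Near j T' := by
  intro x
  have h1 : T (T' x) = x := by rw [← Module.End.mul_apply, h, Module.End.one_apply]
  have h2 := hT (T' x)
  have h3 := hT.norm_eq (T' x)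
  rw [h1] at h3 h2
  rw [← h3] at h2
  rwa [← norm_neg, ← map_neg, neg_sub]

theorem NearB.mul {T T' : Module.End ℚ_[ℓ] E} (hT : NearB b T) (hT' : NearB b T') :
    NearB b (T * T') := by
  rw [nearB_iff] at *
  exact hT.mul hT'

theorem NearB.inv {T T' : Module.End ℚ_[ℓ] E} (hT : NearB b T) (h : T * T' = 1) : NearB b T' := by
  rw [nearB_iff] at *
  exact hT.inv h

theorem norm_one_of_near {x : ℚ_[ℓ]} (hx : ‖x - 1‖ ≤ rad ℓ) : ‖x‖ = 1 := by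
  have h1 : ‖x - 1‖ < ‖(1 : ℚ_[ℓ])‖ := by
    rw [norm_one]
    exact hx.trans_lt (rad_lt_one ℓ)
  rw [norm_eq_of_sub h1, norm_one]

theorem near_mul {x y : ℚ_[ℓ]} (hx : ‖x - 1‖ ≤ rad ℓ) (hy : ‖y - 1‖ ≤ rad ℓ) :
    ‖x * y - 1‖ ≤ rad ℓ := by
  have h1 : x * y - 1 = x * (y - 1) + (x - 1) := by ring
  rw [h1]
  refine (IsUltrametricDist.norm_add_le_max _ _).trans (max_le ?_ hx)
  rw [norm_mul, norm_one_of_near hx, one_mul]
  exact hy

theorem near_inv {x : ℚ_[ℓ]} (hx : ‖x - 1‖ ≤ rad ℓ) : ‖x⁻¹ - 1‖ ≤ rad ℓ := by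
  have h0 : x ≠ 0 := by
    intro h
    have := norm_one_of_near hx
    rw [h, norm_zero] at this
    exact zero_ne_one this
  have h1 : x⁻¹ - 1 = -(x⁻¹ * (x - 1)) := by
    field_simp
    ring
  rw [h1, norm_neg, norm_mul, norm_inv, norm_one_of_near hx, inv_one, one_mul]
  exact hx

theorem near_pow {x : ℚ_[ℓ]} (hx : ‖x - 1‖ ≤ rad ℓ) (n : ℕ) : ‖x ^ n - 1‖ ≤ rad ℓ := by
  induction n with
  | zero => simp [(rad_pos ℓ).le]
  | succ n ih =>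
    rw [pow_succ]
    exact near_mul ih hx

theorem near_zpow {x : ℚ_[ℓ]} (hx : ‖x - 1‖ ≤ rad ℓ) (n : ℤ) : ‖x ^ n - 1‖ ≤ rad ℓ := by
  obtain ⟨m, rfl | rfl⟩ := n.eq_nat_or_neg
  · rw [zpow_natCast]
    exact near_pow hx m
  · rw [zpow_neg, zpow_natCast]
    exact near_inv (near_pow hx m)

end NearB

section Tate

variable {V : Type} [AddCommGroup V] [Module ℚ V] [FiniteDimensional ℚ V] {H : PolarizedHodge V}
  {ℓ : ℕ} [hℓ : Fact ℓ.Prime] {Γ : Type} [Group Γ]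
  {ρ : Representation ℚ_[ℓ] Γ (ℚ_[ℓ] ⊗[ℚ] V)} {χ : Γ →* ℚ_[ℓ]}

theorem chi_ne (χ : Γ →* ℚ_[ℓ]) (s : Γ) : χ s ≠ 0 := by
  intro h
  have h1 : χ s * χ s⁻¹ = 1 := by rw [← map_mul, mul_inv_cancel, map_one]
  rw [h, zero_mul] at h1
  exact zero_ne_one h1

variable (ρ χ) in
/-- The elements whose images are near one. -/
def nearG {ι : Type} [Fintype ι] [DecidableEq ι] (b : Basis ι ℚ_[ℓ] (ℚ_[ℓ] ⊗[ℚ] V)) :
    Subgroup Γ where
  carrier := {s | NearB b (ρ s) ∧ ‖χ s - 1‖ ≤ rad ℓ}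
  one_mem' := by
    refine ⟨fun i j => ?_, ?_⟩
    · rw [map_one, Module.End.one_apply, sub_self, map_zero, Finsupp.zero_apply, norm_zero]
      exact (rad_pos ℓ).le
    · rw [map_one, sub_self, norm_zero]
      exact (rad_pos ℓ).le
  mul_mem' := by
    rintro s t ⟨hs, hs'⟩ ⟨ht, ht'⟩
    refine ⟨?_, ?_⟩
    · rw [map_mul]
      exact hs.mul b ht
    · rw [map_mul]
      exact near_mul hs' ht'
  inv_mem' := by
    rintro s ⟨hs, hs'⟩
    refine ⟨?_, ?_⟩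
    · refine hs.inv b ?_
      rw [← map_mul, mul_inv_cancel, map_one]
    · have h1 : χ s⁻¹ = (χ s)⁻¹ := by
        refine eq_inv_of_mul_eq_one_left ?_
        rw [← map_mul, inv_mul_cancel, map_one]
      rw [h1]
      exact near_inv hs'

theorem nearG_finiteIndex [TopologicalSpace Γ] [IsTopologicalGroup Γ] [CompactSpace Γ]
    (hc : IsContinuous ρ χ) {ι : Type} [Fintype ι] [DecidableEq ι]
    (b : Basis ι ℚ_[ℓ] (ℚ_[ℓ] ⊗[ℚ] V)) : (nearG ρ χ b).FiniteIndex := by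
  have h1 : ((nearG ρ χ b : Subgroup Γ) : Set Γ) ∈ 𝓝 (1 : Γ) := by
    have h2 : ∀ᶠ s in 𝓝 (1 : Γ), ∀ i j, ‖b.repr (ρ s (b j) - b j) i‖ < rad ℓ := by
      rw [Filter.eventually_all]
      intro i
      rw [Filter.eventually_all]
      intro j
      have h3 : Continuous fun s => ‖b.repr (ρ s (b j) - b j) i‖ := by
        have h4 := hc.1 (b j) (b.coord i)
        have h5 : (fun s => ‖b.repr (ρ s (b j) - b j) i‖) =
            fun s => ‖b.coord i (ρ s (b j)) - b.coord i (b j)‖ := by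
          funext s
          rw [← map_sub]
          rfl
        rw [h5]
        exact (h4.sub continuous_const).norm
      have h6 := h3.tendsto 1
      rw [map_one, Module.End.one_apply, sub_self, map_zero, Finsupp.zero_apply, norm_zero] at h6
      exact h6.eventually_lt_const (rad_pos ℓ)
    have h3 : ∀ᶠ s in 𝓝 (1 : Γ), ‖χ s - 1‖ < rad ℓ := by
      have h4 : Continuous fun s => ‖χ s - 1‖ := (hc.2.sub continuous_const).norm
      have h5 := h4.tendsto 1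
      rw [map_one, sub_self, norm_zero] at h5
      exact h5.eventually_lt_const (rad_pos ℓ)
    filter_upwards [h2, h3] with s hs hs'
    exact ⟨fun i j => (hs i j).le, hs'.le⟩
  have h2 := (nearG ρ χ b).isOpen_of_mem_nhds h1
  have h3 := (nearG ρ χ b).quotient_finite_of_isOpen h2
  exact Subgroup.finiteIndex_of_finite_quotient

variable (H ρ χ) in
/-- The twisted square of the action. -/
noncomputable def Tt (s : Γ) : Module.End ℚ_[ℓ] (ℚ_[ℓ] ⊗[ℚ] V) :=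
  diag (wtK H ℚ_[ℓ]) (fun w => χ s ^ (-w)) * (ρ s * ρ s)

theorem Tt_apply (hG : IsGalois H ρ χ) (s : Γ) {w : ℤ} {v : ℚ_[ℓ] ⊗[ℚ] V}
    (hv : v ∈ (H.wt w).baseChange ℚ_[ℓ]) : Tt H ρ χ s v = χ s ^ (-w) • ρ s (ρ s v) := by
  unfold Tt
  rw [Module.End.mul_apply, Module.End.mul_apply]
  exact diag_apply _ _ (hG.wt_mem s w _ (hG.wt_mem s w _ hv))

theorem Tt_pow (hG : IsGalois H ρ χ) (s : Γ) (N : ℕ) : Tt H ρ χ s ^ N = Tt H ρ χ (s ^ N) := by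
  induction N with
  | zero =>
    apply linearMap_ext_internal (wtK H ℚ_[ℓ])
    intro w v hv
    rw [pow_zero, pow_zero, Tt_apply hG 1 hv, map_one, map_one, one_zpow, one_smul]
    rfl
  | succ N ih =>
    rw [pow_succ, ih]
    apply linearMap_ext_internal (wtK H ℚ_[ℓ])
    intro w v hv
    rw [Module.End.mul_apply, Tt_apply hG s hv, map_smul,
      Tt_apply hG _ (hG.wt_mem s w _ (hG.wt_mem s w _ hv)), Tt_apply hG _ hv, smul_smul, pow_succ,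
      map_mul, map_mul, mul_zpow, mul_comm (χ (s ^ N) ^ (-w))]
    congr 1
    simp only [Module.End.mul_apply]
    have h1 : ∀ x, ρ s (ρ (s ^ N) x) = ρ (s ^ N) (ρ s x) := by
      intro x
      rw [← Module.End.mul_apply, ← map_mul, ← Module.End.mul_apply, ← map_mul, ← pow_succ,
        ← pow_succ']
    rw [h1]

theorem Tt_form (hG : IsGalois H ρ χ) {n : ℕ}
    {φ : MultilinearMap ℚ_[ℓ] (fun _ : Fin n => ℚ_[ℓ] ⊗[ℚ] V) ℚ_[ℓ]} (s : Γ)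
    {w : Fin n → ℤ} {v : Fin n → ℚ_[ℓ] ⊗[ℚ] V} (hv : ∀ i, v i ∈ (H.wt (w i)).baseChange ℚ_[ℓ]) :
    φ (fun i => Tt H ρ χ s (v i)) = χ s ^ (-∑ i, w i) * φ (fun i => ρ s (ρ s (v i))) := by
  have h1 : (fun i => Tt H ρ χ s (v i)) = fun i => χ s ^ (-(w i)) • ρ s (ρ s (v i)) := by
    funext i
    exact Tt_apply hG s (hv i)
  rw [h1, MultilinearMap.map_smul_univ, smul_eq_mul]
  congr 1
  have h3 : ∀ t : Finset (Fin n), ∏ i ∈ t, χ s ^ (-(w i)) = χ s ^ (-∑ i ∈ t, w i) := by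
    intro t
    induction t using Finset.induction_on with
    | empty => simp
    | insert i t hi ih =>
      rw [Finset.prod_insert hi, Finset.sum_insert hi, neg_add, zpow_add₀ (chi_ne χ s), ih]
  exact h3 _

/-- Tate forms are fixed by the twisted squares of a subgroup of finite index. -/
theorem Tt_fixes (hG : IsGalois H ρ χ) {n : ℕ}
    {φ : MultilinearMap ℚ_[ℓ] (fun _ : Fin n => ℚ_[ℓ] ⊗[ℚ] V) ℚ_[ℓ]} (hφ : IsTate H ρ χ φ) :
    ∃ Δ : Subgroup Γ, Δ.FiniteIndex ∧ ∀ s ∈ Δ, φ.compLinearMap (fun _ => Tt H ρ χ s) = φ := by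
  obtain ⟨Δ, hΔ, h⟩ := hφ
  refine ⟨Δ, hΔ, fun s hs => ?_⟩
  apply form_ext_internal (wtK H ℚ_[ℓ])
  intro w v hv
  rw [MultilinearMap.compLinearMap_apply, Tt_form hG s hv]
  have hv2 : ∀ i, ρ s (ρ s (v i)) ∈ (H.wt (w i)).baseChange ℚ_[ℓ] := fun i =>
    hG.wt_mem s _ _ (hG.wt_mem s _ _ (hv i))
  rcases Int.even_or_odd (∑ i, w i) with he | ho
  · obtain ⟨m, hm⟩ := he
    have hm' : ∑ i, w i = 2 * m := by rw [hm]; ring
    have h1 := (h w _ (fun i => hG.wt_mem s _ _ (hv i))).2 m hm' s hs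
    have h2 := (h w _ hv).2 m hm' s hs
    rw [h1, h2, hm, neg_add, zpow_add₀ (chi_ne χ s), zpow_neg]
    have := zpow_ne_zero m (chi_ne χ s)
    field_simp
  · rw [(h w _ hv2).1 ho, (h w _ hv).1 ho, mul_zero]

theorem nearB_diag {ι : Type} [Fintype ι] [DecidableEq ι] {b : Basis ι ℚ_[ℓ] (ℚ_[ℓ] ⊗[ℚ] V)}
    {t : ι → ℤ} (hb : ∀ i, b i ∈ (H.wt (t i)).baseChange ℚ_[ℓ]) {c : ℤ → ℚ_[ℓ]}
    (hc : ∀ w, ‖c w - 1‖ ≤ rad ℓ) : NearB b (diag (wtK H ℚ_[ℓ]) c) := by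
  intro i j
  rw [diag_apply (wtK H ℚ_[ℓ]) c (hb j)]
  have h1 : c (t j) • b j - b j = (c (t j) - 1) • b j := by rw [sub_smul, one_smul]
  rw [h1, map_smul, Finsupp.smul_apply, smul_eq_mul, norm_mul, Basis.repr_self,
    Finsupp.single_apply]
  split_ifs
  · rw [norm_one, mul_one]
    exact hc _
  · rw [norm_zero, mul_zero]
    exact (rad_pos ℓ).le

theorem Tt_near {ι : Type} [Fintype ι] [DecidableEq ι] {b : Basis ι ℚ_[ℓ] (ℚ_[ℓ] ⊗[ℚ] V)}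
    {t : ι → ℤ} (hb : ∀ i, b i ∈ (H.wt (t i)).baseChange ℚ_[ℓ]) {s : Γ} (hs : s ∈ nearG ρ χ b) :
    NearB b (Tt H ρ χ s) :=
  (nearB_diag hb (fun w => near_zpow hs.2 (-w))).mul b (hs.1.mul b hs.1)

/-- Elements near one fix all Tate forms. -/
theorem Tt_fixes' (hG : IsGalois H ρ χ) {ι : Type} [Fintype ι] [DecidableEq ι]
    {b : Basis ι ℚ_[ℓ] (ℚ_[ℓ] ⊗[ℚ] V)} {t : ι → ℤ}
    (hb : ∀ i, b i ∈ (H.wt (t i)).baseChange ℚ_[ℓ]) {s : Γ} (hs : s ∈ nearG ρ χ b) {n : ℕ}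
    {φ : MultilinearMap ℚ_[ℓ] (fun _ : Fin n => ℚ_[ℓ] ⊗[ℚ] V) ℚ_[ℓ]} (hφ : IsTate H ρ χ φ) :
    φ.compLinearMap (fun _ => Tt H ρ χ s) = φ := by
  obtain ⟨Δ, hΔ, h⟩ := Tt_fixes hG hφ
  obtain ⟨N, hN, -, hs'⟩ := Subgroup.exists_pow_mem_of_index_ne_zero hΔ.index_ne_zero s
  have h1 := h _ hs'
  have h2 := (Tt_near hb hs).forms_fixed b (c := 1) (by simp [(rad_pos ℓ).le]) φ hN (by
    rw [one_smul, actF_pow, Tt_pow hG]
    exact h1)
  rw [one_smul] at h2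
  exact h2

/-- Forms annihilated by the Lie algebra are fixed by the elements near one. -/
theorem Tt_fixes_of_ann (hG : IsGalois H ρ χ) {ι : Type} [Fintype ι] [DecidableEq ι]
    {b : Basis ι ℚ_[ℓ] (ℚ_[ℓ] ⊗[ℚ] V)} {t : ι → ℤ}
    (hb : ∀ i, b i ∈ (H.wt (t i)).baseChange ℚ_[ℓ]) {s : Γ} (hs : s ∈ nearG ρ χ b) {n : ℕ}
    {φ : MultilinearMap ℚ_[ℓ] (fun _ : Fin n => ℚ_[ℓ] ⊗[ℚ] V) ℚ_[ℓ]}
    (hφ : ∀ X ∈ tateLie H ρ χ, Annihilates X φ) (v : Fin n → ℚ_[ℓ] ⊗[ℚ] V) :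
    φ (fun i => Tt H ρ χ s (v i)) = φ v := by
  obtain ⟨Y, hY⟩ := exists_log b (Tt_near hb hs)
  refine (hY n φ).1 (hφ Y fun m ψ hψ => (hY m ψ).2 fun v => ?_) v
  have h1 := Tt_fixes' hG hb hs hψ
  exact congrArg (fun F : MultilinearMap ℚ_[ℓ] (fun _ : Fin m => ℚ_[ℓ] ⊗[ℚ] V) ℚ_[ℓ] => F v) h1

/-- **Forms annihilated by the Lie algebra are Tate forms.** -/
theorem isTate_of_ann [TopologicalSpace Γ] [IsTopologicalGroup Γ] [CompactSpace Γ]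
    (hG : IsGalois H ρ χ) (hc : IsContinuous ρ χ) {n : ℕ}
    {φ : MultilinearMap ℚ_[ℓ] (fun _ : Fin n => ℚ_[ℓ] ⊗[ℚ] V) ℚ_[ℓ]}
    (hφ : ∀ X ∈ tateLie H ρ χ, Annihilates X φ)
    (hodd : ∀ (w : Fin n → ℤ) (v : Fin n → ℚ_[ℓ] ⊗[ℚ] V),
      (∀ i, v i ∈ (H.wt (w i)).baseChange ℚ_[ℓ]) → Odd (∑ i, w i) → φ v = 0) :
    IsTate H ρ χ φ := by
  obtain ⟨N, b, t, hb⟩ := exists_hbasis (wtK H ℚ_[ℓ])
  refine ⟨nearG ρ χ b, nearG_finiteIndex hc b, fun w v hv => ⟨hodd w v hv, fun m hm s hs => ?_⟩⟩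
  -- the component of the form
  let ψ : MultilinearMap ℚ_[ℓ] (fun _ : Fin n => ℚ_[ℓ] ⊗[ℚ] V) ℚ_[ℓ] :=
    φ.compLinearMap (fun i => pr (wtK H ℚ_[ℓ]) (w i))
  have hψ : ∀ x, ψ x = φ (fun i => pr (wtK H ℚ_[ℓ]) (w i) (x i)) := fun _ => rfl
  have hcomm : ∀ s w x, pr (wtK H ℚ_[ℓ]) w (ρ s x) = ρ s (pr (wtK H ℚ_[ℓ]) w x) := by
    intro s w x
    rw [← Module.End.mul_apply, ← comm_pr_rho hG, Module.End.mul_apply]
  have h1 : ((χ s ^ (-m) • actF n (ρ s)) ^ 2) ψ = ψ := by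
    ext x
    have h2 : (((χ s ^ (-m) • actF n (ρ s)) ^ 2) ψ) x =
        χ s ^ (-m) * (χ s ^ (-m) * ψ (fun i => ρ s (ρ s (x i)))) := by
      rw [pow_two]
      rfl
    rw [h2, hψ, hψ]
    simp only [hcomm]
    have h3 : ∀ i, pr (wtK H ℚ_[ℓ]) (w i) (x i) ∈ (H.wt (w i)).baseChange ℚ_[ℓ] := fun i =>
      pr_mem (wtK H ℚ_[ℓ]) _ _
    have h4 := Tt_fixes_of_ann hG hb hs hφ (fun i => pr (wtK H ℚ_[ℓ]) (w i) (x i))
    rw [Tt_form hG s h3, hm] at h4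
    rw [← h4, ← mul_assoc, ← zpow_add₀ (chi_ne χ s)]
    congr 2
    ring
  have h2 := hs.1.forms_fixed b (near_zpow hs.2 (-m)) ψ two_pos h1
  have h3 := congrArg (fun F : MultilinearMap ℚ_[ℓ] (fun _ : Fin n => ℚ_[ℓ] ⊗[ℚ] V) ℚ_[ℓ] => F v) h2
  have h4 : χ s ^ (-m) * ψ (fun i => ρ s (v i)) = ψ v := h3
  have h5 : ψ v = φ v := by
    rw [hψ]
    congr 1
    funext i
    exact pr_same (wtK H ℚ_[ℓ]) (hv i)
  have h6 : ψ (fun i => ρ s (v i)) = φ (fun i => ρ s (v i)) := by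
    rw [hψ]
    congr 1
    funext i
    exact pr_same (wtK H ℚ_[ℓ]) (hG.wt_mem s _ _ (hv i))
  rw [h5, h6] at h4
  rw [← h4, ← mul_assoc, ← zpow_add₀ (chi_ne χ s), add_neg_cancel, zpow_zero, one_mul]

end Tate

end Pool.Agent.Y111.MM
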