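import Mathlib
import Pool.Agent.Y111.MM.TateLog

/-!
# The degree four theorem
-/

set_option linter.unusedSectionVars false

namespace Pool.Agent.Y111.MM

open Module TensorProduct Pool.Agent.H204R3.SP Pool.Agent.W516.DR Pool.Agent.W516.KC
  Pool.Agent.W516.KC2 CG

section Cmp

variable {F : Type} [Field F] [CharZero F] {W : Type} [AddCommGroup W] [Module F W]
  [FiniteDimensional F W] {k : Type} [Field k] [CharZero k] [Algebra F k]

/-- The component of the trace. -/
theorem trace_cmp' (X : Module.End k (k ⊗[F] W)) (lam : k →ₗ[F] F) :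
    lam (LinearMap.trace k _ X) = LinearMap.trace F W (cmpE lam X) := by
  classical
  let b := Module.finBasis F W
  rw [LinearMap.trace_eq_matrix_trace k (b.baseChange k), LinearMap.trace_eq_matrix_trace F b,
    Matrix.trace, Matrix.trace, map_sum]
  refine Finset.sum_congr rfl fun i _ => ?_
  rw [Matrix.diag_apply, Matrix.diag_apply, LinearMap.toMatrix_apply, LinearMap.toMatrix_apply,
    Basis.baseChange_apply, cmpE_apply]
  have h2 : ∀ z : k ⊗[F] W, b.repr (cmp lam z) i = lam ((b.baseChange k).repr z i) := by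
    intro z
    induction z with
    | zero => simp only [map_zero, Finsupp.zero_apply]
    | add z z' h h' => simp only [map_add, Finsupp.add_apply, h, h']
    | tmul a w =>
      rw [cmp_tmul, map_smul, Finsupp.smul_apply, Basis.baseChange_repr_tmul]
      rw [map_smul, smul_eq_mul, smul_eq_mul, mul_comm]
  rw [h2]

/-- The component of a product with a rational endomorphism. -/
theorem cmpE_mul' (X : Module.End k (k ⊗[F] W)) (P : Module.End F W) (lam : k →ₗ[F] F) :
    cmpE lam (X * P.baseChange k) = cmpE lam X * P := by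
  ext w
  rw [cmpE_apply, Module.End.mul_apply, Module.End.mul_apply, LinearMap.baseChange_tmul,
    cmpE_apply]

theorem fcmp_zero {n : ℕ} (lam : k →ₗ[F] F) :
    fcmp lam (0 : MultilinearMap k (fun _ : Fin n => k ⊗[F] W) k) = 0 := by
  ext v
  rw [fcmp_apply]
  exact map_zero lam

/-- The components of a combination of extensions of elements of a subspace are in it. -/
theorem fcmp_of_combos {n : ℕ} (S : Submodule F (MultilinearMap F (fun _ : Fin n => W) F))
    {φ : MultilinearMap k (fun _ : Fin n => k ⊗[F] W) k} (h : φ ∈ combos k (fun ψ => ψ ∈ S))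
    (lam : k →ₗ[F] F) : fcmp lam φ ∈ S := by
  unfold combos at h
  have key : ∀ lam : k →ₗ[F] F, fcmp lam φ ∈ S := by
    induction h using Submodule.span_induction with
    | mem φ h =>
      obtain ⟨ψ, hψ, hφ⟩ := h
      intro lam
      have h1 : fcmp lam φ = lam 1 • ψ := by
        ext v
        rw [fcmp_apply, hφ, Algebra.algebraMap_eq_smul_one, map_smul, smul_eq_mul, mul_comm]
        rfl
      rw [h1]
      exact S.smul_mem _ hψ
    | zero =>
      intro lam
      rw [fcmp_zero]
      exact S.zero_mem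
    | add a b _ _ ha hb =>
      intro lam
      have h1 : fcmp lam (a + b) = fcmp lam a + fcmp lam b := by
        ext v
        exact map_add lam _ _
      rw [h1]
      exact S.add_mem (ha lam) (hb lam)
    | smul c a _ ha =>
      intro lam
      have h1 : fcmp lam (c • a) = fcmp (lam ∘ₗ LinearMap.mulLeft F c) a := by
        ext v
        rfl
      rw [h1]
      exact ha _
  exact key lam

theorem eq_zero_of_cmpE {X : Module.End k (k ⊗[F] W)} (h : ∀ lam : k →ₗ[F] F, cmpE lam X = 0) :
    X = 0 := by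
  have h1 : ∀ w : W, X ((1 : k) ⊗ₜ[F] w) = 0 := by
    intro w
    apply eq_zero_of_cmp (k := F)
    intro lam
    rw [← cmpE_apply, h, LinearMap.zero_apply]
  refine LinearMap.ext fun z => ?_
  induction z with
  | zero => rw [map_zero, LinearMap.zero_apply]
  | add x y hx hy => rw [map_add, hx, hy, LinearMap.zero_apply, LinearMap.zero_apply,
      LinearMap.zero_apply, add_zero]
  | tmul c w =>
    have h2 : c ⊗ₜ[F] w = c • ((1 : k) ⊗ₜ[F] w) := by rw [smul_tmul', smul_eq_mul, mul_one]
    rw [h2, map_smul, h1, smul_zero, LinearMap.zero_apply]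

end Cmp

section Odd

variable {V : Type} [AddCommGroup V] [Module ℚ V] [FiniteDimensional ℚ V] (H : PolarizedHodge V)

/-- Hodge forms vanish on rational homogeneous vectors whose weights have an odd sum. -/
theorem hodge_odd_rat {n : ℕ} {ψ : MultilinearMap ℚ (fun _ : Fin n => V) ℚ} (h : IsHodge H ψ)
    {w : Fin n → ℤ} {v : Fin n → V} (hv : ∀ i, v i ∈ H.wt (w i)) (ho : Odd (∑ i, w i)) :
    ψ v = 0 := by
  obtain ⟨φ, hφ, h⟩ := h
  have h1 : φ.compLinearMap (fun i => pr (wtK H ℂ) (w i)) = 0 := by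
    apply form_ext_internal H.hdg_internal
    intro t x hx
    rw [MultilinearMap.compLinearMap_apply, _root_.zero_apply]
    have h2 : ∀ i, x i ∈ (H.wt ((t i).1 + (t i).2)).baseChange ℂ := fun i =>
      H.hdg_le (t i).1 (t i).2 (hx i)
    by_cases h3 : ∀ i, (t i).1 + (t i).2 = w i
    · have h4 : (fun i => pr (wtK H ℂ) (w i) (x i)) = x := by
        funext i
        rw [← h3 i]
        exact pr_same (wtK H ℂ) (h2 i)
      rw [h4]
      refine h t x hx fun h5 => ?_
      have h6 : ∑ i, w i = 2 * ∑ i, (t i).1 := by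
        rw [two_mul]
        conv_rhs => rw [h5, ← h5, h5]
        have h7 : ∑ i, w i = ∑ i, (t i).1 + ∑ i, (t i).2 := by
          rw [← Finset.sum_add_distrib]
          exact Finset.sum_congr rfl fun i _ => (h3 i).symm
        rw [h7, h5]
      rw [h6] at ho
      exact (Int.not_odd_iff_even.2 (even_two_mul _)) ho
    · rw [not_forall] at h3
      obtain ⟨i, hi⟩ := h3
      exact φ.map_coord_zero i (pr_ne (wtK H ℂ) (h2 i) hi)
  have h2 := congrArg (fun F : MultilinearMap ℂ (fun _ : Fin n => ℂ ⊗[ℚ] V) ℂ =>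
    F (fun i => (1 : ℂ) ⊗ₜ[ℚ] v i)) h1
  simp only [MultilinearMap.compLinearMap_apply, _root_.zero_apply] at h2
  have h3 : (fun i => pr (wtK H ℂ) (w i) ((1 : ℂ) ⊗ₜ[ℚ] v i)) = fun i => (1 : ℂ) ⊗ₜ[ℚ] v i := by
    funext i
    exact pr_same (wtK H ℂ) (one_tmul_mem H (hv i))
  rw [h3, hφ] at h2
  exact (map_eq_zero (algebraMap ℚ ℂ)).1 h2

/-- The same over a field extension. -/
theorem hodge_odd {K : Type} [Field K] [CharZero K] {n : ℕ}
    {ψ : MultilinearMap ℚ (fun _ : Fin n => V) ℚ} (h : IsHodge H ψ)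
    {φ : MultilinearMap K (fun _ : Fin n => K ⊗[ℚ] V) K} (hφ : Extends K φ ψ)
    {w : Fin n → ℤ} {v : Fin n → K ⊗[ℚ] V} (hv : ∀ i, v i ∈ (H.wt (w i)).baseChange K)
    (ho : Odd (∑ i, w i)) : φ v = 0 := by
  have h1 : φ.compLinearMap (fun i => pr (wtK H K) (w i)) = 0 := by
    refine Basis.ext_multilinear (fun _ => (hbasis H.wt_internal).baseChange K) fun I => ?_
    rw [MultilinearMap.compLinearMap_apply, _root_.zero_apply]
    have h2 : ∀ i, (hbasis H.wt_internal).baseChange K (I i) ∈
        (H.wt (I i).1).baseChange K := by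
      intro i
      rw [Basis.baseChange_apply]
      exact one_tmul_mem H (hbasis_mem H.wt_internal (I i))
    by_cases h3 : ∀ i, (I i).1 = w i
    · have h4 : (fun i => pr (wtK H K) (w i) ((hbasis H.wt_internal).baseChange K (I i))) =
          fun i => (1 : K) ⊗ₜ[ℚ] (hbasis H.wt_internal) (I i) := by
        funext i
        rw [← h3 i, pr_same (wtK H K) (h2 i), Basis.baseChange_apply]
      rw [h4, hφ, hodge_odd_rat H h (fun i => hbasis_mem H.wt_internal (I i)), map_zero]
      have h5 : ∑ i, (I i).1 = ∑ i, w i := Finset.sum_congr rfl fun i _ => h3 i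
      rw [h5]
      exact ho
    · rw [not_forall] at h3
      obtain ⟨i, hi⟩ := h3
      exact φ.map_coord_zero i (pr_ne (wtK H K) (h2 i) hi)
  have h2 := congrArg (fun F : MultilinearMap K (fun _ : Fin n => K ⊗[ℚ] V) K => F v) h1
  simp only [MultilinearMap.compLinearMap_apply, _root_.zero_apply] at h2
  have h3 : (fun i => pr (wtK H K) (w i) (v i)) = v := by
    funext i
    exact pr_same (wtK H K) (hv i)
  rwa [h3] at h2

end Odd

section Tate

variable {V : Type} [AddCommGroup V] [Module ℚ V] [FiniteDimensional ℚ V] {H : PolarizedHodge V}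
  {K : Type} [Field K] [CharZero K] {Γ : Type} [Group Γ]
  {ρ : Representation K Γ (K ⊗[ℚ] V)} {χ : Γ →* K}

/-- The Tate forms form a subspace. -/
theorem isTate_zero {n : ℕ} :
    IsTate H ρ χ (0 : MultilinearMap K (fun _ : Fin n => K ⊗[ℚ] V) K) :=
  ⟨⊤, inferInstance, fun _ _ _ => ⟨fun _ => rfl, fun _ _ _ _ => by
    rw [_root_.zero_apply, _root_.zero_apply, mul_zero]⟩⟩

theorem isTate_add {n : ℕ} {φ ψ : MultilinearMap K (fun _ : Fin n => K ⊗[ℚ] V) K}
    (h : IsTate H ρ χ φ) (h' : IsTate H ρ χ ψ) : IsTate H ρ χ (φ + ψ) := by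
  obtain ⟨Δ, hΔ, h⟩ := h
  obtain ⟨Δ', hΔ', h'⟩ := h'
  refine ⟨Δ ⊓ Δ', inferInstance, fun w v hv => ⟨fun ho => ?_, fun m hm s hs => ?_⟩⟩
  · rw [_root_.add_apply, (h w v hv).1 ho, (h' w v hv).1 ho, add_zero]
  · rw [_root_.add_apply, _root_.add_apply, (h w v hv).2 m hm s hs.1, (h' w v hv).2 m hm s hs.2,
      mul_add]

theorem isTate_smul {n : ℕ} {φ : MultilinearMap K (fun _ : Fin n => K ⊗[ℚ] V) K} (c : K)
    (h : IsTate H ρ χ φ) : IsTate H ρ χ (c • φ) := by
  obtain ⟨Δ, hΔ, h⟩ := h
  refine ⟨Δ, hΔ, fun w v hv => ⟨fun ho => ?_, fun m hm s hs => ?_⟩⟩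
  · rw [_root_.smul_apply, (h w v hv).1 ho, smul_zero]
  · rw [_root_.smul_apply, _root_.smul_apply, (h w v hv).2 m hm s hs, smul_eq_mul, smul_eq_mul]
    ring

theorem isTate_combos {n : ℕ} {P : MultilinearMap ℚ (fun _ : Fin n => V) ℚ → Prop}
    (hP : ∀ ψ, P ψ → ∀ φ, Extends K φ ψ → IsTate H ρ χ φ)
    {φ : MultilinearMap K (fun _ : Fin n => K ⊗[ℚ] V) K} (h : φ ∈ combos K P) :
    IsTate H ρ χ φ := by
  unfold combos at h
  induction h using Submodule.span_induction with
  | mem φ h =>
    obtain ⟨ψ, h1, h2⟩ := h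
    exact hP ψ h1 φ h2
  | zero => exact isTate_zero
  | add a b _ _ ha hb => exact isTate_add ha hb
  | smul c a _ ha => exact isTate_smul c ha

end Tate

end Pool.Agent.Y111.MM
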