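import Mathlib
import Pool.Agent.Y111.MM.Main

/-!
# The degree four theorem
-/

set_option linter.unusedSectionVars false

namespace Pool.Agent.Y111.MM

open Module TensorProduct Pool.Agent.H204R3.SP Pool.Agent.W516.DR Pool.Agent.W516 CG

open Pool.Agent.W516.KC (IsSkew)

open Pool.Agent.W516.KC2

section Four

variable {k W : Type} [Field k] [CharZero k] [AddCommGroup W] [Module k W] [FiniteDimensional k W]

/-- The Casimir form in four variables. -/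
noncomputable def cas (𝔥 : Submodule k (Module.End k W)) (hnt : TraceNondeg 𝔥)
    (ω : W →ₗ[k] W →ₗ[k] k) : MultilinearMap k (fun _ : Fin 4 => W) k :=
  (casimir 𝔥 hnt ω).domDomCongr finProdFinEquiv

theorem ann_cas {𝔥 : Submodule k (Module.End k W)} {hnt : TraceNondeg 𝔥}
    {ω : W →ₗ[k] W →ₗ[k] k} {Z : Module.End k W} :
    Annihilates Z (cas 𝔥 hnt ω) ↔ Kills Z (casimir 𝔥 hnt ω) :=
  kills_reindex finProdFinEquiv Z (casimir 𝔥 hnt ω)

end Four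

section Main

variable {V : Type} [AddCommGroup V] [Module ℚ V] [FiniteDimensional ℚ V] (H : PolarizedHodge V)

/-- The rational weight projections are Hodge. -/
theorem isHodge_pr (w : ℤ) : IsHodge H (bil (LinearMap.comp H.S (pr H.wt_internal w))) := by
  have hS : ∀ x : ℂ ⊗[ℚ] V, (pr H.wt_internal w).baseChange ℂ x = pr (wtK H ℂ) w x := by
    have h1 : (pr H.wt_internal w).baseChange ℂ = pr (wtK H ℂ) w := by
      refine ((hbasis H.wt_internal).baseChange ℂ).ext fun a => ?_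
      have h2 := hbasis_mem H.wt_internal a
      rw [Basis.baseChange_apply, LinearMap.baseChange_tmul]
      by_cases h : a.1 = w
      · subst h
        rw [pr_same H.wt_internal h2, pr_same (wtK H ℂ) (one_tmul_mem H h2)]
      · rw [pr_ne H.wt_internal h2 h, pr_ne (wtK H ℂ) (one_tmul_mem H h2) h, tmul_zero]
    intro x
    rw [h1]
  refine ⟨bil (LinearMap.comp (Sc H) (pr (wtK H ℂ) w)), fun v => ?_, fun t v hv hne => ?_⟩
  · rw [bil_apply, bil_apply, LinearMap.comp_apply, LinearMap.comp_apply, ← hS,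
      LinearMap.baseChange_tmul]
    exact ext_one H.S _ _
  · rw [bil_apply, LinearMap.comp_apply]
    have hv0 : v 0 ∈ H.hdg ((t 0).1, (t 0).2) := hv 0
    have hv1 : v 1 ∈ H.hdg ((t 1).1, (t 1).2) := hv 1
    have h1 : Sc H (v 0) (v 1) = 0 := by
      refine H.orth _ _ _ _ (fun h => hne ?_) _ hv0 _ hv1
      rw [Fin.sum_univ_two, Fin.sum_univ_two, (Prod.ext_iff.1 h).1, (Prod.ext_iff.1 h).2]
      exact add_comm _ _
    rw [pr_wt, diag_apply _ _ hv0, map_smul, LinearMap.smul_apply, h1, smul_zero]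

variable {H} in
theorem mem_hodgeLie_wt {X : Module.End ℚ V} (hX : X ∈ hodgeLie H) (w : ℤ) :
    X * pr H.wt_internal w = pr H.wt_internal w * X :=
  (ann_bil_comp (skew_of_mem H hX) (fun _ h => S_nondeg H h)).1 (hX 2 _ (isHodge_pr H w))

variable {ℓ : ℕ} [hℓ : Fact ℓ.Prime] {Γ : Type} [Group Γ] [TopologicalSpace Γ]
  [IsTopologicalGroup Γ] [CompactSpace Γ]
  {ρ : Representation ℚ_[ℓ] Γ (ℚ_[ℓ] ⊗[ℚ] V)} {χ : Γ →* ℚ_[ℓ]}
  (hG : IsGalois H ρ χ) (hc : IsContinuous ρ χ) (hss : Semisimple ρ)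
  (A : ∀ n : ℕ, Submodule ℚ (MultilinearMap ℚ (fun _ : Fin n => V) ℚ))

/-- The Lie algebra of the motivated forms. -/
noncomputable abbrev motLie (A : ∀ n : ℕ, Submodule ℚ (MultilinearMap ℚ (fun _ : Fin n => V) ℚ)) :
    Submodule ℚ (Module.End ℚ V) := lieOf (fun n ψ => ψ ∈ A n)

variable {A}
  (hAH : ∀ n, ∀ ψ ∈ A n, IsHodge H ψ)
  (hAT : ∀ n, ∀ ψ ∈ A n, ∀ φ, Extends ℚ_[ℓ] φ ψ → IsTate H ρ χ φ)
  (hH2 : ∀ ψ : MultilinearMap ℚ (fun _ : Fin 2 => V) ℚ, IsHodge H ψ → ψ ∈ A 2)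
  (hH4 : ∀ ψ : MultilinearMap ℚ (fun _ : Fin 4 => V) ℚ, IsHodge H ψ → ψ ∈ A 4)
  (hT2 : ∀ φ : MultilinearMap ℚ_[ℓ] (fun _ : Fin 2 => ℚ_[ℓ] ⊗[ℚ] V) ℚ_[ℓ],
    IsTate H ρ χ φ → φ ∈ combos ℚ_[ℓ] (fun ψ => ψ ∈ A 2))
  (hT4 : ∀ φ : MultilinearMap ℚ_[ℓ] (fun _ : Fin 4 => ℚ_[ℓ] ⊗[ℚ] V) ℚ_[ℓ],
    IsTate H ρ χ φ → φ ∈ combos ℚ_[ℓ] (fun ψ => ψ ∈ A 4))
  (hZ : ∀ C : Module.End ℚ V, C ∈ motLie A → bil (LinearMap.comp H.S C) ∈ A 2 →
    C ∈ hodgeLie H ∧ C.baseChange ℚ_[ℓ] ∈ tateLie H ρ χ)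

include hAH in
theorem hodge_le_mot : hodgeLie H ≤ motLie A := fun _ hX n ψ hψ => hX n ψ (hAH n ψ hψ)

include hH2 in
/-- The endomorphisms commuting with the Lie algebra are given by motivated forms. -/
theorem mem_A2 {P : Module.End ℚ V} (h : ∀ X ∈ hodgeLie H, X * P = P * X) :
    bil (LinearMap.comp H.S P) ∈ A 2 :=
  hH2 _ (isHodge_of_ann H fun X hX =>
    (ann_bil_comp (skew_of_mem H hX) (fun _ h => S_nondeg H h)).2 (h X hX))

include hAH in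
theorem comm_of_A2 {P : Module.End ℚ V} (h : bil (LinearMap.comp H.S P) ∈ A 2)
    {X : Module.End ℚ V} (hX : X ∈ hodgeLie H) : X * P = P * X :=
  (ann_bil_comp (skew_of_mem H hX) (fun _ h => S_nondeg H h)).1 (hX 2 _ (hAH 2 _ h))

include hH2 in
theorem skew_mot {X : Module.End ℚ V} (hX : X ∈ motLie A) (u v : V) :
    H.S (X u) v + H.S u (X v) = 0 :=
  ann_bil.1 (hX 2 _ (hH2 _ (isHodge_S H))) u v

include hAH hH2 hH4 hZ in
/-- The Hodge half. -/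
theorem mot_eq_hodge : motLie A = hodgeLie H := by
  refine le_antisymm (fun X hX => ?_) (hodge_le_mot H hAH)
  have hnt := traceNondeg_hodge H
  have h1 : cas (hodgeLie H) hnt H.S ∈ A 4 := by
    refine hH4 _ (isHodge_of_ann H fun Y hY => ?_)
    rw [ann_cas]
    exact casimir_kills (hodgeLie H) hnt H.S (skew_of_mem H hY)
      (fun Z hZ' => lieOf_bracket hY hZ')
  obtain ⟨Y, hY, hcomm⟩ := mem_of_kills_casimir (hodgeLie H) hnt H.S
    (fun X hX Y hY => lieOf_bracket hX hY) (fun _ h => S_nondeg H h) (skew_mot H hH2 hX)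
    (ann_cas.1 (hX 4 _ h1))
  have h2 : X - Y ∈ motLie A := Submodule.sub_mem _ hX (hodge_le_mot H hAH hY)
  have h3 := (hZ _ h2 (mem_A2 H hH2 hcomm)).1
  have h4 := Submodule.add_mem _ h3 hY
  rwa [sub_add_cancel] at h4

include hAT in
theorem tate_le_mot : tateLie H ρ χ ≤ extEnd ℚ_[ℓ] (fun X => X ∈ motLie A) := by
  intro X hX
  rw [mem_extEnd_iff]
  intro n ψ hψ φ hφ
  exact hX n φ (hAT n ψ hψ φ hφ)

/-- The components of the form associated with an endomorphism. -/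
theorem fcmp_bil (P : Module.End ℚ_[ℓ] (ℚ_[ℓ] ⊗[ℚ] V)) (lam : ℚ_[ℓ] →ₗ[ℚ] ℚ) :
    fcmp lam (bil (LinearMap.comp (SK H ℚ_[ℓ]) P)) =
      bil (LinearMap.comp H.S (cmpE lam P)) := by
  ext v
  rw [fcmp_apply, bil_apply, bil_apply, LinearMap.comp_apply, LinearMap.comp_apply,
    lam_omega H.S (SK H ℚ_[ℓ]) (fun u v => ext_one H.S u v), cmpE_apply]

include hG hc hAT hT2 in
/-- The components of an endomorphism commuting with the Tate Lie algebra. -/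
theorem cmpE_mem {P : Module.End ℚ_[ℓ] (ℚ_[ℓ] ⊗[ℚ] V)}
    (hP : ∀ X ∈ tateLie H ρ χ, X * P = P * X)
    (hw : ∀ w, ∀ v ∈ (H.wt w).baseChange ℚ_[ℓ], P v ∈ (H.wt w).baseChange ℚ_[ℓ])
    (lam : ℚ_[ℓ] →ₗ[ℚ] ℚ) : bil (LinearMap.comp H.S (cmpE lam P)) ∈ A 2 := by
  rw [← fcmp_bil]
  refine fcmp_of_combos (A 2) (hT2 _ (isTate_of_ann hG hc (fun X hX => ?_) ?_)) lam
  · exact (ann_bil_comp (skew_tate hG hX) (SK_nondeg H)).2 (hP X hX)
  · intro w v hv ho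
    rw [Fin.sum_univ_two] at ho
    rw [bil_apply, LinearMap.comp_apply]
    refine SK_orth H (w := w 0) (w' := w 1) (fun h => ?_) (hw _ _ (hv 0)) (hv 1)
    rw [h] at ho
    exact (Int.not_odd_iff_even.2 ⟨_, rfl⟩) ho

include hG hc hss hAH hAT hT2 hZ in
/-- The trace form of the Tate Lie algebra is nondegenerate. -/
theorem traceNondeg_tate : TraceNondeg (tateLie H ρ χ) := by
  intro X hX htr
  have hcen := central_tate hG hss hX htr
  have h1 := fun lam => cmpE_mem H hG hc hAT hT2 hcen (fun w v hv => tate_wt hG hX w hv) lam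
  have h2 : ∀ lam, cmpE lam X ∈ motLie A := fun lam => cmp_of_ext _ (tate_le_mot H hAT hX) lam
  apply eq_zero_of_cmpE (F := ℚ)
  intro lam
  obtain ⟨h3, h4⟩ := hZ _ (h2 lam) (h1 lam)
  refine eq_zero_of_trace_sq H (skew_of_mem H h3)
    (fun Y hY => comm_of_A2 H hAH (h1 lam) hY) ?_
  have h5 := htr _ h4
  rw [← cmpE_mul', ← trace_cmp', h5, map_zero]

include hG hc hss hAH hAT hH2 hH4 hT2 hT4 hZ in
/-- The Tate half. -/
theorem tate_eq_mot : tateLie H ρ χ = extEnd ℚ_[ℓ] (fun X => X ∈ motLie A) := by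
  refine le_antisymm (tate_le_mot H hAT) fun Z hZm => ?_
  have hnt := traceNondeg_tate H hG hc hss hAH hAT hT2 hZ
  set 𝔥 := tateLie H ρ χ with h𝔥
  have hZann : ∀ n ψ, ψ ∈ A n → ∀ φ, Extends ℚ_[ℓ] φ ψ → Annihilates Z φ :=
    (mem_extEnd_iff (fun n ψ => ψ ∈ A n) Z).1 hZm
  have hsk : ∀ X ∈ 𝔥, IsSkew (SK H ℚ_[ℓ]) X := fun X hX => skew_tate hG hX
  -- the Casimir form is a Tate form
  have hwtE : ∀ u v, ∀ w, ∀ x ∈ (H.wt w).baseChange ℚ_[ℓ],
      EE 𝔥 hnt (SK H ℚ_[ℓ]) u v x ∈ (H.wt w).baseChange ℚ_[ℓ] := fun u v w x hx =>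
    tate_wt hG (EE_mem 𝔥 hnt _ u v) w hx
  have hE0 : ∀ {w w' : ℤ} {u v : ℚ_[ℓ] ⊗[ℚ] V}, w ≠ w' → u ∈ (H.wt w).baseChange ℚ_[ℓ] →
      v ∈ (H.wt w').baseChange ℚ_[ℓ] → EE 𝔥 hnt (SK H ℚ_[ℓ]) u v = 0 := by
    intro w w' u v hne hu hv
    refine hnt _ (EE_mem 𝔥 hnt _ u v) fun Y hY => ?_
    rw [EE_trace 𝔥 hnt _ u v hY]
    exact SK_orth H hne (tate_wt hG hY w hu) hv
  have hTc : IsTate H ρ χ (cas 𝔥 hnt (SK H ℚ_[ℓ])) := by
    refine isTate_of_ann hG hc (fun X hX => ?_) fun w v hv ho => ?_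
    · rw [ann_cas]
      exact casimir_kills 𝔥 hnt _ (hsk X hX) (fun Y hY => lieOf_bracket hX hY)
    · unfold cas
      rw [MultilinearMap.domDomCongr_apply, KC2.casimir_apply]
      have e0 : finProdFinEquiv ((0, 0) : Fin 2 × Fin 2) = (0 : Fin 4) := rfl
      have e1 : finProdFinEquiv ((0, 1) : Fin 2 × Fin 2) = (1 : Fin 4) := rfl
      have e2 : finProdFinEquiv ((1, 0) : Fin 2 × Fin 2) = (2 : Fin 4) := rfl
      have e3 : finProdFinEquiv ((1, 1) : Fin 2 × Fin 2) = (3 : Fin 4) := rfl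
      rw [e0, e1, e2, e3]
      by_cases h01 : w 0 = w 1
      · refine SK_orth H (w := w 2) (w' := w 3) (fun h => ?_) (hwtE _ _ _ _ (hv 2)) (hv 3)
        rw [Fin.sum_univ_four, h01, h, add_assoc] at ho
        exact (Int.not_odd_iff_even.2 (Even.add ⟨_, rfl⟩ ⟨_, rfl⟩)) ho
      · rw [hE0 h01 (hv 0) (hv 1), LinearMap.zero_apply, map_zero, LinearMap.zero_apply]
  have hZc : Annihilates Z (cas 𝔥 hnt (SK H ℚ_[ℓ])) :=
    ann_of_combos (hT4 _ hTc) (fun ψ hψ φ hφ => hZann 4 ψ hψ φ hφ)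
  have hZsk : IsSkew (SK H ℚ_[ℓ]) Z :=
    ann_bil.1 (hZann 2 _ (hH2 _ (isHodge_S H)) _ (extends_bil H.S))
  obtain ⟨Y, hY, hcomm⟩ := mem_of_kills_casimir 𝔥 hnt (SK H ℚ_[ℓ])
    (fun X hX Y hY => lieOf_bracket hX hY) (SK_nondeg H) hZsk (ann_cas.1 hZc)
  -- the difference
  have hPm : Z - Y ∈ extEnd ℚ_[ℓ] (fun X => X ∈ motLie A) :=
    Submodule.sub_mem _ hZm (tate_le_mot H hAT hY)
  have hwt : ∀ Q ∈ motLie A, ∀ w, Q * pr H.wt_internal w = pr H.wt_internal w * Q := by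
    intro Q hQ w
    rw [mot_eq_hodge H hAH hH2 hH4 hZ] at hQ
    exact mem_hodgeLie_wt hQ w
  have hPw : ∀ w, ∀ v ∈ (H.wt w).baseChange ℚ_[ℓ], (Z - Y) v ∈ (H.wt w).baseChange ℚ_[ℓ] := by
    have key : ∀ Q ∈ extEnd ℚ_[ℓ] (fun X => X ∈ motLie A), ∀ w,
        ∀ v ∈ (H.wt w).baseChange ℚ_[ℓ], Q v ∈ (H.wt w).baseChange ℚ_[ℓ] := by
      intro Q hQ w v hv
      unfold extEnd at hQ
      induction hQ using Submodule.span_induction with
      | mem Q hQ =>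
        obtain ⟨Q₀, hQ₀, rfl⟩ := hQ
        refine wt_induction H (P := fun x => Q₀.baseChange ℚ_[ℓ] x ∈ (H.wt w).baseChange ℚ_[ℓ])
          (fun u hu => ?_) ?_ ?_ ?_ hv
        · rw [LinearMap.baseChange_tmul]
          exact one_tmul_mem H (mem_of_comm_pr H.wt_internal (hwt Q₀ hQ₀) w hu)
        · rw [map_zero]
          exact Submodule.zero_mem _
        · intro x y hx hy
          rw [map_add]
          exact Submodule.add_mem _ hx hy
        · intro c x hx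
          rw [map_smul]
          exact Submodule.smul_mem _ _ hx
      | zero => exact Submodule.zero_mem _
      | add a b _ _ ha hb => exact Submodule.add_mem _ ha hb
      | smul c a _ ha => exact Submodule.smul_mem _ _ ha
    exact key _ hPm
  have h1 : ∀ lam : ℚ_[ℓ] →ₗ[ℚ] ℚ, (cmpE lam (Z - Y)).baseChange ℚ_[ℓ] ∈ 𝔥 := by
    intro lam
    exact (hZ _ (cmp_of_ext _ hPm lam) (cmpE_mem H hG hc hAT hT2 hcomm hPw lam)).2
  have h2 : Z - Y ∈ 𝔥 := by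
    have h3 := end_mem_span (fun Q : V →ₗ[ℚ] V => Q.baseChange ℚ_[ℓ] ∈ 𝔥) (Z - Y) h1
    unfold extEnd at h3
    refine (Submodule.span_le.2 ?_) h3
    rintro _ ⟨Q, hQ, rfl⟩
    exact hQ
  have h3 := Submodule.add_mem _ h2 hY
  rwa [sub_add_cancel] at h3

include hG hc hss hAH hAT hH2 hH4 hT2 hT4 hZ in
/-- **The degree four theorem.** -/
theorem degree_four :
    (∀ n (ψ : MultilinearMap ℚ (fun _ : Fin n => V) ℚ),
      IsHodge H ψ ↔ ∀ X ∈ motLie A, Annihilates X ψ) ∧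
    ∀ n (φ : MultilinearMap ℚ_[ℓ] (fun _ : Fin n => ℚ_[ℓ] ⊗[ℚ] V) ℚ_[ℓ]),
      IsTate H ρ χ φ ↔ φ ∈ combos ℚ_[ℓ] (IsHodge H) := by
  have h1 := mot_eq_hodge H hAH hH2 hH4 hZ
  have h2 := tate_eq_mot H hG hc hss hAH hAT hH2 hH4 hT2 hT4 hZ
  rw [h1] at h2
  refine ⟨fun n ψ => ?_, fun n φ => ⟨fun h => ?_, fun h => ?_⟩⟩
  · rw [h1]
    exact ⟨fun h X hX => hX n ψ h, fun h => isHodge_of_ann H h⟩
  · refine combos_mono (fun ψ hψ => isHodge_of_ann H hψ) (ann_ext_forms _ ?_)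
    intro Z hZ'
    rw [← h2] at hZ'
    exact hZ' n φ h
  · refine isTate_combos (fun ψ hψ φ hφ => ?_) h
    refine isTate_of_ann hG hc (fun X hX => ?_) (fun w v hv ho => hodge_odd H hψ hφ hv ho)
    rw [h2] at hX
    exact (mem_extEnd_iff _ X).1 hX n ψ hψ φ hφ

end Main

end Pool.Agent.Y111.MM
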