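import Mathlib
import Pool.Agent.Y111.MM.Degree4

/-!
# The degree four theorem as an equivalence
-/

set_option linter.unusedSectionVars false

namespace Pool.Agent.Y111.MM

open Module TensorProduct Pool.Agent.H204R3.SP Pool.Agent.W516.DR

section Main

variable {V : Type} [AddCommGroup V] [Module ℚ V] [FiniteDimensional ℚ V] (H : PolarizedHodge V)
  {ℓ : ℕ} [hℓ : Fact ℓ.Prime] {Γ : Type} [Group Γ] [TopologicalSpace Γ]
  [IsTopologicalGroup Γ] [CompactSpace Γ]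
  (ρ : Representation ℚ_[ℓ] Γ (ℚ_[ℓ] ⊗[ℚ] V)) (χ : Γ →* ℚ_[ℓ])

/-- The space of the potentially motivated forms. -/
def potA (A : ∀ n : ℕ, Submodule ℚ (MultilinearMap ℚ (fun _ : Fin n => V) ℚ)) (n : ℕ) :
    Submodule ℚ (MultilinearMap ℚ (fun _ : Fin n => V) ℚ) where
  carrier := {ψ | IsPotMotivated A ψ}
  zero_mem' := fun X _ v => Finset.sum_eq_zero fun _ _ => rfl
  add_mem' := by
    intro a b ha hb X hX v
    have h3 := congrArg₂ (fun x y : ℚ => x + y) (ha X hX v) (hb X hX v)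
    simp only [add_zero] at h3
    rw [← h3, ← Finset.sum_add_distrib]
    rfl
  smul_mem' := by
    intro c a ha X hX v
    rw [← mul_zero c, ← ha X hX v, Finset.mul_sum]
    rfl

theorem mem_potA {A : ∀ n : ℕ, Submodule ℚ (MultilinearMap ℚ (fun _ : Fin n => V) ℚ)} {n : ℕ}
    {ψ : MultilinearMap ℚ (fun _ : Fin n => V) ℚ} : ψ ∈ potA A n ↔ IsPotMotivated A ψ := Iff.rfl

theorem motLie_potA (A : ∀ n : ℕ, Submodule ℚ (MultilinearMap ℚ (fun _ : Fin n => V) ℚ)) :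
    motLie (potA A) = motLie A :=
  le_antisymm (fun _ hX n ψ hψ => hX n ψ fun _ hY => hY n ψ hψ)
    (fun X hX _ _ hψ => hψ X hX)

/-- **The theorem.** -/
theorem agree_iff (hG : IsGalois H ρ χ) (hc : IsContinuous ρ χ) (hss : Semisimple ρ)
    (A : ∀ n : ℕ, Submodule ℚ (MultilinearMap ℚ (fun _ : Fin n => V) ℚ))
    (hAH : ∀ n, ∀ ψ ∈ A n, IsHodge H ψ)
    (hAT : ∀ n, ∀ ψ ∈ A n, ∀ φ, Extends ℚ_[ℓ] φ ψ → IsTate H ρ χ φ) :
    (∀ n, Agree H ρ χ A n) ↔
      (Agree H ρ χ A 2 ∧ Agree H ρ χ A 4 ∧ AgreeCentre H ρ χ A) := by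
  constructor
  · intro h
    refine ⟨h 2, h 4, fun C hC _ => ⟨fun n ψ hψ => ((h n).1 ψ).1 hψ C hC, fun n φ hφ => ?_⟩⟩
    refine ann_of_combos (((h n).2 φ).1 hφ) fun ψ hψ φ hφ => ?_
    exact (mem_extEnd_iff (fun n ψ => ψ ∈ potA A n) (C.baseChange ℚ_[ℓ])).1
      (Submodule.subset_span ⟨C, by
        change C ∈ motLie (potA A)
        rw [motLie_potA]
        exact hC, rfl⟩) n ψ hψ φ hφ
  · rintro ⟨h2, h4, hZ⟩
    have hAH' : ∀ n, ∀ ψ ∈ potA A n, IsHodge H ψ := fun n ψ hψ =>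
      isHodge_of_ann H fun X hX => hψ X (hodge_le_mot H hAH hX)
    have hAT' : ∀ n, ∀ ψ ∈ potA A n, ∀ φ, Extends ℚ_[ℓ] φ ψ → IsTate H ρ χ φ := by
      intro n ψ hψ φ hφ
      refine isTate_of_ann hG hc (fun X hX => ?_)
        (fun w v hv ho => hodge_odd H (hAH' n ψ hψ) hφ hv ho)
      have h1 := tate_le_mot H hAT hX
      rw [← motLie_potA] at h1
      exact (mem_extEnd_iff (fun n ψ => ψ ∈ potA A n) X).1 h1 n ψ hψ φ hφ
    have key := degree_four H hG hc hss (A := potA A) hAH' hAT' (fun ψ hψ => (h2.1 ψ).1 hψ)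
      (fun ψ hψ => (h4.1 ψ).1 hψ) (fun φ hφ => (h2.2 φ).1 hφ) (fun φ hφ => (h4.2 φ).1 hφ) (by
        intro C hC hCA
        rw [motLie_potA] at hC
        refine hZ C hC fun X hX => ?_
        have hsk : ∀ u v, H.S (X u) v + H.S u (X v) = 0 :=
          ann_bil.1 ((h2.1 _).1 (isHodge_S H) X hX)
        exact (ann_bil_comp hsk (fun _ h => S_nondeg H h)).1 (hCA X hX))
    have key1 : ∀ n (ψ : MultilinearMap ℚ (fun _ : Fin n => V) ℚ),
        IsHodge H ψ ↔ IsPotMotivated A ψ := by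
      intro n ψ
      rw [key.1 n ψ, motLie_potA]
      exact Iff.rfl
    intro n
    refine ⟨key1 n, fun φ => ?_⟩
    rw [key.2 n φ]
    have h5 : (fun ψ : MultilinearMap ℚ (fun _ : Fin n => V) ℚ => IsHodge H ψ) =
        fun ψ => IsPotMotivated A ψ := by
      funext ψ
      exact propext (key1 n ψ)
    change φ ∈ combos ℚ_[ℓ] (fun ψ => IsHodge H ψ) ↔ φ ∈ combos ℚ_[ℓ] (fun ψ => IsPotMotivated A ψ)
    rw [h5]

end Main

end Pool.Agent.Y111.MM
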