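import Mathlib
import Pool.Agent.Y111.MM.Final

/-!
# Degree four implies degree two
-/

set_option linter.unusedSectionVars false

namespace Pool.Agent.Y111.MM

open Module TensorProduct Pool.Agent.H204R3.SP Pool.Agent.W516.DR

section Tens

variable {F : Type} [Field F] {V : Type} [AddCommGroup V] [Module F V]

/-- The product of two forms in two variables. -/
noncomputable def tens (ψ ω : MultilinearMap F (fun _ : Fin 2 => V) F) :
    MultilinearMap F (fun _ : Fin 4 => V) F :=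
  ((LinearMap.mul' F F).compMultilinearMap (ψ.domCoprod ω)).domDomCongr finSumFinEquiv

theorem tens_apply (ψ ω : MultilinearMap F (fun _ : Fin 2 => V) F) (v : Fin 4 → V) :
    tens ψ ω v = ψ ![v 0, v 1] * ω ![v 2, v 3] := by
  have h1 : tens ψ ω v = ψ (fun i => v (finSumFinEquiv (Sum.inl i : Fin 2 ⊕ Fin 2))) *
      ω (fun i => v (finSumFinEquiv (Sum.inr i : Fin 2 ⊕ Fin 2))) := rfl
  rw [h1]
  congr 2
  · funext i
    fin_cases i <;> rfl
  · funext i
    fin_cases i <;> rfl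

theorem ann_tens (ψ ω : MultilinearMap F (fun _ : Fin 2 => V) F) (X : Module.End F V)
    (a b c d : V) :
    ∑ i, tens ψ ω (Function.update ![a, b, c, d] i (X (![a, b, c, d] i))) =
      (ψ ![X a, b] + ψ ![a, X b]) * ω ![c, d] + ψ ![a, b] * (ω ![X c, d] + ω ![c, X d]) := by
  rw [Fin.sum_univ_four]
  simp only [tens_apply]
  simp [Function.update]
  ring

theorem ann_two (ψ : MultilinearMap F (fun _ : Fin 2 => V) F) (X : Module.End F V) :
    Annihilates X ψ ↔ ∀ a b, ψ ![X a, b] + ψ ![a, X b] = 0 := by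
  have key : ∀ v : Fin 2 → V, ∑ i, ψ (Function.update v i (X (v i))) =
      ψ ![X (v 0), v 1] + ψ ![v 0, X (v 1)] := by
    intro v
    rw [Fin.sum_univ_two]
    congr 2
    · funext i
      fin_cases i <;> simp [Function.update]
    · funext i
      fin_cases i <;> simp [Function.update]
  constructor
  · intro h a b
    have h1 := h ![a, b]
    rw [key] at h1
    exact h1
  · intro h v
    rw [key]
    exact h _ _

variable [CharZero F]

/-- If the product of a form with a nonzero form, and the square of the latter, are annihilated, then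
the form is annihilated. -/
theorem ann_of_tens {ψ ω : MultilinearMap F (fun _ : Fin 2 => V) F} {X : Module.End F V}
    (hω : ∃ c d, ω ![c, d] ≠ 0) (h : Annihilates X (tens ψ ω)) (h' : Annihilates X (tens ω ω)) :
    Annihilates X ψ := by
  have h1 : ∀ a b c d, (ψ ![X a, b] + ψ ![a, X b]) * ω ![c, d] +
      ψ ![a, b] * (ω ![X c, d] + ω ![c, X d]) = 0 := by
    intro a b c d
    rw [← ann_tens, h]
  have h2 : ∀ a b c d, (ω ![X a, b] + ω ![a, X b]) * ω ![c, d] +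
      ω ![a, b] * (ω ![X c, d] + ω ![c, X d]) = 0 := by
    intro a b c d
    rw [← ann_tens, h']
  obtain ⟨c, d, hcd⟩ := hω
  have h3 : ω ![X c, d] + ω ![c, X d] = 0 := by
    have h4 := h2 c d c d
    have h5 : 2 * (ω ![X c, d] + ω ![c, X d]) * ω ![c, d] = 0 := by linear_combination h4
    rcases mul_eq_zero.1 h5 with h6 | h6
    · rcases mul_eq_zero.1 h6 with h7 | h7
      · exact absurd h7 two_ne_zero
      · exact h7
    · exact absurd h6 hcd
  rw [ann_two]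
  intro a b
  have h4 := h1 a b c d
  rw [h3, mul_zero, add_zero] at h4
  rcases mul_eq_zero.1 h4 with h5 | h5
  · exact h5
  · exact absurd h5 hcd

end Tens

section Main

variable {V : Type} [AddCommGroup V] [Module ℚ V] [FiniteDimensional ℚ V] (H : PolarizedHodge V)

theorem bil_two {F : Type} [Field F] {V : Type} [AddCommGroup V] [Module F V]
    (B : V →ₗ[F] V →ₗ[F] F) (a b : V) : bil B ![a, b] = B a b := rfl

/-- The product of a Hodge form with the polarization is a Hodge form. -/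
theorem isHodge_tens {ψ : MultilinearMap ℚ (fun _ : Fin 2 => V) ℚ} (h : IsHodge H ψ) :
    IsHodge H (tens ψ (bil H.S)) := by
  obtain ⟨φ, hφ, h⟩ := h
  refine ⟨tens φ (bil (Sc H)), fun v => ?_, fun t v hv hne => ?_⟩
  · rw [tens_apply, tens_apply, map_mul]
    congr 1
    · rw [← hφ]
      congr 1
      funext i
      fin_cases i <;> rfl
    · exact ext_one H.S _ _
  · rw [tens_apply, bil_two]
    rw [Fin.sum_univ_four, Fin.sum_univ_four] at hne
    have hv2 : v 2 ∈ H.hdg ((t 2).1, (t 2).2) := hv 2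
    have hv3 : v 3 ∈ H.hdg ((t 3).1, (t 3).2) := hv 3
    by_cases h1 : ((t 3).1, (t 3).2) = ((t 2).2, (t 2).1)
    · have e1 : (t 3).1 = (t 2).2 := (Prod.ext_iff.1 h1).1
      have e2 : (t 3).2 = (t 2).1 := (Prod.ext_iff.1 h1).2
      rw [h ![t 0, t 1] ![v 0, v 1] (fun i => by fin_cases i; exacts [hv 0, hv 1]) ?_, zero_mul]
      rw [Fin.sum_univ_two, Fin.sum_univ_two]
      intro h2
      apply hne
      rw [e1, e2]
      have h3 : (t 0).1 + (t 1).1 = (t 0).2 + (t 1).2 := h2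
      rw [add_assoc, add_assoc, ← add_assoc, ← add_assoc, h3]
      ring
    · rw [show Sc H (v 2) (v 3) = 0 from H.orth _ _ _ _ h1 _ hv2 _ hv3, mul_zero]

variable {H} {K : Type} [Field K] [CharZero K] {Γ : Type} [Group Γ]
  {ρ : Representation K Γ (K ⊗[ℚ] V)} {χ : Γ →* K}

theorem chi_ne' (χ : Γ →* K) (s : Γ) : χ s ≠ 0 := by
  intro h
  have h1 : χ s * χ s⁻¹ = 1 := by rw [← map_mul, mul_inv_cancel, map_one]
  rw [h, zero_mul] at h1
  exact zero_ne_one h1

/-- The product of a Tate form with the polarization is a Tate form. -/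
theorem isTate_tens (hG : IsGalois H ρ χ)
    {φ : MultilinearMap K (fun _ : Fin 2 => K ⊗[ℚ] V) K} (h : IsTate H ρ χ φ) :
    IsTate H ρ χ (tens φ (bil (SK H K))) := by
  obtain ⟨Δ, hΔ, h⟩ := h
  refine ⟨Δ, hΔ, fun w v hv => ?_⟩
  have hφ := h ![w 0, w 1] ![v 0, v 1] (fun i => by fin_cases i; exacts [hv 0, hv 1])
  rw [Fin.sum_univ_two] at hφ
  simp only [Matrix.cons_val_zero, Matrix.cons_val_one] at hφ
  rw [Fin.sum_univ_four]
  by_cases h1 : w 2 = w 3
  · refine ⟨fun ho => ?_, fun m hm s hs => ?_⟩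
    · rw [tens_apply]
      rw [hφ.1, zero_mul]
      rw [← h1, add_assoc] at ho
      rcases Int.even_or_odd (w 0 + w 1) with he | ho'
      · exact absurd (he.add ⟨w 2, rfl⟩) (Int.not_even_iff_odd.2 ho)
      · exact ho'
    · have hm' : w 0 + w 1 = 2 * (m - w 2) := by rw [← h1] at hm; linarith
      have h2 := hφ.2 _ hm' s hs
      have hv3 : v 3 ∈ (H.wt (w 2)).baseChange K := by rw [h1]; exact hv 3
      rw [tens_apply, tens_apply, bil_two, bil_two, hG.form s (w 2) _ (hv 2) _ hv3]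
      have h3 : (fun i => ρ s (![v 0, v 1] i)) = ![ρ s (v 0), ρ s (v 1)] := by
        funext i
        fin_cases i <;> rfl
      rw [h3] at h2
      rw [h2]
      have h4 : χ s ^ m = χ s ^ (m - w 2) * χ s ^ w 2 := by
        rw [← zpow_add₀ (chi_ne' χ s), sub_add_cancel]
      rw [h4]
      ring
  · have h2 : SK H K (v 2) (v 3) = 0 := SK_orth H h1 (hv 2) (hv 3)
    refine ⟨fun _ => ?_, fun m hm s hs => ?_⟩
    · rw [tens_apply, bil_two, h2, mul_zero]
    · rw [tens_apply, tens_apply, bil_two, bil_two, h2,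
        SK_orth H h1 (hG.wt_mem s _ _ (hv 2)) (hG.wt_mem s _ _ (hv 3)), mul_zero, mul_zero,
        mul_zero]

end Main

section Two

variable {V : Type} [AddCommGroup V] [Module ℚ V] [FiniteDimensional ℚ V] (H : PolarizedHodge V)
  {ℓ : ℕ} [hℓ : Fact ℓ.Prime] {Γ : Type} [Group Γ] [TopologicalSpace Γ]
  [IsTopologicalGroup Γ] [CompactSpace Γ]
  (ρ : Representation ℚ_[ℓ] Γ (ℚ_[ℓ] ⊗[ℚ] V)) (χ : Γ →* ℚ_[ℓ])

/-- Potentially motivated forms are Hodge forms and Tate forms. -/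
theorem isHodge_of_pot {A : ∀ n : ℕ, Submodule ℚ (MultilinearMap ℚ (fun _ : Fin n => V) ℚ)}
    (hAH : ∀ n, ∀ ψ ∈ A n, IsHodge H ψ) {n : ℕ} {ψ : MultilinearMap ℚ (fun _ : Fin n => V) ℚ}
    (hψ : IsPotMotivated A ψ) : IsHodge H ψ :=
  isHodge_of_ann H fun X hX => hψ X (hodge_le_mot H hAH hX)

theorem isTate_of_pot (hG : IsGalois H ρ χ) (hc : IsContinuous ρ χ)
    {A : ∀ n : ℕ, Submodule ℚ (MultilinearMap ℚ (fun _ : Fin n => V) ℚ)}
    (hAH : ∀ n, ∀ ψ ∈ A n, IsHodge H ψ)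
    (hAT : ∀ n, ∀ ψ ∈ A n, ∀ φ, Extends ℚ_[ℓ] φ ψ → IsTate H ρ χ φ) {n : ℕ}
    {ψ : MultilinearMap ℚ (fun _ : Fin n => V) ℚ} (hψ : IsPotMotivated A ψ)
    {φ : MultilinearMap ℚ_[ℓ] (fun _ : Fin n => ℚ_[ℓ] ⊗[ℚ] V) ℚ_[ℓ]} (hφ : Extends ℚ_[ℓ] φ ψ) :
    IsTate H ρ χ φ := by
  refine isTate_of_ann hG hc (fun X hX => ?_)
    (fun w v hv ho => hodge_odd H (isHodge_of_pot H hAH hψ) hφ hv ho)
  have h1 := tate_le_mot H hAT hX
  rw [← motLie_potA] at h1
  exact (mem_extEnd_iff (fun n ψ => ψ ∈ potA A n) X).1 h1 n ψ hψ φ hφ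

theorem agree_two (hG : IsGalois H ρ χ) (hc : IsContinuous ρ χ)
    (A : ∀ n : ℕ, Submodule ℚ (MultilinearMap ℚ (fun _ : Fin n => V) ℚ))
    (hAH : ∀ n, ∀ ψ ∈ A n, IsHodge H ψ)
    (hAT : ∀ n, ∀ ψ ∈ A n, ∀ φ, Extends ℚ_[ℓ] φ ψ → IsTate H ρ χ φ)
    (h4 : Agree H ρ χ A 4) : Agree H ρ χ A 2 := by
  by_cases hS : ∃ c d, H.S c d ≠ 0
  · have hS' : ∃ c d, bil H.S ![c, d] ≠ 0 := hS
    have hSK : ∃ c d, bil (SK H ℚ_[ℓ]) ![c, d] ≠ 0 := by
      obtain ⟨c, d, hcd⟩ := hS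
      refine ⟨(1 : ℚ_[ℓ]) ⊗ₜ[ℚ] c, (1 : ℚ_[ℓ]) ⊗ₜ[ℚ] d, ?_⟩
      rw [bil_two, ext_one]
      exact (map_ne_zero _).2 hcd
    have hSS := (h4.1 _).1 (isHodge_tens H (isHodge_S H))
    refine ⟨fun ψ => ⟨fun h X hX => ?_, fun h => isHodge_of_pot H hAH h⟩,
      fun φ => ⟨fun h => ?_, fun h => ?_⟩⟩
    · exact ann_of_tens hS' ((h4.1 _).1 (isHodge_tens H h) X hX) (hSS X hX)
    · refine ann_ext_forms (fun n ψ => ψ ∈ A n) fun Z hZ => ?_
      have hZ' : ∀ n (ψ : MultilinearMap ℚ (fun _ : Fin n => V) ℚ), IsPotMotivated A ψ →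
          ∀ φ, Extends ℚ_[ℓ] φ ψ → Annihilates Z φ := by
        intro n ψ hψ φ hφ
        have h1 : Z ∈ extEnd ℚ_[ℓ] (fun X => X ∈ motLie (potA A)) := by
          rw [motLie_potA]
          exact hZ
        exact (mem_extEnd_iff (fun n ψ => ψ ∈ potA A n) Z).1 h1 n ψ hψ φ hφ
      refine ann_of_tens hSK ?_ ?_
      · exact ann_of_combos ((h4.2 _).1 (isTate_tens hG h)) fun ψ hψ φ hφ => hZ' 4 ψ hψ φ hφ
      · exact ann_of_combos ((h4.2 _).1 (isTate_tens hG (isTate_S hG)))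
          fun ψ hψ φ hφ => hZ' 4 ψ hψ φ hφ
    · exact isTate_combos (fun ψ hψ φ hφ => isTate_of_pot H ρ χ hG hc hAH hAT hψ hφ) h
  · -- the space is trivial
    have hV : ∀ v : V, v = 0 := by
      intro v
      apply S_nondeg H
      intro w
      by_contra h
      exact hS ⟨v, w, h⟩
    have hV' : ∀ z : ℚ_[ℓ] ⊗[ℚ] V, z = 0 := by
      intro z
      induction z with
      | zero => rfl
      | add x y hx hy => rw [hx, hy, add_zero]
      | tmul a v => rw [hV v, tmul_zero]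
    refine ⟨fun ψ => ⟨fun h X hX v => ?_, fun h => isHodge_of_pot H hAH h⟩,
      fun φ => ⟨fun h => ?_, fun h => ?_⟩⟩
    · exact Finset.sum_eq_zero fun i _ => ψ.map_coord_zero i (by
        rw [Function.update_self]
        exact hV _)
    · have h1 : φ = 0 := by
        ext v
        exact φ.map_coord_zero 0 (hV' _)
      rw [h1]
      exact Submodule.zero_mem _
    · exact isTate_combos (fun ψ hψ φ hφ => isTate_of_pot H ρ χ hG hc hAH hAT hψ hφ) h

/-- **The theorem.** -/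
theorem agree_iff_four (hG : IsGalois H ρ χ) (hc : IsContinuous ρ χ) (hss : Semisimple ρ)
    (A : ∀ n : ℕ, Submodule ℚ (MultilinearMap ℚ (fun _ : Fin n => V) ℚ))
    (hAH : ∀ n, ∀ ψ ∈ A n, IsHodge H ψ)
    (hAT : ∀ n, ∀ ψ ∈ A n, ∀ φ, Extends ℚ_[ℓ] φ ψ → IsTate H ρ χ φ) :
    (∀ n, Agree H ρ χ A n) ↔ (Agree H ρ χ A 4 ∧ AgreeCentre H ρ χ A) := by
  rw [agree_iff H ρ χ hG hc hss A hAH hAT]
  exact ⟨fun h => h.2, fun h => ⟨agree_two H ρ χ hG hc A hAH hAT h.1, h⟩⟩

end Two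

end Pool.Agent.Y111.MM
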